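import Pool.Agent.MP_794e6e_ex.Basic

/-! ROW A6. Averages over the staircases. -/

namespace Pool.Agent.MP_794e6e_ex
set_option maxHeartbeats 400000

open Finset Filter
open scoped Classical
open Pool.Agent.MP_794e6e_pr

-- BEGIN av1
theorem card_Om (K : ℕ) (R : ℕ → ℕ) : (Om K R).card = ∏ j ∈ range K, R j := by
  unfold Om
  rw [card_image_of_injective, Fintype.card_piFinset]
  · rw [← Fin.prod_univ_eq_prod_range]
    refine Finset.prod_congr rfl fun j _ => ?_
    rw [Nat.card_Ico]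
    omega
  · intro v w hvw
    funext i
    have h := congrFun hvw (i : ℕ)
    simpa using h
-- END av1

theorem Om_pos {K : ℕ} {R : ℕ → ℕ} (hR : ∀ j, 1 ≤ R j) : 0 < (Om K R).card := by
  rw [card_Om]
  exact prod_pos fun j _ => hR j

-- BEGIN av2
theorem mem_Om {K : ℕ} {R : ℕ → ℕ} {ω : ℕ → ℕ} (h : ω ∈ Om K R) {j : ℕ} (hj : j < K) :
    R j ≤ ω j ∧ ω j < 2 * R j := by
  unfold Om at h
  rw [mem_image] at h
  obtain ⟨v, hv, rfl⟩ := h
  have hv' := (Fintype.mem_piFinset.1 hv) ⟨j, hj⟩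
  rw [mem_Ico] at hv'
  simpa [hj] using hv'
-- END av2

-- BEGIN av3
private theorem av3_mem {K : ℕ} {R : ℕ → ℕ} {ω : ℕ → ℕ} :
    ω ∈ Om K R ↔ (∀ i, i < K → R i ≤ ω i ∧ ω i < 2 * R i) ∧ ∀ i, K ≤ i → ω i = 0 := by
  unfold Om
  rw [mem_image]
  constructor
  · rintro ⟨v, hv, rfl⟩
    rw [Fintype.mem_piFinset] at hv
    refine ⟨fun i hi => ?_, fun i hi => ?_⟩
    · have h1 := hv ⟨i, hi⟩
      rw [mem_Ico] at h1
      simp only [hi, dif_pos]
      exact h1
    · simp only [not_lt.2 hi, dif_neg, not_false_eq_true]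
  · rintro ⟨h1, h2⟩
    refine ⟨fun i => ω i, ?_, ?_⟩
    · rw [Fintype.mem_piFinset]
      intro i
      rw [mem_Ico]
      exact h1 i i.2
    · funext i
      by_cases hi : i < K
      · simp only [hi, dif_pos]
      · simp only [hi, dif_neg, not_false_eq_true]
        exact (h2 i (not_lt.1 hi)).symm

private theorem av3_cor (ω : ℕ → ℕ) (m : ℕ) : cor ω (m + 3) =
    cor ω m + ax (dr m) (ω m) + ax (dr (m + 1)) (ω (m + 1)) + ax (dr (m + 2)) (ω (m + 2)) := by
  unfold cor
  rw [sum_range_succ, sum_range_succ, sum_range_succ]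

private theorem av3_dr (m : ℕ) : dr m ≠ dr (m + 1) ∧ dr m ≠ dr (m + 2) ∧
    dr (m + 1) ≠ dr (m + 2) := by
  refine ⟨?_, ?_, ?_⟩ <;>
  · intro h
    have h1 := congrArg Fin.val h
    simp only [dr] at h1
    omega

private theorem av3_three {c₁ c₂ c₃ : Fin 3} (h12 : c₁ ≠ c₂) (h13 : c₁ ≠ c₃) (h23 : c₂ ≠ c₃)
    {a b c a' b' c' : ℤ} (h : ax c₁ a + ax c₂ b + ax c₃ c = ax c₁ a' + ax c₂ b' + ax c₃ c') :
    a = a' ∧ b = b' ∧ c = c' := by
  refine ⟨?_, ?_, ?_⟩
  · have h1 := congrFun h c₁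
    simpa [ax, Pi.single_apply, h12, h13, h23, h12.symm, h13.symm, h23.symm] using h1
  · have h1 := congrFun h c₂
    simpa [ax, Pi.single_apply, h12, h13, h23, h12.symm, h13.symm, h23.symm] using h1
  · have h1 := congrFun h c₃
    simpa [ax, Pi.single_apply, h12, h13, h23, h12.symm, h13.symm, h23.symm] using h1

/-- **Density of the corners.** Changing `ω (j - 1)`, `ω (j - 2)`, `ω (j - 3)` arbitrarily is
injective on the `ω` with `cor ω j = z` (they are determined by `z` and the other ones). -/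
theorem card_cor {K : ℕ} {R : ℕ → ℕ} {j : ℕ} (h3 : 3 ≤ j) (hj : j ≤ K) (z : Pt) :
    ((Om K R).filter (fun ω => cor ω j = z)).card * (R (j - 1) * (R (j - 2) * R (j - 3)))
      ≤ (Om K R).card := by
  obtain ⟨m, rfl⟩ := Nat.exists_eq_add_of_le' h3
  have e1 : m + 3 - 1 = m + 2 := by omega
  have e2 : m + 3 - 2 = m + 1 := by omega
  have e3 : m + 3 - 3 = m := by omega
  rw [e1, e2, e3]
  have hcard : ((Om K R).filter (fun ω => cor ω (m + 3) = z)).card *
      (R (m + 2) * (R (m + 1) * R m)) = (((Om K R).filter (fun ω => cor ω (m + 3) = z)) ×ˢ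
        (range (R (m + 2)) ×ˢ (range (R (m + 1)) ×ˢ range (R m)))).card := by
    rw [card_product, card_product, card_product, card_range, card_range, card_range]
  rw [hcard]
  refine Finset.card_le_card_of_injOn
    (fun q : (ℕ → ℕ) × (ℕ × (ℕ × ℕ)) => fun i : ℕ => if i = m + 2 then R (m + 2) + q.2.1 else
      if i = m + 1 then R (m + 1) + q.2.2.1 else if i = m then R m + q.2.2.2 else q.1 i) ?_ ?_
  · rintro ⟨ω, a, b, c⟩ hq
    rw [mem_coe, mem_product, mem_product, mem_product, mem_filter, mem_range, mem_range,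
      mem_range] at hq
    obtain ⟨⟨hω, -⟩, ha, hb, hc⟩ := hq
    simp only at hω ha hb hc
    rw [av3_mem] at hω
    rw [mem_coe, av3_mem]
    refine ⟨fun i hi => ?_, fun i hi => ?_⟩
    · have h1 := hω.1 i hi
      simp only
      split_ifs with c1 c2 c3
      · subst c1; omega
      · subst c2; omega
      · subst c3; omega
      · exact h1
    · simp only
      rw [if_neg (by omega), if_neg (by omega), if_neg (by omega)]
      exact hω.2 i hi
  · rintro ⟨ω, a, b, c⟩ hq ⟨ω', a', b', c'⟩ hq' heq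
    rw [mem_coe, mem_product, mem_filter] at hq hq'
    have hz : cor ω (m + 3) = z := hq.1.2
    have hz' : cor ω' (m + 3) = z := hq'.1.2
    have hv := fun i => congrFun heq i
    simp only at hv
    have ha : a = a' := by
      have h1 := hv (m + 2)
      rw [if_pos rfl, if_pos rfl] at h1
      omega
    have hb : b = b' := by
      have h1 := hv (m + 1)
      rw [if_neg (by omega), if_pos rfl, if_neg (by omega), if_pos rfl] at h1
      omega
    have hc : c = c' := by
      have h1 := hv m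
      rw [if_neg (by omega), if_neg (by omega), if_pos rfl, if_neg (by omega),
        if_neg (by omega), if_pos rfl] at h1
      omega
    have ho : ∀ i, i ≠ m + 2 → i ≠ m + 1 → i ≠ m → ω i = ω' i := by
      intro i i1 i2 i3
      have h1 := hv i
      rw [if_neg i1, if_neg i2, if_neg i3, if_neg i1, if_neg i2, if_neg i3] at h1
      exact h1
    have hcor : cor ω m = cor ω' m := by
      unfold cor
      refine sum_congr rfl fun i hi => ?_
      rw [mem_range] at hi
      rw [ho i (by omega) (by omega) (by omega)]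
    have h5 : cor ω (m + 3) = cor ω' (m + 3) := hz.trans hz'.symm
    rw [av3_cor, av3_cor, hcor, add_assoc, add_assoc, add_assoc, add_assoc] at h5
    have h6 := add_left_cancel h5
    rw [← add_assoc, ← add_assoc] at h6
    obtain ⟨d1, d2, d3⟩ := av3_dr m
    obtain ⟨g1, g2, g3⟩ := av3_three d1 d2 d3 h6
    have hω : ω = ω' := by
      funext i
      by_cases i1 : i = m + 2
      · rw [i1]; exact_mod_cast g3
      · by_cases i2 : i = m + 1
        · rw [i2]; exact_mod_cast g2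
        · by_cases i3 : i = m
          · rw [i3]; exact_mod_cast g1
          · exact ho i i1 i2 i3
    rw [ha, hb, hc, hω]
-- END av3

-- BEGIN av4
/-- sum over the translations: each pair of points of `S` and `X` is met by one corner -/
theorem sum_hits {K : ℕ} {R : ℕ → ℕ} (hR : ∀ j, 1 ≤ R j) {j : ℕ} (h3 : 3 ≤ j) (hj : j ≤ K)
    (c : Pt) (S X : Finset Pt) :
    (∑ ω ∈ Om K R, ((tr (cor ω j + c) S ∩ X).card : ℝ)) *
      ((R (j - 1) : ℝ) * (R (j - 2) * R (j - 3))) ≤ (Om K R).card * (S.card * X.card) := by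
  have h1 : ∀ ω ∈ Om K R, (tr (cor ω j + c) S ∩ X).card ≤
      ∑ q ∈ S ×ˢ X, if cor ω j = q.2 - q.1 - c then 1 else 0 := by
    intro ω _
    rw [← card_filter]
    refine (card_le_card (t := ((S ×ˢ X).filter fun q => cor ω j = q.2 - q.1 - c).image
      fun q => q.2) fun z hz => ?_).trans card_image_le
    rw [mem_inter, mem_tr] at hz
    refine mem_image.2 ⟨(z - (cor ω j + c), z), mem_filter.2 ⟨mem_product.2 ⟨hz.1, hz.2⟩, ?_⟩, rfl⟩
    simp only
    abel
  have h2 : (∑ ω ∈ Om K R, (tr (cor ω j + c) S ∩ X).card) * (R (j - 1) * (R (j - 2) * R (j - 3)))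
      ≤ (Om K R).card * (S.card * X.card) := by
    calc (∑ ω ∈ Om K R, (tr (cor ω j + c) S ∩ X).card) * (R (j - 1) * (R (j - 2) * R (j - 3)))
        ≤ (∑ ω ∈ Om K R, ∑ q ∈ S ×ˢ X, if cor ω j = q.2 - q.1 - c then 1 else 0) *
          (R (j - 1) * (R (j - 2) * R (j - 3))) := Nat.mul_le_mul_right _ (sum_le_sum h1)
      _ = ∑ q ∈ S ×ˢ X, ((Om K R).filter fun ω => cor ω j = q.2 - q.1 - c).card *
          (R (j - 1) * (R (j - 2) * R (j - 3))) := by
        rw [sum_comm, sum_mul]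
        refine sum_congr rfl fun q _ => ?_
        rw [card_filter]
      _ ≤ ∑ q ∈ S ×ˢ X, (Om K R).card := sum_le_sum fun q _ => card_cor h3 hj _
      _ = (Om K R).card * (S.card * X.card) := by
        rw [sum_const, card_product, smul_eq_mul, mul_comm]
  exact_mod_cast h2
-- END av4

-- BEGIN av5
theorem av5_cnt {K : ℕ} {R : ℕ → ℕ} {ω : ℕ → ℕ} (h : ω ∈ Om K R) {j : ℕ} (hj : j < K)
    (X : Finset Pt) (ρ : ℕ) : cnt X ω j ρ ≤ ∑ s ∈ range (2 * R j), ∑ y ∈ nb X ρ,
      if cor ω j = y - ax (dr j) (s : ℤ) then 1 else 0 := by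
  unfold cnt
  have hsub : ((range (ω j)).filter fun s : ℕ =>
      ∃ p ∈ X, ∀ k, |p k - (cor ω j + ax (dr j) (s : ℤ)) k| < (ρ : ℤ)) ⊆
      (range (2 * R j)).filter fun s : ℕ => cor ω j + ax (dr j) (s : ℤ) ∈ nb X ρ := by
    intro s hs
    rw [mem_filter, mem_range] at hs ⊢
    have := (mem_Om h hj).2
    exact ⟨by omega, mem_nb.2 hs.2⟩
  refine (card_le_card hsub).trans ?_
  rw [card_filter]
  refine Finset.sum_le_sum fun s _ => ?_
  split_ifs with hy
  · refine le_trans ?_ (Finset.single_le_sum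
      (f := fun y => if cor ω j = y - ax (dr j) (s : ℤ) then 1 else 0)
      (fun _ _ => Nat.zero_le _) hy)
    rw [if_pos (by abel)]
  · exact Nat.zero_le _

/-- the mean number of positions near `X`: sum over the positions `s < 2 R j` and over the
points of `nb X ρ` -/
theorem avg_cnt {K : ℕ} {R : ℕ → ℕ} (hR : ∀ j, 1 ≤ R j) {j : ℕ} (h3 : 3 ≤ j) (hj : j < K)
    (X : Finset Pt) (ρ : ℕ) :
    (∑ ω ∈ Om K R, (cnt X ω j ρ : ℝ)) * ((R (j - 1) : ℝ) * (R (j - 2) * R (j - 3)))
      ≤ (Om K R).card * (2 * R j * (nb X ρ).card) := by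
  have h1 : (∑ ω ∈ Om K R, cnt X ω j ρ) * (R (j - 1) * (R (j - 2) * R (j - 3)))
      ≤ (Om K R).card * (2 * R j * (nb X ρ).card) := by
    have h2 : ∑ ω ∈ Om K R, cnt X ω j ρ ≤ ∑ s ∈ range (2 * R j), ∑ y ∈ nb X ρ,
        ((Om K R).filter (fun ω => cor ω j = y - ax (dr j) (s : ℤ))).card := by
      refine (Finset.sum_le_sum fun ω hω => av5_cnt hω hj X ρ).trans (le_of_eq ?_)
      rw [Finset.sum_comm]
      refine Finset.sum_congr rfl fun s _ => ?_
      rw [Finset.sum_comm]
      refine Finset.sum_congr rfl fun y _ => ?_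
      rw [card_filter]
    refine (Nat.mul_le_mul_right _ h2).trans ?_
    rw [Finset.sum_mul]
    calc ∑ s ∈ range (2 * R j), (∑ y ∈ nb X ρ,
          ((Om K R).filter (fun ω => cor ω j = y - ax (dr j) (s : ℤ))).card)
            * (R (j - 1) * (R (j - 2) * R (j - 3)))
        ≤ ∑ _s ∈ range (2 * R j), ((nb X ρ).card * (Om K R).card) := by
          refine Finset.sum_le_sum fun s _ => ?_
          rw [Finset.sum_mul]
          calc _ ≤ ∑ _y ∈ nb X ρ, (Om K R).card :=
                Finset.sum_le_sum fun y _ => card_cor h3 hj.le _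
            _ = _ := by rw [Finset.sum_const, smul_eq_mul]
      _ = _ := by
          rw [Finset.sum_const, card_range, smul_eq_mul]
          ring
  exact_mod_cast h1
-- END av5

theorem cnt_le (X : Finset Pt) (ω : ℕ → ℕ) (j ρ : ℕ) : cnt X ω j ρ ≤ ω j := by
  unfold cnt
  exact (card_filter_le _ _).trans (card_range _).le

-- BEGIN av6
theorem av6_obs {X : Finset Pt} {ω : ℕ → ℕ} {j s ρ : ℕ}
    (h : ∃ p ∈ obs X ω j, ∀ k, ¬ (ρ : ℤ) ≤ |p k - ax 0 s k|) :
    ∃ p ∈ X, ∀ k, |p k - (cor ω j + ax (dr j) (s : ℤ)) k| < (ρ : ℤ) := by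
  obtain ⟨p, hp, hk⟩ := h
  unfold obs at hp
  obtain ⟨q, hq, rfl⟩ := mem_image.1 hp
  unfold tr at hq
  obtain ⟨p, hpX, rfl⟩ := mem_image.1 hq
  refine ⟨p, hpX, fun k => ?_⟩
  have h1 := hk (Equiv.swap 0 (dr j) k)
  have h2 : (perm (Equiv.swap 0 (dr j))).A (- cor ω j + p) (Equiv.swap 0 (dr j) k)
      = (- cor ω j + p) k := by
    show (- cor ω j + p) ((Equiv.swap 0 (dr j)).symm (Equiv.swap 0 (dr j) k)) = _
    rw [Equiv.symm_apply_apply]
  have h3 : ax 0 (s : ℤ) (Equiv.swap 0 (dr j) k) = ax (dr j) (s : ℤ) k := by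
    unfold ax
    by_cases hkd : k = dr j
    · subst hkd
      rw [Equiv.swap_apply_right, Pi.single_eq_same, Pi.single_eq_same]
    · rw [Pi.single_eq_of_ne hkd, Pi.single_eq_of_ne]
      intro h0
      apply hkd
      have h4 := congrArg (Equiv.swap 0 (dr j)) h0
      rwa [Equiv.swap_apply_self, Equiv.swap_apply_left] at h4
  rw [h2, h3, not_le] at h1
  have h5 : p k - (cor ω j + ax (dr j) (s : ℤ)) k = (- cor ω j + p) k - ax (dr j) (s : ℤ) k := by
    simp only [Pi.add_apply, Pi.neg_apply]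
    ring
  rw [h5]
  exact h1

theorem av6_card (X : Finset Pt) (ω : ℕ → ℕ) (j ρ : ℕ) :
    ((range (ω j)).filter fun s : ℕ => ¬ Free (obs X ω j) (ω j) s ρ).card
      ≤ 2 * ρ + cnt X ω j ρ := by
  have h1 : ((range (ω j)).filter fun s : ℕ => ¬ Free (obs X ω j) (ω j) s ρ) ⊆
      (range ρ ∪ Ico (ω j - ρ) (ω j - ρ + ρ)) ∪ ((range (ω j)).filter fun s : ℕ =>
        ∃ p ∈ X, ∀ k, |p k - (cor ω j + ax (dr j) (s : ℤ)) k| < (ρ : ℤ)) := by
    intro s hs
    rw [mem_filter, mem_range] at hs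
    obtain ⟨hs1, hs2⟩ := hs
    rw [mem_union, mem_union, mem_range, mem_Ico, mem_filter, mem_range]
    by_cases h2 : s < ρ
    · exact Or.inl (Or.inl h2)
    · by_cases h3 : ω j < s + ρ
      · exact Or.inl (Or.inr ⟨by omega, by omega⟩)
      · refine Or.inr ⟨hs1, av6_obs ?_⟩
        by_contra h4
        apply hs2
        refine ⟨by omega, by omega, fun p hp => ?_⟩
        by_contra h5
        exact h4 ⟨p, hp, fun k hk => h5 ⟨k, hk⟩⟩
  refine (card_le_card h1).trans ((card_union_le _ _).trans ?_)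
  have h2 : (range ρ ∪ Ico (ω j - ρ) (ω j - ρ + ρ)).card ≤ 2 * ρ := by
    refine (card_union_le _ _).trans ?_
    rw [card_range, Nat.card_Ico]
    omega
  unfold cnt
  omega

/-- the cost of a segment: a position which is not free is near an end or near `X` -/
theorem sc_le {X : Finset Pt} {ω : ℕ → ℕ} {j m I : ℕ} {a : ℕ → ℝ} (ha : ∀ i, 0 ≤ a i) :
    sc (obs X ω j) (ω j) m I a ≤ ω j * a I + ∑ i ∈ range I,
      a i * (400 * (m : ℝ) ^ (i + 1) + cnt X ω j (200 * m ^ (i + 1))) := by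
  unfold sc
  rw [sum_comm, sum_range_succ, add_comm]
  refine add_le_add (le_of_eq ?_) (sum_le_sum fun i hi => ?_)
  · simp
  · have hiI : i ≠ I := (mem_range.1 hi).ne
    have h1 : ∀ s ∈ range (ω j), (if i = I ∨ ¬ Free (obs X ω j) (ω j) s (200 * m ^ (i + 1))
        then a i else 0) = if ¬ Free (obs X ω j) (ω j) s (200 * m ^ (i + 1)) then a i else 0 := by
      intro s _
      simp only [hiI, false_or]
    rw [sum_congr rfl h1, ← sum_filter, sum_const, nsmul_eq_mul, mul_comm]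
    refine mul_le_mul_of_nonneg_left ?_ (ha i)
    have h2 := av6_card X ω j (200 * m ^ (i + 1))
    have h3 : ((((range (ω j)).filter fun s : ℕ =>
        ¬ Free (obs X ω j) (ω j) s (200 * m ^ (i + 1))).card : ℕ) : ℝ)
        ≤ ((2 * (200 * m ^ (i + 1)) + cnt X ω j (200 * m ^ (i + 1)) : ℕ) : ℝ) := by
      exact_mod_cast h2
    refine h3.trans (le_of_eq ?_)
    push_cast
    ring
-- END av6

end Pool.Agent.MP_794e6e_ex
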