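import Pool.Agent.MP_794e6e_ex.Defs

/-! ROW A1. Subadditivity of `FF`; elementary facts on `nb`, `ax`, `bk`. -/

namespace Pool.Agent.MP_794e6e_ex
set_option maxHeartbeats 400000

open Finset Filter
open scoped Classical
open Pool.Agent.MP_794e6e_pr

-- BEGIN ba1
/-- from `card_walks_add`: a length `k ≤ a + b` is `k₁ + k₂` with `k₁ ≤ a`, `k₂ ≤ b` -/
theorem FF_add {μ : ℝ} (hμ : 1 ≤ μ) (a b : ℕ) : FF μ (a + b) ≤ FF μ a + FF μ b := by
  refine FF_le fun k hk => ?_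
  obtain ⟨c, d, rfl, hc, hd⟩ : ∃ c d, k = c + d ∧ c ≤ a ∧ d ≤ b :=
    ⟨min k a, k - min k a, by omega, by omega, by omega⟩
  have h1 : ((walks (c + d)).card : ℝ) * μ⁻¹ ^ (c + d) ≤
      (((walks c).card : ℝ) * μ⁻¹ ^ c) * (((walks d).card : ℝ) * μ⁻¹ ^ d) := by
    have h' : ((walks (c + d)).card : ℝ) ≤ (walks c).card * (walks d).card := by
      exact_mod_cast card_walks_add c d
    have h0 : 0 ≤ μ⁻¹ ^ (c + d) := pow_nonneg (inv_nonneg.2 (by linarith)) _
    calc ((walks (c + d)).card : ℝ) * μ⁻¹ ^ (c + d)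
        ≤ ((walks c).card * (walks d).card : ℝ) * μ⁻¹ ^ (c + d) :=
          mul_le_mul_of_nonneg_right h' h0
      _ = _ := by rw [pow_add]; ring
  calc Real.log (((walks (c + d)).card : ℝ) * μ⁻¹ ^ (c + d))
      ≤ Real.log ((((walks c).card : ℝ) * μ⁻¹ ^ c) * (((walks d).card : ℝ) * μ⁻¹ ^ d)) :=
        Real.log_le_log (term_pos hμ _) h1
    _ = Real.log (((walks c).card : ℝ) * μ⁻¹ ^ c) + Real.log (((walks d).card : ℝ) * μ⁻¹ ^ d) :=
        Real.log_mul (term_pos hμ c).ne' (term_pos hμ d).ne'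
    _ ≤ FF μ a + FF μ b := add_le_add (le_FF μ hc) (le_FF μ hd)

/-- by induction from `FF_add` -/
theorem FF_div {μ : ℝ} (hμ : 1 ≤ μ) {l : ℕ} (hl : 1 ≤ l) (a : ℕ) :
    FF μ a ≤ ((a / l + 1 : ℕ) : ℝ) * FF μ l := by
  have key : ∀ q : ℕ, FF μ ((q + 1) * l) ≤ ((q + 1 : ℕ) : ℝ) * FF μ l := by
    intro q
    induction q with
    | zero => simp
    | succ q ih =>
      have h1 := FF_add hμ ((q + 1) * l) l
      have h2 : (q + 1 + 1) * l = (q + 1) * l + l := by ring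
      rw [h2]
      push_cast at ih ⊢
      linarith
  have h3 : a ≤ (a / l + 1) * l := by
    have := Nat.lt_div_mul_add (a := a) (b := l) (by omega)
    rw [add_mul, one_mul]
    omega
  exact (FF_mono μ h3).trans (key (a / l))
-- END ba1

-- BEGIN ba2
theorem mem_nb {X : Finset Pt} {ρ : ℕ} {z : Pt} :
    z ∈ nb X ρ ↔ ∃ p ∈ X, ∀ k, |p k - z k| < (ρ : ℤ) := by
  unfold nb
  rw [mem_biUnion]
  refine exists_congr fun p => and_congr_right fun _ => ?_
  rw [Fintype.mem_piFinset]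
  refine forall_congr' fun k => ?_
  rw [mem_Ioo, abs_lt]
  constructor <;> intro h <;> constructor <;> linarith [h.1, h.2]

theorem card_nb_tr (c : Pt) (X : Finset Pt) (ρ : ℕ) : (nb (tr c X) ρ).card = (nb X ρ).card := by
  rw [← card_tr c (nb X ρ)]
  congr 1
  ext z
  rw [mem_nb, mem_tr, mem_nb]
  constructor
  · rintro ⟨p, hp, h⟩
    refine ⟨p - c, mem_tr.1 hp, fun k => ?_⟩
    have h1 := h k
    rwa [Pi.sub_apply, Pi.sub_apply, sub_sub_sub_cancel_right]
  · rintro ⟨p, hp, h⟩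
    refine ⟨p + c, ?_, fun k => ?_⟩
    · rw [mem_tr, add_sub_cancel_right]
      exact hp
    · have h1 := h k
      rw [Pi.sub_apply] at h1
      rw [Pi.add_apply]
      have h2 : p k + c k - z k = p k - (z k - c k) := by ring
      rwa [h2]

/-- neighbourhoods of neighbourhoods: if every point of `X` is at distance less than `r` of a
point of `Y` then the `ρ`-neighbourhood of `X` has at most `|Y| (2 (ρ + r) + 1) ^ 3` points -/
theorem card_nb_le {X Y : Finset Pt} {r : ℕ} (h : ∀ p ∈ X, ∃ q ∈ Y, ∀ k, |q k - p k| < (r : ℤ))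
    (ρ : ℕ) : (nb X ρ).card ≤ Y.card * (2 * (ρ + r) + 1) ^ 3 := by
  have h1 : nb X ρ ⊆ nb Y (ρ + r) := by
    intro z hz
    obtain ⟨p, hp, h2⟩ := mem_nb.1 hz
    obtain ⟨q, hq, h3⟩ := h p hp
    refine mem_nb.2 ⟨q, hq, fun k => ?_⟩
    have h4 := abs_lt.1 (h2 k)
    have h5 := abs_lt.1 (h3 k)
    rw [abs_lt]
    push_cast
    constructor <;> linarith [h4.1, h4.2, h5.1, h5.2]
  refine (card_le_card h1).trans ?_
  unfold nb
  refine card_biUnion_le.trans ?_
  refine (sum_le_card_nsmul _ _ ((2 * (ρ + r) + 1) ^ 3) fun p _ => ?_).trans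
    (le_of_eq (by rw [smul_eq_mul]))
  rw [Fintype.card_piFinset]
  have h6 : ∀ k : Fin 3, (Ioo (p k - ((ρ + r : ℕ) : ℤ)) (p k + ((ρ + r : ℕ) : ℤ))).card ≤
      2 * (ρ + r) + 1 := by
    intro k
    rw [Int.card_Ioo]
    omega
  refine (prod_le_prod' fun k _ => h6 k).trans (le_of_eq ?_)
  rw [prod_const, card_univ, Fintype.card_fin]
-- END ba2

theorem card_bk_le (A : Word) : (bk A).card ≤ A.length + 1 := by
  unfold bk
  rw [card_tr]
  exact card_pts_le A

end Pool.Agent.MP_794e6e_ex
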