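import Pool.Agent.MP_794e6e_ex.Basic

/-! ROW A3. Blocks. -/

namespace Pool.Agent.MP_794e6e_ex
set_option maxHeartbeats 400000

open Finset Filter
open scoped Classical
open Pool.Agent.MP_794e6e_pr

-- BEGIN bl1
theorem bl1_D (n : ℕ) : D (List.replicate n ((0, true) : Step)) = ax 0 n := by
  rw [D_replicate]
  funext k
  by_cases hk : k = 0
  · subst hk
    simp [vec, ax]
  · simp [vec, ax, hk]

theorem bl1_split {n : ℕ} {a b : Word} (h : List.replicate n ((0, true) : Step) = a ++ b) :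
    a = List.replicate a.length (0, true) ∧ b = List.replicate b.length (0, true) ∧
      a.length + b.length = n := by
  have h1 := List.append_eq_replicate_iff.1 h.symm
  exact ⟨h1.2.1, h1.2.2, h1.1⟩

theorem bl1_br (n : ℕ) : Br (List.replicate n ((0, true) : Step)) := by
  refine ⟨saw_of_pos fun s hs => by rw [(List.mem_replicate.1 hs).2], ?_, ?_⟩
  · intro a u h
    rw [(bl1_split h).2.1, bl1_D]
    simp [ax]
  · intro u b h hu
    rw [(bl1_split h).1, bl1_D]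
    have := List.length_pos_iff.2 hu
    simp only [ax, Pi.single_eq_same]
    exact_mod_cast this

/-- the straight block -/
theorem blk_straight {x : ℝ} (hx : 0 < x) (L : ℕ) {r : ℕ} (hr : 1 ≤ r) :
    ∃ B, Blk x L r r r (r * Real.log x⁻¹) B := by
  refine ⟨Law.dirac (List.replicate r ((0, true) : Step)), ?_, ?_, ?_, ?_, ?_, le_refl r, by omega⟩
  · intro _
    exact bl1_br r
  · intro _
    exact bl1_D r
  · intro _
    show (List.replicate r ((0, true) : Step)).length ≤ r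
    rw [List.length_replicate]
  · intro _ p hp k
    change p ∈ pts (List.replicate r ((0, true) : Step)) at hp
    obtain ⟨a, b, hab, rfl⟩ := mem_pts.1 hp
    have h1 := abs_D_le a k
    have h2 := (bl1_split hab).2.2
    have h3 : (a.length : ℤ) ≤ r := by exact_mod_cast (by omega : a.length ≤ r)
    have h4 : (0 : ℤ) ≤ r := by positivity
    linarith
  · have h1 := Dom.dirac hx (L := L) (List.replicate r ((0, true) : Step))
    rw [List.length_replicate] at h1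
    have h2 : Real.exp (r * Real.log x⁻¹) = x⁻¹ ^ r := by
      rw [Real.exp_nat_mul, Real.exp_log (inv_pos.2 hx)]
    rw [h2]
    exact h1
-- END bl1

-- BEGIN bl2
/-- the reflection of the coordinates `1` and `2` -/
private def bl2_S : Sy := (refl 1).comp (refl 2)

private theorem bl2_A (v : Pt) (k : Fin 3) : bl2_S.A v k = if k = 0 then v k else - v k := by
  change (refl 1).A ((refl 2).A v) k = _
  rw [refl_A, refl_A]
  fin_cases k <;> simp

private theorem bl2_abs (v : Pt) (k : Fin 3) : |bl2_S.A v k| = |v k| := by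
  rw [bl2_A]
  split_ifs
  · rfl
  · exact abs_neg _

/-- a family of bridges with the same displacement gives a straight law: a word followed by an
independent one with the coordinates `1`, `2` reflected (`exists_law`, `Law.conv`, `Law.map`) -/
theorem straighten {x : ℝ} (hx : 0 < x) (L : ℕ) {F : Finset Word} {E : ℝ} {v : Pt} {n r : ℕ}
    (hF : ∀ w ∈ F, Br w ∧ D w = v ∧ w.length ≤ n ∧ ∀ p ∈ pts w, ∀ k, |p k| ≤ (r : ℤ))
    (hE : Real.exp (-E) ≤ ∑ w ∈ F, x ^ w.length) :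
    ∃ B : Law, (∀ i, Br (B.f i) ∧ D (B.f i) = ax 0 (2 * v 0) ∧ (B.f i).length ≤ 2 * n ∧
      ∀ p ∈ pts (B.f i), ∀ k, |p k| ≤ 2 * (r : ℤ)) ∧
      Dom x L B (Real.exp (2 * E + Real.log (L + 1))) := by
  obtain ⟨B0, hB0, hdom⟩ := exists_law hx hE
  refine ⟨B0.conv (B0.map bl2_S.g), ?_, ?_⟩
  · rintro ⟨i, j⟩
    obtain ⟨h1, h2, h3, h4⟩ := hF _ (hB0 i)
    obtain ⟨g1, g2, g3, g4⟩ := hF _ (hB0 j)
    change Br (B0.f i ++ (B0.f j).map bl2_S.g) ∧ D (B0.f i ++ (B0.f j).map bl2_S.g) = _ ∧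
      (B0.f i ++ (B0.f j).map bl2_S.g).length ≤ _ ∧
      ∀ p ∈ pts (B0.f i ++ (B0.f j).map bl2_S.g), ∀ k, |p k| ≤ 2 * (r : ℤ)
    refine ⟨h1.append (g1.map bl2_S fun v => by rw [bl2_A, if_pos rfl]), ?_, ?_, ?_⟩
    · rw [D_append, Sy.D_map, h2, g2]
      funext k
      rw [Pi.add_apply, bl2_A, ax]
      by_cases hk : k = 0
      · subst hk
        rw [if_pos rfl, Pi.single_eq_same]
        ring
      · rw [if_neg hk, Pi.single_eq_of_ne hk]
        ring
    · rw [List.length_append, List.length_map]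
      omega
    · intro p hp k
      have hr : (0 : ℤ) ≤ r := Int.natCast_nonneg r
      rw [pts_append, mem_union, mem_tr] at hp
      rcases hp with hp | hp
      · have := h4 p hp k
        linarith
      · obtain ⟨a, b, hab, hD⟩ := mem_pts.1 hp
        obtain ⟨a', b', e1, e2, _⟩ := List.map_eq_append_iff.1 hab
        have e3 : D a' ∈ pts (B0.f j) := mem_pts.2 ⟨a', b', e1, rfl⟩
        have e4 := g4 _ e3 k
        have e5 : |(p - D (B0.f i)) k| ≤ r := by
          rw [← hD, ← e2, Sy.D_map, bl2_abs]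
          exact e4
        have e6 := h4 _ (D_mem_pts _) k
        rw [Pi.sub_apply] at e5
        have e7 := abs_add_le (p k - D (B0.f i) k) (D (B0.f i) k)
        rw [sub_add_cancel] at e7
        linarith
  · have h1 := Dom.conv hx.le (Real.exp_pos E).le (Real.exp_pos E).le (hdom L)
      (Dom.map hx.le (Real.exp_pos E).le (hdom L) bl2_S.ginj)
    have h2 : Real.exp E * Real.exp E * ((L : ℝ) + 1) = Real.exp (2 * E + Real.log (L + 1)) := by
      rw [Real.exp_add, Real.exp_log (by positivity), two_mul, Real.exp_add]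
    rwa [h2] at h1
-- END bl2

-- BEGIN bl3
theorem bl3_FE_map {r : ℕ} {w : Word} (S : Sy) (τ : Equiv.Perm (Fin 3))
    (hS : ∀ (v : Pt) (k : Fin 3), |S.A v k| = |v (τ k)|) (h : FE r w) : FE r (w.map S.g) := by
  obtain ⟨⟨k, hk⟩, h2⟩ := h
  refine ⟨⟨τ.symm k, ?_⟩, ?_⟩
  · rw [Sy.D_map, hS, Equiv.apply_symm_apply]
    exact hk
  · intro a b hab hb k
    obtain ⟨a', b', e1, e2, e3⟩ := List.map_eq_append_iff.1 hab
    have hb' : b' ≠ [] := by
      rintro rfl
      exact hb (by rw [← e3]; rfl)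
    rw [← e2, Sy.D_map, hS]
    exact h2 a' b' e1 hb' _

/-- the end of a first exit word is at distance `r` -/
theorem bl3_end {r : ℕ} (hr : 1 ≤ r) {w : Word} (h : FE r w) (k : Fin 3) : |D w k| ≤ (r : ℤ) := by
  rcases List.eq_nil_or_concat w with rfl | ⟨u, s, rfl⟩
  · rw [D_nil, Pi.zero_apply, abs_zero]
    positivity
  · rw [List.concat_eq_append, D_append, D_singleton, Pi.add_apply]
    have h1 := h.2 u [s] List.concat_eq_append (by simp) k
    have h2 := abs_vec_le s k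
    have h3 := abs_add_le (D u k) (vec s k)
    linarith

theorem bl3_pt {r : ℕ} (hr : 1 ≤ r) {w a b : Word} (h : FE r w) (hab : w = a ++ b) (k : Fin 3) :
    |D a k| ≤ (r : ℤ) := by
  by_cases hb : b = []
  · subst hb
    rw [List.append_nil] at hab
    rw [← hab]
    exact bl3_end hr h k
  · exact (h.2 a b hab hb k).le

theorem bl3_perm {μ : ℝ} (hμ : 1 ≤ μ) {r l : ℕ} (k : Fin 3) :
    ∑ w ∈ ((wle l).filter (fun w => saw w ∧ FE r w)).filter (fun w => (r : ℤ) ≤ D w k),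
        μ⁻¹ ^ w.length ≤
      ∑ w ∈ ((wle l).filter (fun w => saw w ∧ FE r w)).filter (fun w => (r : ℤ) ≤ D w 0),
        μ⁻¹ ^ w.length := by
  have hx : 0 ≤ μ⁻¹ := inv_nonneg.2 (by linarith)
  refine sum_le_of_inj (fun w => w.map (perm (Equiv.swap 0 k)).g) ?_ ?_ ?_ ?_
  · intro w hw
    rw [mem_filter, mem_filter, mem_wle] at hw ⊢
    refine ⟨⟨by rw [List.length_map]; exact hw.1.1, hw.1.2.1.map _, bl3_FE_map _ (Equiv.swap 0 k)
      (fun v j => by rw [perm_A, Equiv.symm_swap]) hw.1.2.2⟩, ?_⟩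
    rw [Sy.D_map, perm_A, Equiv.symm_swap, Equiv.swap_apply_left]
    exact hw.2
  · intro w _ w' _ heq
    have := congrArg (List.map (perm (Equiv.swap 0 k)).g) heq
    simpa only [perm_swap_map] using this
  · intro w _
    rw [List.length_map]
  · intro w _
    exact pow_nonneg hx _

theorem bl3_refl {μ : ℝ} (hμ : 1 ≤ μ) {r l : ℕ} (k : Fin 3) :
    ∑ w ∈ ((wle l).filter (fun w => saw w ∧ FE r w)).filter (fun w => (r : ℤ) ≤ - D w k),
        μ⁻¹ ^ w.length ≤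
      ∑ w ∈ ((wle l).filter (fun w => saw w ∧ FE r w)).filter (fun w => (r : ℤ) ≤ D w k),
        μ⁻¹ ^ w.length := by
  have hx : 0 ≤ μ⁻¹ := inv_nonneg.2 (by linarith)
  refine sum_le_of_inj (fun w => w.map (refl k).g) ?_ ?_ ?_ ?_
  · intro w hw
    rw [mem_filter, mem_filter, mem_wle] at hw ⊢
    refine ⟨⟨by rw [List.length_map]; exact hw.1.1, hw.1.2.1.map _, bl3_FE_map _ (Equiv.refl _)
      (fun v j => ?_) hw.1.2.2⟩, ?_⟩
    · rw [refl_A]
      split_ifs
      · rw [abs_neg, Equiv.refl_apply]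
      · rw [Equiv.refl_apply]
    · rw [D_refl, if_pos rfl]
      exact hw.2
  · intro w _ w' _ heq
    have := congrArg (List.map (refl k).g) heq
    simpa only [refl_refl] using this
  · intro w _
    rw [List.length_map]
  · intro w _
    exact pow_nonneg hx _

/-- the exit face is turned to `x₀ = r` -/
theorem bl3_faces {μ : ℝ} (hμ : 1 ≤ μ) {r l : ℕ} :
    MM μ⁻¹ r l ≤ 6 *
      ∑ w ∈ ((wle l).filter (fun w => saw w ∧ FE r w)).filter (fun w => (r : ℤ) ≤ D w 0),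
        μ⁻¹ ^ w.length := by
  have hx : 0 ≤ μ⁻¹ := inv_nonneg.2 (by linarith)
  have h1 : MM μ⁻¹ r l ≤ ∑ w ∈ (wle l).filter (fun w => saw w ∧ FE r w), ∑ k : Fin 3,
      ((if (r : ℤ) ≤ D w k then μ⁻¹ ^ w.length else 0) +
        (if (r : ℤ) ≤ - D w k then μ⁻¹ ^ w.length else 0)) := by
    refine sum_le_sum fun w hw => ?_
    obtain ⟨k, hk⟩ := (mem_filter.1 hw).2.2.1
    have hp : 0 ≤ μ⁻¹ ^ w.length := pow_nonneg hx _
    have h2 : ∀ j : Fin 3, 0 ≤ (if (r : ℤ) ≤ D w j then μ⁻¹ ^ w.length else 0) +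
        (if (r : ℤ) ≤ - D w j then μ⁻¹ ^ w.length else 0) := by
      intro j
      split_ifs <;> linarith
    refine le_trans ?_ (single_le_sum (fun j _ => h2 j) (mem_univ k))
    rcases le_abs.1 hk with h3 | h3
    · rw [if_pos h3]
      split_ifs <;> linarith
    · rw [if_pos h3]
      split_ifs <;> linarith
  refine h1.trans ?_
  rw [sum_comm]
  have h3 : ∀ k : Fin 3, ∑ w ∈ (wle l).filter (fun w => saw w ∧ FE r w),
      ((if (r : ℤ) ≤ D w k then μ⁻¹ ^ w.length else 0) +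
        (if (r : ℤ) ≤ - D w k then μ⁻¹ ^ w.length else 0)) ≤ 2 *
      ∑ w ∈ ((wle l).filter (fun w => saw w ∧ FE r w)).filter (fun w => (r : ℤ) ≤ D w 0),
        μ⁻¹ ^ w.length := by
    intro k
    rw [sum_add_distrib, ← sum_filter, ← sum_filter]
    have h4 := bl3_perm hμ (r := r) (l := l) k
    have h5 := bl3_refl hμ (r := r) (l := l) k
    linarith
  refine (sum_le_sum fun k _ => h3 k).trans (le_of_eq ?_)
  rw [sum_const, card_univ, Fintype.card_fin, nsmul_eq_mul]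
  push_cast
  ring

/-- a first exit word through the face `x₀ = r` is a walk followed by a bridge -/
theorem bl3_cut {r l : ℕ} (hr : 1 ≤ r) {w : Word} (hl : w.length ≤ l) (hs : saw w) (h : FE r w)
    (h0 : (r : ℤ) ≤ D w 0) : ∃ q : Word × Word, w = q.1 ++ q.2 ∧ saw q.1 ∧ q.1.length ≤ l ∧
      q.2 ∈ (wle l).filter (fun w => Br w ∧ (r : ℤ) ≤ D w 0 ∧ D w 0 ≤ 2 * r ∧
        ∀ p ∈ pts w, ∀ k, |p k| ≤ 2 * (r : ℤ)) := by
  obtain ⟨a, b, rfl, ha, hb⟩ := exists_last_max (- ev 0) w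
  have hr' : (1 : ℤ) ≤ r := by exact_mod_cast hr
  have ha0 : D a 0 ≤ 0 := by
    have h1 := ha [] a rfl
    rw [AddMonoidHom.neg_apply, ev_apply] at h1
    linarith
  have hab : D (a ++ b) 0 = D a 0 + D b 0 := by rw [D_append, Pi.add_apply]
  have hend := abs_le.1 (bl3_end hr h 0)
  have hpa := abs_le.1 (bl3_pt hr h rfl 0 (a := a) (b := b))
  rw [List.length_append] at hl
  refine ⟨(a, b), rfl, hs.left, by simp only; omega, mem_filter.2 ⟨mem_wle.2 (by simp only; omega),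
    ⟨hs.right, ?_, ?_⟩, ?_, ?_, ?_⟩⟩
  · intro c u hcu
    change b = c ++ u at hcu
    by_cases hu : u = []
    · subst hu
      simp
    · have h1 := h.2 (a ++ c) u (by rw [hcu, List.append_assoc]) hu 0
      rw [D_append, Pi.add_apply] at h1
      have h2 := (abs_lt.1 h1).2
      have h3 : D b 0 = D c 0 + D u 0 := by rw [hcu, D_append, Pi.add_apply]
      linarith
  · intro u c huc hu
    have h1 := hb u c huc hu
    rw [AddMonoidHom.neg_apply, ev_apply] at h1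
    linarith
  · change (r : ℤ) ≤ D b 0
    linarith
  · change D b 0 ≤ 2 * (r : ℤ)
    linarith [hend.2, hpa.1]
  · intro p hp k
    obtain ⟨c, e, hce, rfl⟩ := mem_pts.1 hp
    change b = c ++ e at hce
    have h1 := abs_le.1 (bl3_pt hr h (a := a ++ c) (b := e) (by rw [hce, List.append_assoc]) k)
    have h2 := abs_le.1 (bl3_pt hr h (a := a) (b := b) rfl k)
    rw [D_append, Pi.add_apply] at h1
    rw [abs_le]
    constructor <;> linarith [h1.1, h1.2, h2.1, h2.2]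

/-- the bridges contained in the box, obtained from the pieces: turn the exit face to `x₀ = r`
(factor 6: `perm (swap 0 k)`, `refl 0`), cut at the last minimum of the coordinate `0`
(`exists_last_max (- ev 0)`); the first part is a walk, the second part a bridge of height
in `[r, 2 r)` -/
theorem bridges_of_pieces {μ : ℝ} (hμ : 1 ≤ μ) {r l : ℕ} (hr : 1 ≤ r) :
    MM μ⁻¹ r l ≤ 6 * (((l : ℝ) + 1) * Real.exp (FF μ l)) *
      ∑ w ∈ (wle l).filter (fun w => Br w ∧ (r : ℤ) ≤ D w 0 ∧ D w 0 ≤ 2 * r ∧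
        ∀ p ∈ pts w, ∀ k, |p k| ≤ 2 * (r : ℤ)), μ⁻¹ ^ w.length := by
  have hx : 0 ≤ μ⁻¹ := inv_nonneg.2 (by linarith)
  have h1 := bl3_faces hμ (r := r) (l := l)
  have h2 : ∑ w ∈ ((wle l).filter (fun w => saw w ∧ FE r w)).filter (fun w => (r : ℤ) ≤ D w 0),
      μ⁻¹ ^ w.length ≤ TT μ⁻¹ 0 l *
        ∑ w ∈ (wle l).filter (fun w => Br w ∧ (r : ℤ) ≤ D w 0 ∧ D w 0 ≤ 2 * r ∧
          ∀ p ∈ pts w, ∀ k, |p k| ≤ 2 * (r : ℤ)), μ⁻¹ ^ w.length := by
    have hex : ∀ w : Word, ∃ q : Word × Word,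
        w ∈ ((wle l).filter (fun w => saw w ∧ FE r w)).filter (fun w => (r : ℤ) ≤ D w 0) →
        (w = q.1 ++ q.2 ∧ saw q.1 ∧ q.1.length ≤ l ∧
        q.2 ∈ (wle l).filter (fun w => Br w ∧ (r : ℤ) ≤ D w 0 ∧ D w 0 ≤ 2 * r ∧
        ∀ p ∈ pts w, ∀ k, |p k| ≤ 2 * (r : ℤ))) := by
      intro w
      by_cases hw : w ∈ ((wle l).filter (fun w => saw w ∧ FE r w)).filter
          (fun w => (r : ℤ) ≤ D w 0)
      · have hw' := hw
        rw [mem_filter, mem_filter, mem_wle] at hw'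
        obtain ⟨q, hq⟩ := bl3_cut hr hw'.1.1 hw'.1.2.1 hw'.1.2.2 hw'.2
        exact ⟨q, fun _ => hq⟩
      · exact ⟨([], []), fun h => absurd h hw⟩
    choose i hi using hex
    unfold TT
    rw [sum_mul_sum, ← sum_product']
    refine sum_le_of_inj i ?_ ?_ ?_ ?_
    · intro w hw
      obtain ⟨_, e2, e3, e4⟩ := hi w hw
      exact mem_product.2 ⟨mem_filter.2 ⟨mem_wle.2 e3, by rw [e2.rep]⟩, e4⟩
    · intro w hw w' hw' heq
      rw [(hi w hw).1, (hi w' hw').1, heq]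
    · intro w hw
      have e1 := (hi w hw).1
      have e5 : w.length = (i w).1.length + (i w).2.length := by
        rw [← List.length_append, ← e1]
      rw [e5, pow_add]
    · rintro ⟨u, v⟩ _
      exact mul_nonneg (pow_nonneg hx _) (pow_nonneg hx _)
  have h3 := TT_zero_le hμ l
  have h4 : 0 ≤ ∑ w ∈ (wle l).filter (fun w => Br w ∧ (r : ℤ) ≤ D w 0 ∧ D w 0 ≤ 2 * r ∧
          ∀ p ∈ pts w, ∀ k, |p k| ≤ 2 * (r : ℤ)), μ⁻¹ ^ w.length :=
    sum_nonneg fun _ _ => pow_nonneg hx _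
  have h5 := mul_le_mul_of_nonneg_right h3 h4
  calc MM μ⁻¹ r l ≤ 6 * _ := h1
    _ ≤ 6 * (((l : ℝ) + 1) * Real.exp (FF μ l) * _) :=
        mul_le_mul_of_nonneg_left (h2.trans h5) (by norm_num)
    _ = _ := by rw [← mul_assoc]
-- END bl3

-- BEGIN bl4
theorem bl4_mass {μ : ℝ} (hμ : 1 ≤ μ) {N r ν : ℕ} (hr : 1 ≤ r) (hN : 1 ≤ N)
    (hD : Dc μ N r ν) :
    Real.exp (-(Real.log 6 + Real.log ((sl N ν : ℝ) + 1) + 8 * Real.log ((N : ℝ) + 1)
      + 4 * FF μ (sl N ν))) ≤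
      ∑ w ∈ (wle (sl N ν)).filter (fun w => Br w ∧ (r : ℤ) ≤ D w 0 ∧ D w 0 ≤ 2 * r ∧
        ∀ p ∈ pts w, ∀ k, |p k| ≤ 2 * (r : ℤ)), μ⁻¹ ^ w.length := by
  have h1 := bridges_of_pieces hμ (l := sl N ν) hr
  set S := ∑ w ∈ (wle (sl N ν)).filter (fun w => Br w ∧ (r : ℤ) ≤ D w 0 ∧ D w 0 ≤ 2 * r ∧
        ∀ p ∈ pts w, ∀ k, |p k| ≤ 2 * (r : ℤ)), μ⁻¹ ^ w.length with hS
  unfold Dc at hD
  have hN0 : (0 : ℝ) < (N : ℝ) + 1 := by positivity
  have hl0 : (0 : ℝ) < (sl N ν : ℝ) + 1 := by positivity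
  have hc : 0 ≤ ((N : ℝ) + 1) ^ 8 * Real.exp (3 * FF μ (sl N ν)) := by positivity
  have h2 := hD.trans (mul_le_mul_of_nonneg_right h1 hc)
  have e6 : Real.exp (Real.log 6) = 6 := Real.exp_log (by norm_num)
  have el : Real.exp (Real.log ((sl N ν : ℝ) + 1)) = (sl N ν : ℝ) + 1 := Real.exp_log hl0
  have eN : Real.exp (8 * Real.log ((N : ℝ) + 1)) = ((N : ℝ) + 1) ^ 8 := by
    have h := Real.exp_nat_mul (Real.log ((N : ℝ) + 1)) 8
    rw [Real.exp_log hN0] at h
    exact_mod_cast h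
  have e4 : Real.exp (4 * FF μ (sl N ν)) = Real.exp (FF μ (sl N ν)) * Real.exp (3 * FF μ (sl N ν)) := by
    rw [← Real.exp_add]
    congr 1
    ring
  rw [Real.exp_neg, inv_le_iff_one_le_mul₀ (Real.exp_pos _), Real.exp_add, Real.exp_add,
    Real.exp_add, e6, el, eN, e4]
  refine h2.trans (le_of_eq ?_)
  ring

/-- **Recursion blocks.** `bridges_of_pieces`, `pigeon`, `straighten`; the height `v 0` is in
`[r, 2 r]`, so `h = 2 v 0` is in `[2 r, 4 r]`. -/
theorem blk_rec {μ : ℝ} (hμ : 1 ≤ μ) {N r ν : ℕ} (hr : 1 ≤ r) (hν : 1 ≤ ν) (hN : 1 ≤ N)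
    (hD : Dc μ N r ν) : ∃ h B, Blk μ⁻¹ N r h (2 * sl N ν)
      (8 * FF μ (sl N ν) + 40 * Real.log (3 * N + 3)) B := by
  have hm := bl4_mass hμ hr hN hD
  set l := sl N ν with hl
  set E := Real.log 6 + Real.log ((l : ℝ) + 1) + 8 * Real.log ((N : ℝ) + 1) + 4 * FF μ l with hE
  set S := (wle l).filter (fun w => Br w ∧ (r : ℤ) ≤ D w 0 ∧ D w 0 ≤ 2 * r ∧
        ∀ p ∈ pts w, ∀ k, |p k| ≤ 2 * (r : ℤ)) with hS
  have hSm : ∀ w ∈ S, w.length ≤ l ∧ Br w ∧ (r : ℤ) ≤ D w 0 ∧ D w 0 ≤ 2 * r ∧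
        ∀ p ∈ pts w, ∀ k, |p k| ≤ 2 * (r : ℤ) := by
    intro w hw
    rw [hS, mem_filter, mem_wle] at hw
    exact hw
  obtain ⟨v, F, hFS, hFv, hF⟩ := pigeon (fun w hw => (hSm w hw).1) hm
  have hne : F.Nonempty := by
    by_contra h
    rw [not_nonempty_iff_eq_empty] at h
    rw [h, sum_empty] at hF
    exact absurd hF (not_le.2 (Real.exp_pos _))
  obtain ⟨w0, hw0⟩ := hne
  obtain ⟨_, _, hv1, hv2, _⟩ := hSm w0 (hFS hw0)
  rw [hFv w0 hw0] at hv1 hv2
  have hμ0 : 0 < μ⁻¹ := by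
    have : 0 < μ := by linarith
    positivity
  obtain ⟨B, hB, hBd⟩ := straighten hμ0 N (F := F) (E := E + 3 * Real.log (2 * (l : ℝ) + 1))
    (v := v) (n := l) (r := 2 * r) (by
      intro w hw
      obtain ⟨q1, q2, _, _, q5⟩ := hSm w (hFS hw)
      refine ⟨q2, hFv w hw, q1, fun p hp k => ?_⟩
      have := q5 p hp k
      push_cast
      exact this) hF
  have hv0 : ((2 * (v 0).toNat : ℕ) : ℤ) = 2 * v 0 := by
    have : (0 : ℤ) ≤ v 0 := by omega
    push_cast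
    rw [Int.toNat_of_nonneg this]
  refine ⟨2 * (v 0).toNat, B, ?_, ?_, ?_, ?_, ?_, ?_, ?_⟩
  · exact fun i => (hB i).1
  · intro i
    rw [(hB i).2.1, hv0]
  · exact fun i => (hB i).2.2.1
  · intro i p hp k
    have h1 := (hB i).2.2.2 p hp k
    push_cast at h1
    have : (0 : ℤ) ≤ r := Int.natCast_nonneg r
    linarith
  · refine hBd.mono hμ0.le (Real.exp_le_exp.2 ?_)
    have hN1 : (1 : ℝ) ≤ N := by exact_mod_cast hN
    have hlN : (l : ℝ) ≤ 2 * N + 1 := by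
      have : l ≤ 2 * N + 1 := by
        rw [hl]
        unfold sl
        have := Nat.div_le_self (2 * N) ν
        omega
      exact_mod_cast this
    set T := Real.log (3 * (N : ℝ) + 3) with hT
    have hT0 : 0 ≤ T := Real.log_nonneg (by linarith)
    have h6 : Real.log 6 ≤ T := Real.log_le_log (by norm_num) (by linarith)
    have hl0 : (0 : ℝ) ≤ l := Nat.cast_nonneg _
    have h7 : Real.log ((l : ℝ) + 1) ≤ T := Real.log_le_log (by positivity) (by linarith)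
    have h8 : Real.log ((N : ℝ) + 1) ≤ T := Real.log_le_log (by positivity) (by linarith)
    have h9 : Real.log (2 * (l : ℝ) + 1) ≤ 2 * T := by
      have e : 2 * T = Real.log ((3 * (N : ℝ) + 3) ^ 2) := by
        rw [Real.log_pow, hT]
        norm_num
      rw [e]
      refine Real.log_le_log (by positivity) ?_
      nlinarith
    rw [hE]
    linarith
  · have : (r : ℤ) ≤ v 0 := hv1
    omega
  · have : v 0 ≤ 2 * (r : ℤ) := hv2
    omega
-- END bl4

-- BEGIN bl5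
theorem bl5_pts {w : Word} {n : ℕ} (hw : w.length ≤ n) : ∀ p ∈ pts w, ∀ k, |p k| ≤ (n : ℤ) := by
  intro p hp k
  obtain ⟨a, b, hab, rfl⟩ := mem_pts.1 hp
  refine (abs_D_le a k).trans ?_
  have h1 : a.length ≤ n := by
    have h2 : w.length = a.length + b.length := by rw [hab, List.length_append]
    omega
  exact_mod_cast h1

theorem bl5_ax_add (s t : ℤ) : ax 0 s + ax 0 t = ax 0 (s + t) := by
  unfold ax
  rw [← Pi.single_add]

theorem bl5_ax_nsmul (q : ℕ) (t : ℤ) : q • ax 0 t = ax 0 (q * t) := by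
  induction q with
  | zero => simp [ax]
  | succ q ih =>
    rw [succ_nsmul, ih, bl5_ax_add]
    congr 1
    push_cast
    ring

theorem bl5_ax_ne {k : Fin 3} (hk : k ≠ 0) (t : ℤ) : ax 0 t k = 0 := by
  unfold ax
  simp [hk]

/-- the points of a power of a straight law, in the lateral directions -/
theorem bl5_lat (P : Law) {t : ℤ} {r : ℤ} (h : ∀ i, D (P.f i) = ax 0 t ∧
    ∀ p ∈ pts (P.f i), ∀ k, |p k| ≤ r) (hr : 0 ≤ r) (j : ℕ) :
    ∀ i, ∀ p ∈ pts ((P.pow j).f i), ∀ k : Fin 3, k ≠ 0 → |p k| ≤ r := by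
  induction j with
  | zero =>
    intro i p hp k _
    have h1 : ((P.pow 0).f i) = [] := rfl
    rw [h1] at hp
    obtain ⟨a, b, hab, rfl⟩ := mem_pts.1 hp
    have h2 : a = [] := by
      have := (List.append_eq_nil_iff.1 hab.symm).1
      exact this
    rw [h2, D_nil]
    simpa using hr
  | succ j ih =>
    rintro ⟨i, i'⟩ p hp k hk
    change p ∈ pts (P.f i ++ (P.pow j).f i') at hp
    rw [pts_append, mem_union, mem_tr] at hp
    rcases hp with hp | hp
    · exact (h i).2 p hp k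
    · have h1 := ih i' _ hp k hk
      rw [(h i).1, Pi.sub_apply, bl5_ax_ne hk, sub_zero] at h1
      exact h1

/-- `Zt` is large at the scale `m ^ i` -/
theorem bl5_wh {μ : ℝ} (hμ : 1 ≤ μ) (hb : ∀ n, ((brs n).card : ℝ) ≤ μ ^ n) {d g m i : ℕ}
    (hgd : 2 * g ≤ d) (hm : 3 ≤ m) (hbad : Bad μ d g m) (hi : d - 2 * g + 2 ≤ i)
    (hie : i ≤ d - g + 1) : 1 ≤ Wh μ⁻¹ (m ^ i) (m ^ (i - (d - 2 * g + 2))) := by
  have h1 := V_mul hμ hb (m ^ (d - g + 1 - i)) (m ^ i)
  rw [← pow_add] at h1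
  have e1 : d - g + 1 - i + i = d - g + 1 := by omega
  rw [e1, V_eq, V_eq] at h1
  unfold Bad at hbad
  have hm' : (3 : ℝ) ≤ m := by exact_mod_cast hm
  have hm1 : (1 : ℝ) ≤ m := by linarith
  have h2 := source_one hμ hb (m ^ i) (m ^ (i - (d - 2 * g + 2)))
  push_cast at h1 h2 ⊢
  set k : ℝ := (m : ℝ) ^ (d - g + 1 - i) with hk
  set t : ℝ := (m : ℝ) ^ (i - (d - 2 * g + 2)) with ht
  have hk1 : 1 ≤ k := one_le_pow₀ hm1
  have ht1 : 1 ≤ t := one_le_pow₀ hm1
  have e2 : (m : ℝ) ^ g = k * (t * m) := by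
    rw [hk, ht, ← pow_succ, ← pow_add]
    congr 1
    omega
  rw [e2] at hbad
  have h3 : k * (t * m) < k * (1 + Zt μ⁻¹ (m ^ i)) := by linarith
  have h4 : t * m < 1 + Zt μ⁻¹ (m ^ i) := lt_of_mul_lt_mul_left h3 (by linarith)
  have h5 : t * 3 ≤ t * m := mul_le_mul_of_nonneg_left hm' (by linarith)
  linarith

/-- **Zero blocks**, of all scales `m ^ i`, `i ≤ d - g + 1`, in the bad case. Put
`b = d - 2 g + 2`. For `i < b` the straight block. For `i ≥ b`: `V_mul` with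
`k = m ^ (d - g + 1 - i)`, `n = m ^ i` gives `Zt (m ^ i) + 1 > m ^ (i - b + 1)`, `source_one` with
`t = m ^ (i - b)` and `pigeon` give bridges of length at most `m ^ i` with a common displacement
`v`, `v 0 > m ^ (i - b)`, of weight at least `exp (- 3 log (2 m ^ i + 1))`; `straighten` and then
the power `⌈m ^ i / (2 v 0)⌉ ≤ m ^ b` (`Law.pow`, `Dom.pow`); all points within `3 m ^ i + …`. -/
theorem blk_zero {μ : ℝ} (hμ : 1 ≤ μ) (hb : ∀ n, ((brs n).card : ℝ) ≤ μ ^ n) {d g : ℕ}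
    (hg : 1 ≤ g) (hgd : 2 * g ≤ d) : ∃ C : ℝ, 0 < C ∧ ∀ᶠ m : ℕ in atTop, Bad μ d g m →
      ∀ i, i ≤ d - g + 1 → ∃ h l J B, Blk μ⁻¹ (m ^ d) (m ^ i) h l J B ∧
        J ≤ C * (m : ℝ) ^ (d - 2 * g + 3) ∧ l ≤ 4 * m ^ (i + (d - 2 * g + 2)) := by
  have hx : (0 : ℝ) < μ⁻¹ := by positivity
  have hlogμ : 0 ≤ Real.log μ := Real.log_nonneg hμ
  refine ⟨Real.log μ + 8 * d + 20, by positivity, ?_⟩
  filter_upwards [eventually_ge_atTop 3] with m hm hbad i hi
  have hm1 : 1 ≤ m := by omega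
  have hmR : (3 : ℝ) ≤ m := by exact_mod_cast hm
  have hmR1 : (1 : ℝ) ≤ m := by linarith
  have hmi : 1 ≤ m ^ i := Nat.one_le_pow _ _ (by omega)
  by_cases hib : i < d - 2 * g + 2
  · obtain ⟨B, hB⟩ := blk_straight hx (m ^ d) hmi
    refine ⟨_, _, _, B, hB, ?_, ?_⟩
    · rw [inv_inv]
      have h1 : ((m ^ i : ℕ) : ℝ) ≤ (m : ℝ) ^ (d - 2 * g + 3) := by
        push_cast
        exact pow_le_pow_right₀ hmR1 (by omega)
      have h2 : (0 : ℝ) ≤ (m : ℝ) ^ (d - 2 * g + 3) := by positivity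
      calc ((m ^ i : ℕ) : ℝ) * Real.log μ ≤ (m : ℝ) ^ (d - 2 * g + 3) * Real.log μ :=
            mul_le_mul_of_nonneg_right h1 hlogμ
        _ ≤ (m : ℝ) ^ (d - 2 * g + 3) * (Real.log μ + 8 * d + 20) :=
            mul_le_mul_of_nonneg_left (by
              have : (0 : ℝ) ≤ (d : ℝ) := Nat.cast_nonneg d
              linarith) h2
        _ = _ := by ring
    · calc m ^ i ≤ m ^ (i + (d - 2 * g + 2)) := Nat.pow_le_pow_right hm1 (by omega)
        _ ≤ _ := by omega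
  push Not at hib
  have hW := bl5_wh hμ hb hgd hm hbad hib hi
  set b := d - 2 * g + 2 with hbdef
  obtain ⟨v, F, hF1, hF2, hF3⟩ := pigeon (x := μ⁻¹)
    (S := (wle (m ^ i)).filter (fun w => Br w ∧ ((m ^ (i - b) : ℕ) : ℤ) < D w 0)) (n := m ^ i)
    (E := 0) (fun w hw => mem_wle.1 (mem_filter.1 hw).1) (by
      rw [neg_zero, Real.exp_zero]
      exact hW)
  have hFne : F.Nonempty := by
    by_contra h
    rw [not_nonempty_iff_eq_empty] at h
    rw [h, sum_empty] at hF3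
    exact absurd hF3 (not_le.2 (Real.exp_pos _))
  obtain ⟨w₀, hw₀⟩ := hFne
  have hv1 : ((m ^ (i - b) : ℕ) : ℤ) < v 0 := by
    have h1 := (mem_filter.1 (hF1 hw₀)).2.2
    rwa [hF2 w₀ hw₀] at h1
  have hv2 : v 0 ≤ ((m ^ i : ℕ) : ℤ) := by
    have h1 := mem_wle.1 (mem_filter.1 (hF1 hw₀)).1
    have h2 := bl5_pts h1 _ (D_mem_pts w₀) 0
    rw [hF2 w₀ hw₀] at h2
    exact (le_abs_self _).trans h2
  obtain ⟨u, hu⟩ : ∃ u : ℕ, (u : ℤ) = v 0 := ⟨(v 0).toNat, Int.toNat_of_nonneg (by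
    have h1 : (0 : ℤ) ≤ ((m ^ (i - b) : ℕ) : ℤ) := Int.natCast_nonneg _
    omega)⟩
  have hu1 : m ^ (i - b) < u := by
    have h1 := hv1
    rw [← hu] at h1
    exact_mod_cast h1
  have hu2 : u ≤ m ^ i := by
    have h1 := hv2
    rw [← hu] at h1
    exact_mod_cast h1
  obtain ⟨B, hB1, hB2⟩ := straighten hx (m ^ d) (F := F)
    (E := 0 + 3 * Real.log (2 * ((m ^ i : ℕ) : ℝ) + 1)) (v := v) (n := m ^ i) (r := m ^ i)
    (fun w hw => ⟨(mem_filter.1 (hF1 hw)).2.1, hF2 w hw, mem_wle.1 (mem_filter.1 (hF1 hw)).1,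
      bl5_pts (mem_wle.1 (mem_filter.1 (hF1 hw)).1)⟩) hF3
  set E : ℝ := 0 + 3 * Real.log (2 * ((m ^ i : ℕ) : ℝ) + 1) with hE
  -- the number of repetitions
  set q : ℕ := (m ^ i + 2 * u - 1) / (2 * u) with hq
  have hu0 : 0 < u := by omega
  have hq1 : q * (2 * u) ≤ m ^ i + 2 * u - 1 := Nat.div_mul_le_self _ _
  have hq2 : m ^ i ≤ q * (2 * u) := by
    have h1 := Nat.lt_div_mul_add (a := m ^ i + 2 * u - 1) (b := 2 * u) (by omega)
    rw [← hq] at h1
    omega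
  have hq3 : q ≤ m ^ b := by
    by_contra hcon
    push Not at hcon
    have h1 : (m ^ b + 1) * (2 * u) ≤ q * (2 * u) := Nat.mul_le_mul_right _ hcon
    have h2 : m ^ b * m ^ (i - b) = m ^ i := by
      rw [← pow_add]
      congr 1
      omega
    have h3 : m ^ b * m ^ (i - b) ≤ m ^ b * u := Nat.mul_le_mul_left _ hu1.le
    have h4 : (m ^ b + 1) * (2 * u) = 2 * (m ^ b * u) + 2 * u := by ring
    omega
  refine ⟨q * (2 * u), q * (2 * m ^ i), q * (2 * E + 2 * Real.log (((m ^ d : ℕ) : ℝ) + 1)),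
    B.pow q, ?_, ?_, ?_⟩
  · have hsupp := B.pow_supp (v := ax 0 (2 * v 0)) (n := 2 * m ^ i)
      (fun i => ⟨(hB1 i).1, (hB1 i).2.1, (hB1 i).2.2.1⟩) q
    have hdisp : ∀ i, D ((B.pow q).f i) = ax 0 ((q * (2 * u) : ℕ) : ℤ) := by
      intro i
      rw [(hsupp i).2.1, bl5_ax_nsmul, ← hu]
      congr 1
    refine ⟨fun i => (hsupp i).1, hdisp, fun i => (hsupp i).2.2, ?_, ?_, hq2, by omega⟩
    · intro j p hp k
      by_cases hk : k = 0
      · subst hk
        obtain ⟨h1, h2⟩ := Br.pts_range (hsupp j).1 hp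
        rw [hdisp j] at h2
        have h3 : ax 0 ((q * (2 * u) : ℕ) : ℤ) 0 = ((q * (2 * u) : ℕ) : ℤ) := by
          unfold ax
          exact Pi.single_eq_same _ _
        rw [h3] at h2
        rw [abs_of_nonneg h1]
        refine h2.trans ?_
        have h4 : q * (2 * u) ≤ 8 * m ^ i := by omega
        exact_mod_cast h4
      · have h1 := bl5_lat B (t := 2 * v 0) (r := 2 * ((m ^ i : ℕ) : ℤ))
          (fun i => ⟨(hB1 i).2.1, (hB1 i).2.2.2⟩) (by positivity) q j p hp k hk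
        refine h1.trans ?_
        have h2 : (0 : ℤ) ≤ ((m ^ i : ℕ) : ℤ) := Int.natCast_nonneg _
        linarith
    · have h1 := Dom.pow hx (Real.exp_pos _).le hB2 q
      have h2 : (Real.exp (2 * E + Real.log (((m ^ d : ℕ) : ℝ) + 1)) * (((m ^ d : ℕ) : ℝ) + 1)) ^ q
          = Real.exp (q * (2 * E + 2 * Real.log (((m ^ d : ℕ) : ℝ) + 1))) := by
        have h3 : (0 : ℝ) < ((m ^ d : ℕ) : ℝ) + 1 := by positivity
        nth_rewrite 2 [← Real.exp_log h3]
        rw [← Real.exp_add, ← Real.exp_nat_mul]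
        congr 1
        ring
      rw [h2] at h1
      exact h1
  · -- the cost
    have hE1 : E ≤ 3 * ((d + 3) * m) := by
      rw [hE, zero_add]
      have h1 : Real.log (2 * ((m ^ i : ℕ) : ℝ) + 1) ≤ Real.log (((m ^ (i + 1) : ℕ) : ℝ) + 1) := by
        refine Real.log_le_log (by positivity) ?_
        have h2 : 2 * m ^ i ≤ m ^ (i + 1) := by
          rw [pow_succ, mul_comm]
          exact Nat.mul_le_mul_left _ (by omega)
        have h3 : ((2 * m ^ i : ℕ) : ℝ) ≤ ((m ^ (i + 1) : ℕ) : ℝ) := by exact_mod_cast h2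
        push_cast at h3 ⊢
        linarith
      have h4 := log_succ_le (m := m) (d := i + 1) (by omega)
      have h5 : (((i + 1 : ℕ) : ℝ) + 1) * m ≤ (d + 3) * m := by
        refine mul_le_mul_of_nonneg_right ?_ (by linarith)
        have h6 : i + 1 + 1 ≤ d + 3 := by omega
        exact_mod_cast h6
      linarith
    have hL1 := log_succ_le (m := m) (d := d) (by omega)
    have hE0 : 0 ≤ E := by
      rw [hE, zero_add]
      have : 0 ≤ Real.log (2 * ((m ^ i : ℕ) : ℝ) + 1) := by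
        refine Real.log_nonneg ?_
        have : (0 : ℝ) ≤ ((m ^ i : ℕ) : ℝ) := Nat.cast_nonneg _
        linarith
      linarith
    have hd0 : (0 : ℝ) ≤ (d : ℝ) := Nat.cast_nonneg d
    have hqR : (q : ℝ) ≤ (m : ℝ) ^ b := by exact_mod_cast hq3
    have h7 : 2 * E + 2 * Real.log (((m ^ d : ℕ) : ℝ) + 1) ≤ (8 * d + 20) * m := by
      have h8 : (8 * (d : ℝ) + 20) * m = 2 * (3 * ((d + 3) * m)) + 2 * ((d + 1) * m) := by ring
      rw [h8]
      linarith
    calc (q : ℝ) * (2 * E + 2 * Real.log (((m ^ d : ℕ) : ℝ) + 1))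
        ≤ (q : ℝ) * ((8 * d + 20) * m) := mul_le_mul_of_nonneg_left h7 (Nat.cast_nonneg _)
      _ ≤ (m : ℝ) ^ b * ((8 * d + 20) * m) := mul_le_mul_of_nonneg_right hqR (by positivity)
      _ = (8 * d + 20) * (m : ℝ) ^ (b + 1) := by rw [pow_succ]; ring
      _ ≤ (Real.log μ + 8 * d + 20) * (m : ℝ) ^ (b + 1) :=
          mul_le_mul_of_nonneg_right (by linarith) (by positivity)
      _ = _ := by
          congr 2
  · -- the length
    calc q * (2 * m ^ i) ≤ m ^ b * (2 * m ^ i) := Nat.mul_le_mul_right _ hq3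
      _ = 2 * m ^ (i + b) := by rw [pow_add]; ring
      _ ≤ _ := by omega
-- END bl5

end Pool.Agent.MP_794e6e_ex
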