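import Pool.Agent.MP_794e6e_ex.Num
import Pool.Agent.MP_794e6e_ex.JoinEx
import Pool.Agent.MP_794e6e_pr.Main

/-! ROW A9. The recursion and the conclusion. -/

namespace Pool.Agent.MP_794e6e_ex
set_option maxHeartbeats 1000000

open Finset Filter
open scoped Classical
open Pool.Agent.MP_794e6e_pr

-- BEGIN fi1
theorem fi1_saw_reverse {w : Word} (h : saw w) : saw w.reverse := by
  have h1 : saw (w.map ineg.g) := saw.map ineg h
  have h2 := saw.rv h1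
  have h3 : rv (w.map ineg.g) = w.reverse := by
    unfold rv
    rw [List.map_map]
    have : (ineg.g ∘ ineg.g) = fun s : Step => s := by
      funext s
      obtain ⟨a, b⟩ := s
      simp [ineg]
    rw [this]
    simp
  rwa [h3] at h2

theorem fi1_card_reverse (k : ℕ) (P : Word → Prop) :
    ((walks k).filter (fun B => P B.reverse)).card = ((walks k).filter P).card := by
  refine card_bij (fun w _ => w.reverse) ?_ ?_ ?_
  · intro w hw
    rw [mem_filter, mem_walks] at hw ⊢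
    exact ⟨⟨by rw [List.length_reverse]; exact hw.1.1, fi1_saw_reverse hw.1.2⟩, hw.2⟩
  · intro a _ b _ hab
    exact List.reverse_injective hab
  · intro w hw
    rw [mem_filter, mem_walks] at hw
    refine ⟨w.reverse, ?_, List.reverse_reverse w⟩
    rw [mem_filter, mem_walks]
    exact ⟨⟨by rw [List.length_reverse]; exact hw.1.1, fi1_saw_reverse hw.1.2⟩,
      by rw [List.reverse_reverse]; exact hw.2⟩

theorem fi1_log_prod {c A B F : ℝ} {h : ℕ} (hc : 0 < c) (hA : 0 < A) (hB : 0 < B) :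
    Real.log (c * (A ^ h * (B * Real.exp F)))
      = Real.log c + (h * Real.log A + (Real.log B + F)) := log_prod hc hA hB

/-- **The recursive inequality in the bad case.** For `k ≤ m ^ d` let `G` be the good walks of
length `k` and `H` the walks whose reverse is good (`card_good`: both are at least `3 / 4` of all;
`saw` of the reverse: `saw.rv`, `saw.map`). `joint` with `L = m ^ d`, `T = m ^ d / 4`,
`M = exp (C m ^ (g + 1))`, `R (K - 1) = R (K - 2) = R (K - 3) = m ^ (X0 d g)`; `join_pairs`;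
then the end of the proof of `MP_794e6e_pr.bad_case` (`TT_le`, `TT_zero_le`, `log_prod`). -/
theorem bad_case' {μ : ℝ} (hμ : 1 ≤ μ) (hb : ∀ n, ((brs n).card : ℝ) ≤ μ ^ n)
    (hc : ∀ n, μ ^ n ≤ (walks n).card) {s : ℝ} {t d g : ℕ} (hp : Par s t d g) {Bs : ℝ}
    (hBs : 0 ≤ Bs) (H : ∀ k : ℕ, 1 ≤ k → FF μ k ≤ Bs * (k : ℝ) ^ s) :
    ∃ C : ℝ, 0 ≤ C ∧ ∀ᶠ m : ℕ in atTop, Bad μ d g m →
      2 * FF μ (m ^ d) ≤ FF μ (3 * m ^ d) + C * (m : ℝ) ^ (g + 1) := by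
  have hμ0 : 0 < μ := by linarith
  have hlμ : 0 ≤ Real.log μ := Real.log_nonneg hμ
  obtain ⟨C1, hC1', hC⟩ := good_exits hμ hb hp hBs H
  obtain ⟨p1, p2, p3, p4, p5⟩ := hp.arith
  have q1 := hp.h1
  have q2 := hp.h2
  set C6 := 2 * C1 + 48 with hC6
  have hC6' : 0 < C6 := by positivity
  set C7 := 8 + 4 * d + 2 * Real.log μ with hC7
  have hC7' : 0 < C7 := by positivity
  set C8 := 2 + 2 * C1 + (d + 1) with hC8
  have hC8' : 0 < C8 := by positivity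
  refine ⟨C8 + 2 * C6 * C7 + 2 * (d + 1), by positivity, ?_⟩
  filter_upwards [hC, eventually_ge_atTop 6] with m hm hm6 hbad
  have hm' := hm hbad
  have hm1 : (1 : ℝ) ≤ m := by
    have : 1 ≤ m := by omega
    exact_mod_cast this
  have hm6' : (6 : ℝ) ≤ m := by exact_mod_cast hm6
  have hm0 : (0 : ℝ) < m := by linarith
  have hls := log_succ_le (m := m) (d := d) (by omega)
  have hgm1 : (m : ℝ) ≤ (m : ℝ) ^ (g + 1) := by
    calc (m : ℝ) = (m : ℝ) ^ 1 := (pow_one _).symm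
      _ ≤ (m : ℝ) ^ (g + 1) := pow_le_pow_right₀ hm1 (by omega)
  -- choice of the number of repetitions
  set hh' := ⌊2 * (C6 * (m : ℝ) ^ g)⌋₊ with hhh
  have hfl : (hh' : ℝ) ≤ 2 * (C6 * (m : ℝ) ^ g) := Nat.floor_le (by positivity)
  have hfl2 : 2 * (C6 * (m : ℝ) ^ g) ≤ hh' + 1 := (Nat.lt_floor_add_one _).le
  have hlogQ : Real.log (1 + (((3 * m ^ d : ℕ) : ℝ) + 1) ^ 4 * μ ^ 2) ≤ C7 * m := by
    have h1 : (1 : ℝ) ≤ (m : ℝ) ^ d := one_le_pow₀ hm1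
    have h2 : ((3 * m ^ d : ℕ) : ℝ) + 1 ≤ 4 * (m : ℝ) ^ d := by push_cast; linarith
    have h3 : (((3 * m ^ d : ℕ) : ℝ) + 1) ^ 4 ≤ (4 * (m : ℝ) ^ d) ^ 4 :=
      pow_le_pow_left₀ (by positivity) h2 4
    have h4 : 1 ≤ (4 * (m : ℝ) ^ d) ^ 4 * μ ^ 2 := by
      have h5 : 1 ≤ (4 * (m : ℝ) ^ d) ^ 4 := one_le_pow₀ (by linarith)
      have h6 : 1 ≤ μ ^ 2 := one_le_pow₀ hμ
      nlinarith
    have h5 : 1 + (((3 * m ^ d : ℕ) : ℝ) + 1) ^ 4 * μ ^ 2
        ≤ 2 * ((4 * (m : ℝ) ^ d) ^ 4 * μ ^ 2) := by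
      have := mul_le_mul_of_nonneg_right h3 (by positivity : (0 : ℝ) ≤ μ ^ 2)
      linarith
    refine (Real.log_le_log (by positivity) h5).trans ?_
    rw [Real.log_mul (by norm_num) (by positivity), Real.log_mul (by positivity) (by positivity),
      Real.log_pow, Real.log_pow, Real.log_mul (by norm_num) (by positivity), Real.log_pow]
    have hl2 := Real.log_two_lt_d9
    have hl4 : Real.log 4 = 2 * Real.log 2 := by
      rw [show (4 : ℝ) = 2 ^ 2 by norm_num, Real.log_pow]; norm_num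
    have hlm := log_cast_le (m := m) (by omega)
    have h6 : (d : ℝ) * Real.log m ≤ d * m := mul_le_mul_of_nonneg_left hlm (Nat.cast_nonneg _)
    have h7 : Real.log μ ≤ Real.log μ * m := le_mul_of_one_le_right hlμ hm1
    push_cast
    have e3 : C7 * (m : ℝ) = 8 * m + 4 * (d * m) + 2 * (Real.log μ * m) := by rw [hC7]; ring
    rw [hl4, e3]
    linarith
  have hlogL : Real.log (((3 * m ^ d : ℕ) : ℝ) + 1) ≤ 2 * (d + 1) * (m : ℝ) ^ (g + 1) := by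
    have h1 : (1 : ℝ) ≤ (m : ℝ) ^ d := one_le_pow₀ hm1
    have h2 : ((3 * m ^ d : ℕ) : ℝ) + 1 ≤ (((m ^ d : ℕ) : ℝ) + 1) ^ 2 := by
      push_cast
      nlinarith
    have h3 := Real.log_le_log (by positivity) h2
    rw [Real.log_pow] at h3
    push_cast at h3 hls ⊢
    have h5 : (d + 1 : ℝ) * m ≤ (d + 1) * (m : ℝ) ^ (g + 1) :=
      mul_le_mul_of_nonneg_left hgm1 (by positivity)
    linarith
  -- the parameters of the joint
  set K := KK d g with hK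
  set R : ℕ → ℕ := fun j => m ^ (g + j / 3) with hR
  have hK3 : 3 ≤ K := by rw [hK]; unfold KK; omega
  have hRpos : ∀ j, 1 ≤ R j := fun j => Nat.one_le_pow _ _ (by omega)
  have hdvd : ∀ i, 1 ≤ i → i ≤ 3 → R (K - i) = m ^ X0 d g := by
    intro i h1 h2
    simp only [hR]
    congr 1
    rw [hK]
    unfold KK
    omega
  have hRprod : ((R (K - 1) : ℕ) : ℝ) * (R (K - 2) * R (K - 3)) = (m : ℝ) ^ (3 * X0 d g) := by
    rw [hdvd 1 (by norm_num) (by norm_num), hdvd 2 (by norm_num) (by norm_num),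
      hdvd 3 (by norm_num) (by norm_num)]
    push_cast
    rw [← pow_add, ← pow_add]
    congr 1
    ring
  set M : ℝ := Real.exp (C1 * (m : ℝ) ^ (g + 1)) with hM
  have hM0 : 0 < M := Real.exp_pos _
  set MW : ℝ := M * M * (((m ^ d : ℕ) : ℝ) + 1) with hMW
  have hMW0 : 0 < MW := by positivity
  have hlogMW : Real.log (4 * MW) ≤ C8 * (m : ℝ) ^ (g + 1) := by
    rw [hMW, Real.log_mul (by norm_num) (by positivity),
      Real.log_mul (by positivity) (by positivity), Real.log_mul hM0.ne' hM0.ne', hM, Real.log_exp]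
    have hl4 : Real.log 4 = 2 * Real.log 2 := by
      rw [show (4 : ℝ) = 2 ^ 2 by norm_num, Real.log_pow]; norm_num
    have hl2 := Real.log_two_lt_d9
    have h1 : (1 : ℝ) ≤ (m : ℝ) ^ (g + 1) := one_le_pow₀ hm1
    have h2 : (d + 1 : ℝ) * m ≤ (d + 1) * (m : ℝ) ^ (g + 1) :=
      mul_le_mul_of_nonneg_left hgm1 (by positivity)
    have e3 : C8 * (m : ℝ) ^ (g + 1) = 2 * (m : ℝ) ^ (g + 1) + 2 * (C1 * (m : ℝ) ^ (g + 1))
        + (d + 1) * (m : ℝ) ^ (g + 1) := by rw [hC8]; ring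
    rw [hl4, e3]
    linarith
  set η := ⌊C1 * (m : ℝ) ^ g⌋₊ with hη
  have hη1 : (η : ℝ) ≤ C1 * (m : ℝ) ^ g := Nat.floor_le (by positivity)
  set Rs : Finset ℕ := (range (d + 1)).image fun i => m ^ i with hRs
  have hRs1 : Rs.card ≤ m ^ d := by
    have h1 : Rs.card ≤ d + 1 := by
      rw [hRs]
      exact card_image_le.trans (card_range _).le
    have h2 : d < 2 ^ d := Nat.lt_two_pow_self
    have h3 : 2 ^ d ≤ m ^ d := Nat.pow_le_pow_left (by omega) d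
    omega
  have hRs2 : ∀ r ∈ Rs, 1 ≤ r := by
    intro r hr
    rw [hRs, mem_image] at hr
    obtain ⟨i, _, rfl⟩ := hr
    exact Nat.one_le_pow _ _ (by omega)
  have hN4 : 4 ≤ m ^ d := by
    calc 4 ≤ m ^ 1 := by rw [pow_one]; omega
      _ ≤ m ^ d := Nat.pow_le_pow_right (by omega) (by omega)
  have hexits : ∀ A : Word, A.length ≤ m ^ d → Gd μ (m ^ d) Rs A →
      ∃ G ⊆ Om K R, (Om K R).card ≤ 4 * G.card ∧
        ∀ ω ∈ G, ∃ Z : Law, (∀ i, Gw (bk A) ω K (Z.f i)) ∧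
          (∀ i, (Z.f i).length ≤ m ^ d / 4) ∧
          (∀ i, (pts (Z.f i) ∩ bk A).card ≤ η) ∧ Dom μ⁻¹ (m ^ d) Z M := by
    intro A hA hG
    obtain ⟨G, g1, g2, g3⟩ := hm' A hA hG
    refine ⟨G, g1, g2, fun ω hω => ?_⟩
    obtain ⟨Z, z1, z2, z3, z4⟩ := g3 ω hω
    refine ⟨Z, z1, z2, fun i => ?_, z4⟩
    exact Nat.le_floor (z3 i)
  have hnum : 2 * (η : ℝ) + 12 * (((m ^ d : ℕ) : ℝ) + 1) ^ 2 /
      (((R (K - 1) : ℕ) : ℝ) * (R (K - 2) * R (K - 3))) ≤ C6 * (m : ℝ) ^ g := by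
    rw [hRprod]
    have h1 : ((m ^ d : ℕ) : ℝ) + 1 ≤ 2 * (m : ℝ) ^ d := by
      push_cast
      have : 1 ≤ (m : ℝ) ^ d := one_le_pow₀ hm1
      linarith
    have h2 : (((m ^ d : ℕ) : ℝ) + 1) ^ 2 ≤ 4 * (m : ℝ) ^ (2 * d) := by
      calc (((m ^ d : ℕ) : ℝ) + 1) ^ 2 ≤ (2 * (m : ℝ) ^ d) ^ 2 :=
            pow_le_pow_left₀ (by positivity) h1 2
        _ = _ := by rw [mul_pow, ← pow_mul, mul_comm d 2]; norm_num
    have h3 : 12 * (((m ^ d : ℕ) : ℝ) + 1) ^ 2 / (m : ℝ) ^ (3 * X0 d g) ≤ 48 * (m : ℝ) ^ g := by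
      rw [div_le_iff₀ (by positivity), mul_assoc, ← pow_add]
      have h4 : (m : ℝ) ^ (2 * d) ≤ (m : ℝ) ^ (g + 3 * X0 d g) := pow_le_pow_right₀ hm1 p2
      linarith
    have e3 : C6 * (m : ℝ) ^ g = 2 * (C1 * (m : ℝ) ^ g) + 48 * (m : ℝ) ^ g := by rw [hC6]; ring
    rw [e3]
    linarith
  -- conclusion
  have hmain : ∀ k ≤ m ^ d, 2 * Real.log (((walks k).card : ℝ) * μ⁻¹ ^ k)
      ≤ FF μ (3 * m ^ d) + (C8 + 2 * C6 * C7 + 2 * (d + 1)) * (m : ℝ) ^ (g + 1) := by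
    intro k hk
    set GG := (walks k).filter (Gd μ (m ^ d) Rs) with hGG
    set HH := (walks k).filter (fun B => Gd μ (m ^ d) Rs B.reverse) with hHH
    have hcardH : HH.card = GG.card := fi1_card_reverse k (Gd μ (m ^ d) Rs)
    have hgood := card_good hμ hc hN4 hk hRs1 hRs2
    rw [← hGG] at hgood
    have h2 : ((GG.card : ℝ) * μ⁻¹ ^ k) * ((HH.card : ℝ) * μ⁻¹ ^ k)
        ≤ 2 * MW * TT μ⁻¹ hh' (2 * k + m ^ d) := by
      refine join_pairs (by positivity : 0 < μ⁻¹) (filter_subset _ _) (filter_subset _ _)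
        hMW0.le ?_
      intro A hA B hB
      rw [mem_filter] at hA
      rw [mem_filter] at hB
      have lA : A.length ≤ m ^ d := by rw [(mem_walks.1 hA.1).1]; exact hk
      have lB : B.reverse.length ≤ m ^ d := by
        rw [List.length_reverse, (mem_walks.1 hB.1).1]; exact hk
      obtain ⟨G₁, a1, a2, a3⟩ := hexits A lA hA.2
      obtain ⟨G₂, b1, b2, b3⟩ := hexits B.reverse lB hB.2
      obtain ⟨W, w1, w2, w3⟩ := joint (by positivity : 0 < μ⁻¹) hRpos hK3 hA.1 hB.1 a1 b1 a2 b2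
        hM0.le a3 b3 hk (Nat.div_le_self _ _)
      refine ⟨W, fun i => (w1 i).trans (by omega), w2, w3.trans ?_⟩
      have h3 : 2 * (η : ℝ) + 12 * (((m ^ d : ℕ) : ℝ) + 1) ^ 2 /
        (((R (K - 1) : ℕ) : ℝ) * (R (K - 2) * R (K - 3))) ≤ ((hh' : ℝ) + 1) / 2 := by
        refine hnum.trans ?_
        rw [le_div_iff₀ (by norm_num)]
        linarith
      exact h3
    have h3 := TT_le hμ hb hh' (2 * k + m ^ d)
    have h4 := TT_zero_le hμ (2 * k + m ^ d)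
    have hle : 2 * k + m ^ d ≤ 3 * m ^ d := by omega
    have h5 : TT μ⁻¹ hh' (2 * k + m ^ d) ≤ (1 + (((3 * m ^ d : ℕ) : ℝ) + 1) ^ 4 * μ ^ 2) ^ hh'
        * ((((3 * m ^ d : ℕ) : ℝ) + 1) * Real.exp (FF μ (3 * m ^ d))) := by
      have hle' : ((2 * k + m ^ d : ℕ) : ℝ) ≤ ((3 * m ^ d : ℕ) : ℝ) := by exact_mod_cast hle
      refine h3.trans (mul_le_mul ?_ (h4.trans ?_) (TT_nonneg (by positivity) _ _) (by positivity))
      · refine pow_le_pow_left₀ (by positivity) ?_ _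
        have h6 : (((2 * k + m ^ d : ℕ) : ℝ) + 1) ^ 4 ≤ (((3 * m ^ d : ℕ) : ℝ) + 1) ^ 4 :=
          pow_le_pow_left₀ (by positivity) (by linarith) 4
        have := mul_le_mul_of_nonneg_right h6 (by positivity : (0 : ℝ) ≤ μ ^ 2)
        linarith
      · exact mul_le_mul (by linarith) (Real.exp_le_exp.2 (FF_mono μ hle)) (Real.exp_pos _).le
          (by positivity)
    have hpos := term_pos hμ k
    have hsq : (((walks k).card : ℝ) * μ⁻¹ ^ k) ^ 2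
        ≤ 2 * (((GG.card : ℝ) * μ⁻¹ ^ k) * ((HH.card : ℝ) * μ⁻¹ ^ k)) := by
      rw [hcardH]
      have hx0 : (0 : ℝ) ≤ μ⁻¹ ^ k := by positivity
      have h6 : ((walks k).card : ℝ) * μ⁻¹ ^ k ≤ 4 / 3 * ((GG.card : ℝ) * μ⁻¹ ^ k) := by
        rw [← mul_assoc]
        exact mul_le_mul_of_nonneg_right hgood hx0
      have h7 : (((walks k).card : ℝ) * μ⁻¹ ^ k) ^ 2 ≤ (4 / 3 * ((GG.card : ℝ) * μ⁻¹ ^ k)) ^ 2 :=
        pow_le_pow_left₀ hpos.le h6 2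
      have h8 : 0 ≤ ((GG.card : ℝ) * μ⁻¹ ^ k) ^ 2 := sq_nonneg _
      nlinarith
    have h6 : (((walks k).card : ℝ) * μ⁻¹ ^ k) ^ 2 ≤ 4 * MW *
        ((1 + (((3 * m ^ d : ℕ) : ℝ) + 1) ^ 4 * μ ^ 2) ^ hh'
        * ((((3 * m ^ d : ℕ) : ℝ) + 1) * Real.exp (FF μ (3 * m ^ d)))) := by
      refine hsq.trans ?_
      have h7 := h2.trans (mul_le_mul_of_nonneg_left h5 (by positivity : 0 ≤ 2 * MW))
      linarith
    have h7 := Real.log_le_log (pow_pos hpos 2) h6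
    have hA : (0 : ℝ) < 1 + (((3 * m ^ d : ℕ) : ℝ) + 1) ^ 4 * μ ^ 2 := by positivity
    have hB : (0 : ℝ) < ((3 * m ^ d : ℕ) : ℝ) + 1 := by positivity
    rw [Real.log_pow, fi1_log_prod (by positivity) hA hB] at h7
    have h8 : (hh' : ℝ) * Real.log (1 + (((3 * m ^ d : ℕ) : ℝ) + 1) ^ 4 * μ ^ 2)
        ≤ 2 * C6 * C7 * (m : ℝ) ^ (g + 1) := by
      calc (hh' : ℝ) * Real.log (1 + (((3 * m ^ d : ℕ) : ℝ) + 1) ^ 4 * μ ^ 2)
          ≤ hh' * (C7 * m) := mul_le_mul_of_nonneg_left hlogQ (Nat.cast_nonneg _)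
        _ ≤ (2 * (C6 * (m : ℝ) ^ g)) * (C7 * m) :=
            mul_le_mul_of_nonneg_right hfl (by positivity)
        _ = _ := by rw [pow_succ]; ring
    push_cast at h7
    push_cast at h8 hlogL ⊢
    have e2 : (C8 + 2 * C6 * C7 + 2 * (d + 1)) * (m : ℝ) ^ (g + 1) = C8 * (m : ℝ) ^ (g + 1)
        + 2 * C6 * C7 * (m : ℝ) ^ (g + 1) + 2 * (d + 1) * (m : ℝ) ^ (g + 1) := by ring
    rw [e2]
    linarith
  have hfin : FF μ (m ^ d)
      ≤ (FF μ (3 * m ^ d) + (C8 + 2 * C6 * C7 + 2 * (d + 1)) * (m : ℝ) ^ (g + 1)) / 2 :=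
    FF_le fun k hk => by
      have := hmain k hk
      linarith
  linarith
-- END fi1

-- BEGIN fi2
theorem fi2_rec_m {μ : ℝ} (hμ : 1 ≤ μ) (hb : ∀ n, ((brs n).card : ℝ) ≤ μ ^ n)
    (hc : ∀ n, μ ^ n ≤ (walks n).card) {s : ℝ} {t d g : ℕ} (hp : Par s t d g) {Bs : ℝ}
    (hBs : 0 ≤ Bs) (H : ∀ k : ℕ, 1 ≤ k → FF μ k ≤ Bs * (k : ℝ) ^ s) :
    ∃ C : ℝ, 0 ≤ C ∧ ∀ᶠ m : ℕ in atTop,
      FF μ (m ^ d) ≤ 1 / 2 * FF μ (3 * m ^ d) + C * (m : ℝ) ^ (g + 1) := by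
  have hgd := hp.h2
  obtain ⟨C₁, hC₁, h1⟩ := bad_case' hμ hb hc hp hBs H
  obtain ⟨C₂, hC₂, h2⟩ := good_case hμ hb (d := d) (g := g) (by omega)
  refine ⟨C₁ + C₂, by linarith, ?_⟩
  filter_upwards [h1, h2] with m h3 h4
  have h5 : (0 : ℝ) ≤ C₁ * (m : ℝ) ^ (g + 1) := by positivity
  have h6 : (0 : ℝ) ≤ C₂ * (m : ℝ) ^ (g + 1) := by positivity
  have h7 := FF_nonneg (μ := μ) (3 * m ^ d)
  rw [add_mul]
  by_cases hbad : Bad μ d g m
  · have := h3 hbad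
    linarith
  · have := h4 hbad
    linarith

theorem fi2_rec_N {μ : ℝ} {d g : ℕ} (hd : 1 ≤ d) {C : ℝ} (hC : 0 ≤ C)
    (h1 : ∀ᶠ m : ℕ in atTop,
      FF μ (m ^ d) ≤ 1 / 2 * FF μ (3 * m ^ d) + C * (m : ℝ) ^ (g + 1)) :
    ∃ C : ℝ, 0 ≤ C ∧ ∀ N : ℕ, 1 ≤ N →
      FF μ N ≤ 1 / 2 * FF μ (7 * N / 2) + C * (N : ℝ) ^ (((g : ℝ) + 1) / d) := by
  obtain ⟨m₀, hm₀⟩ := eventually_atTop.1 h1
  have hd' : (1 : ℝ) ≤ d := by exact_mod_cast hd
  set θ : ℝ := ((g : ℝ) + 1) / d with hθ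
  have hθ0 : 0 ≤ θ := by positivity
  set m₁ := m₀ + 7 * d + 2 with hm₁
  set N₀ := m₁ ^ d with hN₀
  have hFN := FF_nonneg (μ := μ) N₀
  refine ⟨C * 2 ^ (g + 1) + FF μ N₀, by positivity, fun N hN => ?_⟩
  have hN' : (1 : ℝ) ≤ N := by exact_mod_cast hN
  have hNθ : 1 ≤ (N : ℝ) ^ θ := Real.one_le_rpow hN' hθ0
  have hF2 := FF_nonneg (μ := μ) (7 * N / 2)
  have hCN : 0 ≤ C * 2 ^ (g + 1) * (N : ℝ) ^ θ := by positivity
  rw [add_mul]
  by_cases hcase : N ≤ N₀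
  · have h2 : FF μ N ≤ FF μ N₀ := FF_mono μ hcase
    have h3 : FF μ N₀ ≤ FF μ N₀ * (N : ℝ) ^ θ := le_mul_of_one_le_right hFN hNθ
    linarith
  · push Not at hcase
    obtain ⟨m, hm1, hm2, hm3⟩ := exists_root hd hN
    have hmm : m₁ < m := by
      by_contra hcon
      push Not at hcon
      have : m ^ d ≤ m₁ ^ d := Nat.pow_le_pow_left hcon d
      omega
    have hrec := hm₀ m (by omega)
    have hm0' : (0 : ℝ) < m := by
      have : 0 < m := by omega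
      exact_mod_cast this
    have hb1 : (m : ℝ) ^ d ≤ 7 / 6 * N := by
      have h2 := one_add_mul_le_pow (a := -(1 / (m : ℝ))) (by
        have : 1 / (m : ℝ) ≤ 1 := by
          rw [div_le_one hm0']
          exact_mod_cast hm1
        linarith) d
      have h3 : (6 : ℝ) / 7 ≤ 1 + d * -(1 / (m : ℝ)) := by
        have h4 : (d : ℝ) * (1 / (m : ℝ)) ≤ 1 / 7 := by
          rw [mul_one_div, div_le_iff₀ hm0']
          have : 7 * (d : ℝ) ≤ m := by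
            have : 7 * d ≤ m := by omega
            exact_mod_cast this
          linarith
        linarith
      have h4 : (1 + -(1 / (m : ℝ))) ^ d * (m : ℝ) ^ d = ((m - 1 : ℕ) : ℝ) ^ d := by
        rw [← mul_pow]
        congr 1
        rw [Nat.cast_sub hm1]
        field_simp
        push_cast
        ring
      have h5 : ((m - 1 : ℕ) : ℝ) ^ d ≤ N := by exact_mod_cast hm3.le
      have h6 : (6 : ℝ) / 7 * (m : ℝ) ^ d ≤ N := by
        refine le_trans ?_ h5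
        rw [← h4]
        exact mul_le_mul_of_nonneg_right (h3.trans h2) (by positivity)
      linarith
    have hb2 : 3 * m ^ d ≤ 7 * N / 2 := by
      rw [Nat.le_div_iff_mul_le (by norm_num)]
      have h2 : (3 * m ^ d * 2 : ℝ) ≤ 7 * N := by linarith
      exact_mod_cast h2
    have hb3 : (m : ℝ) ^ (g + 1) ≤ 2 ^ (g + 1) * (N : ℝ) ^ θ := by
      have h2 : (m : ℝ) ≤ 2 * ((m - 1 : ℕ) : ℝ) := by
        have : m ≤ 2 * (m - 1) := by omega
        exact_mod_cast this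
      have h3 : ((m - 1 : ℕ) : ℝ) ≤ (N : ℝ) ^ (1 / (d : ℝ)) := by
        have h4 : ((m - 1 : ℕ) : ℝ) ^ d ≤ N := by exact_mod_cast hm3.le
        have h5 : (((m - 1 : ℕ) : ℝ) ^ d) ^ (1 / (d : ℝ)) ≤ (N : ℝ) ^ (1 / (d : ℝ)) :=
          Real.rpow_le_rpow (by positivity) h4 (by positivity)
        rwa [← Real.rpow_natCast, ← Real.rpow_mul (Nat.cast_nonneg _), mul_one_div_cancel (by
          linarith), Real.rpow_one] at h5
      calc (m : ℝ) ^ (g + 1) ≤ (2 * ((m - 1 : ℕ) : ℝ)) ^ (g + 1) :=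
            pow_le_pow_left₀ hm0'.le h2 _
        _ = 2 ^ (g + 1) * ((m - 1 : ℕ) : ℝ) ^ (g + 1) := mul_pow _ _ _
        _ ≤ 2 ^ (g + 1) * ((N : ℝ) ^ (1 / (d : ℝ))) ^ (g + 1) :=
            mul_le_mul_of_nonneg_left (pow_le_pow_left₀ (Nat.cast_nonneg _) h3 _) (by positivity)
        _ = _ := by
            rw [← Real.rpow_natCast ((N : ℝ) ^ (1 / (d : ℝ))), ← Real.rpow_mul (by linarith)]
            congr 2
            rw [hθ]
            push_cast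
            ring
    have h6 : FF μ N ≤ FF μ (m ^ d) := FF_mono μ hm2
    have h7 : FF μ (3 * m ^ d) ≤ FF μ (7 * N / 2) := FF_mono μ hb2
    have h8 : C * (m : ℝ) ^ (g + 1) ≤ C * (2 ^ (g + 1) * (N : ℝ) ^ θ) :=
      mul_le_mul_of_nonneg_left hb3 hC
    have h9 : 0 ≤ FF μ N₀ * (N : ℝ) ^ θ := by positivity
    linarith

/-- as `MP_794e6e_pr.rec_m`, `MP_794e6e_pr.rec_N`, `iterate`, with `bad_case'` and `good_case` -/
theorem improve {μ : ℝ} (hμ : 1 ≤ μ) (hb : ∀ n, ((brs n).card : ℝ) ≤ μ ^ n)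
    (hc : ∀ n, μ ^ n ≤ (walks n).card) {s : ℝ} {t d g : ℕ} (hp : Par s t d g) {Bs : ℝ}
    (hBs : 0 ≤ Bs) (H : ∀ k : ℕ, 1 ≤ k → FF μ k ≤ Bs * (k : ℝ) ^ s) :
    ∃ Bs' : ℝ, 0 ≤ Bs' ∧ ∀ k : ℕ, 1 ≤ k → FF μ k ≤ Bs' * (k : ℝ) ^ (s - 1 / (d : ℝ)) := by
  have hlμ : 0 ≤ Real.log μ := Real.log_nonneg hμ
  have hd : 1 ≤ d := by
    have := hp.h2
    omega
  have hd' : (0 : ℝ) < d := by
    have : 0 < d := by omega
    exact_mod_cast this
  have hθ1 : ((g : ℝ) + 1) / d ≤ s - 1 / (d : ℝ) := by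
    rw [le_sub_iff_add_le, ← add_div, div_le_iff₀ hd']
    have := hp.h4
    linarith
  have hθ2 : s - 1 / (d : ℝ) ≤ 1 / 2 := by
    have h1 := hp.s2
    have h2 : 0 ≤ 1 / (d : ℝ) := by positivity
    linarith
  obtain ⟨C₁, hC₁, h1⟩ := fi2_rec_m hμ hb hc hp hBs H
  obtain ⟨C, hC, h3⟩ := fi2_rec_N hd hC₁ h1
  obtain ⟨A, hA⟩ := iterate (F := FF μ) (θ := ((g : ℝ) + 1) / d) hC
    (by positivity : 0 ≤ 4 + Real.log μ) (by positivity) (hθ1.trans hθ2) h3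
    (fun N hN => apriori hμ hb hN)
  refine ⟨max A 0, le_max_right _ _, fun n hn => ?_⟩
  have hn' : (1 : ℝ) ≤ n := by exact_mod_cast hn
  refine (hA n hn).trans ?_
  exact mul_le_mul (le_max_left _ _) (Real.rpow_le_rpow_of_exponent_le hn' hθ1)
    (Real.rpow_nonneg (by linarith) _) (le_max_right _ _)
-- END fi2

-- BEGIN fi3
/-- existence of the parameters: `d` and `t` depend only on the lower bound `f` for `s`;
`g = ⌊s d⌋ - 3` -/
theorem exists_par {f : ℝ} (hf : 1 / 3 < f) : ∃ t d : ℕ, 1 ≤ d ∧ ∀ s : ℝ, f ≤ s → s ≤ 1 / 2 →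
    ∃ g : ℕ, Par s t d g := by
  have hε : 0 < 3 * f - 1 := by linarith
  obtain ⟨t, ht⟩ := exists_nat_ge (20 / (3 * f - 1))
  obtain ⟨d, hd⟩ := exists_nat_ge (((t : ℝ) + 52) / (3 * f - 1))
  rw [div_le_iff₀ hε] at ht hd
  have ht0 : (0 : ℝ) ≤ t := Nat.cast_nonneg t
  have hd0 : (0 : ℝ) ≤ d := Nat.cast_nonneg d
  have hd1 : 1 ≤ d := by
    rcases Nat.eq_zero_or_pos d with h | h
    · rw [h, Nat.cast_zero, zero_mul] at hd
      linarith
    · exact h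
  refine ⟨t, d, hd1, fun s hs1 hs2 => ⟨⌊s * d⌋₊ - 3, ?_⟩⟩
  have hs0 : 0 ≤ s := by linarith
  have e1 : s * d < ⌊s * (d : ℝ)⌋₊ + 1 := Nat.lt_floor_add_one _
  have e2 : (⌊s * (d : ℝ)⌋₊ : ℝ) ≤ s * d := Nat.floor_le (by positivity)
  have e3 : (d : ℝ) + t + 52 ≤ 3 * (s * d) := by
    have h1 : (3 * f - 1) * d ≤ (3 * s - 1) * d :=
      mul_le_mul_of_nonneg_right (by linarith) hd0
    nlinarith
  have e4 : 3 ≤ ⌊s * (d : ℝ)⌋₊ := by
    have h1 : (2 : ℝ) < ⌊s * (d : ℝ)⌋₊ := by linarith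
    have h2 : 2 < ⌊s * (d : ℝ)⌋₊ := by exact_mod_cast h1
    omega
  have e5 : s * d ≤ 1 / 2 * d := mul_le_mul_of_nonneg_right hs2 hd0
  have e6 : ((⌊s * (d : ℝ)⌋₊ - 3 : ℕ) : ℝ) = ⌊s * (d : ℝ)⌋₊ - 3 := by
    rw [Nat.cast_sub e4]; norm_num
  refine ⟨by linarith, hs2, ?_, ?_, ?_, ?_, ?_⟩
  · have h1 : (3 * f - 1) * t ≤ (3 * s - 1) * t :=
      mul_le_mul_of_nonneg_right (by linarith) ht0
    linarith
  · have h1 : ((d + t + 40 : ℕ) : ℝ) ≤ ((3 * (⌊s * (d : ℝ)⌋₊ - 3) : ℕ) : ℝ) := by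
      push_cast
      rw [e6]
      linarith
    exact_mod_cast h1
  · have h1 : ((2 * (⌊s * (d : ℝ)⌋₊ - 3) + 3 : ℕ) : ℝ) ≤ (d : ℝ) := by
      push_cast
      rw [e6]
      linarith
    exact_mod_cast h1
  · rw [e6]; linarith
  · rw [e6]; linarith
-- END fi3

-- BEGIN fi4
/-- finitely many steps from `1 / 2` (`apriori`) down to `f` -/
theorem FF_bound {μ : ℝ} (hμ : 1 ≤ μ) (hb : ∀ n, ((brs n).card : ℝ) ≤ μ ^ n)
    (hc : ∀ n, μ ^ n ≤ (walks n).card) {f : ℝ} (hf : 1 / 3 < f) :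
    ∃ C : ℝ, 0 ≤ C ∧ ∀ k : ℕ, 1 ≤ k → FF μ k ≤ C * (k : ℝ) ^ f := by
  have hlμ : 0 ≤ Real.log μ := Real.log_nonneg hμ
  rcases le_or_gt (1 / 2) f with h12 | h12
  · refine ⟨4 + Real.log μ, by positivity, fun k hk => ?_⟩
    have hk' : (1 : ℝ) ≤ k := by exact_mod_cast hk
    refine (apriori hμ hb hk).trans ?_
    rw [Real.sqrt_eq_rpow]
    exact mul_le_mul_of_nonneg_left (Real.rpow_le_rpow_of_exponent_le hk' h12) (by positivity)
  · obtain ⟨t, d, hd, hpar⟩ := exists_par hf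
    have hd0 : (0 : ℝ) < d := by exact_mod_cast hd
    have step : ∀ n : ℕ, ∃ C : ℝ, 0 ≤ C ∧ ∀ k : ℕ, 1 ≤ k →
        FF μ k ≤ C * (k : ℝ) ^ (max f (1 / 2 - (n : ℝ) / (d : ℝ))) := by
      intro n
      induction n with
      | zero =>
        refine ⟨4 + Real.log μ, by positivity, fun k hk => ?_⟩
        have hk' : (1 : ℝ) ≤ k := by exact_mod_cast hk
        refine (apriori hμ hb hk).trans ?_
        rw [Real.sqrt_eq_rpow]
        refine mul_le_mul_of_nonneg_left (Real.rpow_le_rpow_of_exponent_le hk' ?_) (by positivity)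
        refine le_trans (le_of_eq ?_) (le_max_right _ _)
        simp
      | succ n ih =>
        obtain ⟨C, hC, h1⟩ := ih
        have hs2 : max f (1 / 2 - (n : ℝ) / (d : ℝ)) ≤ 1 / 2 := by
          refine max_le h12.le ?_
          have : 0 ≤ (n : ℝ) / (d : ℝ) := by positivity
          linarith
        obtain ⟨g, hg⟩ := hpar _ (le_max_left f (1 / 2 - (n : ℝ) / (d : ℝ))) hs2
        obtain ⟨C', hC', h2⟩ := improve hμ hb hc hg hC h1
        refine ⟨C', hC', fun k hk => ?_⟩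
        have hk' : (1 : ℝ) ≤ k := by exact_mod_cast hk
        refine (h2 k hk).trans
          (mul_le_mul_of_nonneg_left (Real.rpow_le_rpow_of_exponent_le hk' ?_) hC')
        have hd1 : (0 : ℝ) ≤ 1 / (d : ℝ) := by positivity
        rw [sub_le_iff_le_add]
        refine max_le ?_ ?_
        · have := le_max_left f (1 / 2 - ((n + 1 : ℕ) : ℝ) / (d : ℝ))
          linarith
        · have h3 := le_max_right f (1 / 2 - ((n + 1 : ℕ) : ℝ) / (d : ℝ))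
          have h4 : ((n + 1 : ℕ) : ℝ) / (d : ℝ) = (n : ℝ) / (d : ℝ) + 1 / (d : ℝ) := by
            push_cast
            ring
          rw [h4] at h3 ⊢
          linarith
    obtain ⟨C, hC, h1⟩ := step d
    refine ⟨C, hC, fun k hk => ?_⟩
    have h2 := h1 k hk
    have h3 : max f (1 / 2 - (d : ℝ) / (d : ℝ)) = f := by
      rw [div_self hd0.ne']
      exact max_eq_left (by linarith)
    rwa [h3] at h2
-- END fi4

/-- **Main bound**, for words. -/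
theorem main_words' {μ : ℝ} (hμ : 1 ≤ μ) (hb : ∀ n, ((brs n).card : ℝ) ≤ μ ^ n)
    (hc : ∀ n, μ ^ n ≤ (walks n).card) {f : ℝ} (hf : 1 / 3 < f) :
    ∃ C : ℝ, ∀ n : ℕ, 1 ≤ n → ((walks n).card : ℝ) ≤ μ ^ n * Real.exp (C * (n : ℝ) ^ f) := by
  have hμ0 : 0 < μ := by linarith
  obtain ⟨C, hC, h1⟩ := FF_bound hμ hb hc hf
  refine ⟨C, fun n hn => ?_⟩
  have h5 := term_le_exp hμ (le_refl n)
  have h6 : ((walks n).card : ℝ) * μ⁻¹ ^ n ≤ Real.exp (C * (n : ℝ) ^ f) :=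
    h5.trans (Real.exp_le_exp.2 (h1 n hn))
  rw [inv_pow, ← div_eq_mul_inv, div_le_iff₀ (by positivity)] at h6
  linarith

end Pool.Agent.MP_794e6e_ex
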