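import Pool.Agent.MP_794e6e_ex.Basic

/-! ROW A4. The segment: greedy choice of blocks. -/

namespace Pool.Agent.MP_794e6e_ex
set_option maxHeartbeats 400000

open Finset Filter
open scoped Classical
open Pool.Agent.MP_794e6e_pr

-- BEGIN se1
theorem se1_ax_apply (t : ℤ) (k : Fin 3) : ax 0 t k = if k = 0 then t else 0 := by
  unfold ax
  rw [Pi.single_apply]

theorem se1_ax_zero : ax 0 0 = 0 := by
  unfold ax
  exact Pi.single_zero _

theorem se1_ax_add (s t : ℤ) : ax 0 s + ax 0 t = ax 0 (s + t) := by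
  unfold ax
  exact (Pi.single_add _ _ _).symm

theorem se1_free_mono {X : Finset Pt} {n s ρ ρ' : ℕ} (h : ρ ≤ ρ') (hf : Free X n s ρ') :
    Free X n s ρ := by
  obtain ⟨h1, h2, h3⟩ := hf
  refine ⟨by omega, by omega, fun p hp => ?_⟩
  obtain ⟨k, hk⟩ := h3 p hp
  exact ⟨k, le_trans (by exact_mod_cast h) hk⟩

theorem se1_free_shift {X : Finset Pt} {n s t ρ ρ' : ℕ} (hst : s ≤ t) (h : ρ + (t - s) ≤ ρ')
    (hf : Free X n t ρ') : Free X n s ρ := by
  obtain ⟨h1, h2, h3⟩ := hf
  refine ⟨by omega, by omega, fun p hp => ?_⟩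
  obtain ⟨k, hk⟩ := h3 p hp
  refine ⟨k, ?_⟩
  rw [se1_ax_apply] at hk ⊢
  have h' : (ρ : ℤ) + ((t : ℤ) - s) ≤ ρ' := by omega
  have hst' : (s : ℤ) ≤ t := by exact_mod_cast hst
  split_ifs at hk ⊢ with hc
  · have h5 := abs_sub_le (p k) (s : ℤ) (t : ℤ)
    have h6 : |(s : ℤ) - t| = (t : ℤ) - s := by
      rw [abs_sub_comm]
      exact abs_of_nonneg (by linarith)
    rw [h6] at h5
    linarith
  · linarith

/-- the cost of a position -/
noncomputable def se1_g (X : Finset Pt) (n m I : ℕ) (a : ℕ → ℝ) (s : ℕ) : ℝ :=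
  ∑ i ∈ range (I + 1), if i = I ∨ ¬ Free X n s (200 * m ^ (i + 1)) then a i else 0

theorem se1_g_nonneg {X : Finset Pt} {n m I : ℕ} {a : ℕ → ℝ} (ha : ∀ i, 0 ≤ a i) (s : ℕ) :
    0 ≤ se1_g X n m I a s := by
  unfold se1_g
  refine sum_nonneg fun i _ => ?_
  split_ifs
  · exact ha i
  · exact le_rfl

theorem se1_le_g {X : Finset Pt} {n m I : ℕ} {a : ℕ → ℝ} (ha : ∀ i, 0 ≤ a i) {s i : ℕ}
    (hi : i ≤ I) (h : i = I ∨ ¬ Free X n s (200 * m ^ (i + 1))) : a i ≤ se1_g X n m I a s := by
  unfold se1_g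
  have h1 : (if i = I ∨ ¬ Free X n s (200 * m ^ (i + 1)) then a i else 0)
      ≤ ∑ i ∈ range (I + 1), if i = I ∨ ¬ Free X n s (200 * m ^ (i + 1)) then a i else 0 := by
    refine single_le_sum (f := fun i =>
      if i = I ∨ ¬ Free X n s (200 * m ^ (i + 1)) then a i else 0) (fun j _ => ?_)
      (mem_range.2 (by omega))
    split_ifs
    · exact ha j
    · exact le_rfl
  rwa [if_pos h] at h1

theorem se1_Br_step : Br [((0 : Fin 3), true)] := by
  have hv : D [((0 : Fin 3), true)] = ax 0 1 := by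
    rw [D_singleton]
    simp [vec, ax]
  have hv0 : (D [((0 : Fin 3), true)]) 0 = 1 := by
    rw [hv, se1_ax_apply]; simp
  have hlist : ∀ u b : Word, [((0 : Fin 3), true)] = u ++ b → u = [] ∨ (u = [((0 : Fin 3), true)] ∧
      b = []) := by
    intro u b h
    have h1 := List.append_eq_cons_iff.1 h.symm
    rcases h1 with ⟨h2, _⟩ | ⟨u', h2, h3⟩
    · exact Or.inl h2
    · right
      have h4 := List.append_eq_nil_iff.1 h3.symm
      refine ⟨?_, h4.2⟩
      rw [h2, h4.1]
  refine ⟨?_, ?_, ?_⟩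
  · intro a u b h hu hD
    rcases hlist a (u ++ b) h with h1 | ⟨_, h1⟩
    · subst h1
      rcases hlist u b (by simpa using h) with h2 | ⟨h2, _⟩
      · exact hu h2
      · rw [h2] at hD
        rw [hD] at hv0
        simp at hv0
    · exact hu (List.append_eq_nil_iff.1 h1).1
  · intro a u h
    rcases hlist a u h with h1 | ⟨_, h1⟩
    · subst h1
      have h2 : u = [((0 : Fin 3), true)] := by simpa using h.symm
      rw [h2, hv0]; norm_num
    · rw [h1]; simp
  · intro u b h hu
    rcases hlist u b h with h1 | ⟨h1, _⟩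
    · exact absurd h1 hu
    · rw [h1, hv0]; norm_num

/-- what is required of a point at the position `q` -/
def se1_ok (X : Finset Pt) (n : ℕ) (q : Pt) : Prop :=
  (∃ t : ℕ, t ≤ n ∧ ∀ k, 12 * |q k - ax 0 t k| ≤ (t : ℤ) ∧ 12 * |q k - ax 0 t k| ≤ (n : ℤ) - t) ∧
    (q ∈ X → ∃ t : ℕ, t ≤ n ∧ q = ax 0 t)

theorem se1_ok_ax {X : Finset Pt} {n t : ℕ} (ht : t ≤ n) : se1_ok X n (ax 0 (t : ℤ)) := by
  refine ⟨⟨t, ht, fun k => ?_⟩, fun _ => ⟨t, ht, rfl⟩⟩
  rw [sub_self, abs_zero]
  constructor <;> omega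

theorem se1_ok_block {X : Finset Pt} {n s r : ℕ} (hf : Free X n s (100 * r)) {p : Pt}
    (hp : ∀ k, |p k| ≤ 8 * (r : ℤ)) : se1_ok X n (ax 0 (s : ℤ) + p) := by
  obtain ⟨h1, h2, h3⟩ := hf
  have hr : (100 : ℤ) * r ≤ s := by exact_mod_cast h1
  have hr2 : (s : ℤ) + 100 * r ≤ n := by exact_mod_cast h2
  have hs : s ≤ n := by omega
  have e : ∀ k, (ax 0 (s : ℤ) + p) k - ax 0 (s : ℤ) k = p k := by
    intro k; rw [Pi.add_apply]; ring
  refine ⟨⟨s, hs, fun k => ?_⟩, fun hX => ?_⟩
  · rw [e k]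
    have := hp k
    constructor <;> linarith [Int.natCast_nonneg r]
  · obtain ⟨k, hk⟩ := h3 _ hX
    rw [e k] at hk
    have := hp k
    push_cast at hk
    have hr0 : (0 : ℤ) ≤ r := Int.natCast_nonneg r
    have hr1 : (r : ℤ) = 0 := by linarith
    refine ⟨s, hs, ?_⟩
    have hp0 : p = 0 := by
      funext j
      have := hp j
      rw [hr1] at this
      simpa using this
    rw [hp0, add_zero]

theorem se1_main {x : ℝ} (hx : 0 < x) {L m I : ℕ} (hm : 2 ≤ m) {h l : ℕ → ℕ}
    {J : ℕ → ℝ} {B : ℕ → Law}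
    (hB : ∀ i, 1 ≤ i → i ≤ I → Blk x L (m ^ i) (h i) (l i) (J i) (B i)) {a b : ℕ → ℝ}
    (ha : ∀ i, 0 ≤ a i) (hb : ∀ i, 0 ≤ b i) (ha0 : Real.log x⁻¹ + Real.log (L + 1) ≤ a 0)
    (ha1 : ∀ i, 1 ≤ i → i ≤ I → J i + Real.log (L + 1) ≤ (m : ℝ) ^ i * a i) (hb0 : 1 ≤ b 0)
    (hb1 : ∀ i, 1 ≤ i → i ≤ I → (l i : ℝ) ≤ (m : ℝ) ^ i * b i) (X : Finset Pt) (n : ℕ) :
    ∀ k s : ℕ, s + k = n → ∃ S : Law, (∀ i, Br (S.f i) ∧ D (S.f i) = ax 0 k ∧
      (∀ p ∈ pts (S.f i), se1_ok X n (ax 0 (s : ℤ) + p)) ∧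
      ((S.f i).length : ℝ) ≤ ∑ t ∈ Ico s n, se1_g X n m I b t) ∧
      Dom x L S (Real.exp (∑ t ∈ Ico s n, se1_g X n m I a t)) := by
  intro k
  induction k using Nat.strong_induction_on with
  | _ k ih =>
  intro s hs
  rcases Nat.eq_zero_or_pos k with hk0 | hk0
  · subst hk0
    have hsn : s = n := by omega
    subst hsn
    refine ⟨Law.dirac [], fun i => ?_, ?_⟩
    · change Br [] ∧ D [] = _ ∧ (∀ p ∈ pts [], _) ∧ (([] : Word).length : ℝ) ≤ _
      refine ⟨Br_nil, ?_, ?_, ?_⟩
      · rw [D_nil, Nat.cast_zero, se1_ax_zero]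
      · intro p hp
        obtain ⟨a', b', hab, rfl⟩ := mem_pts.1 hp
        have h1 := List.append_eq_nil_iff.1 hab.symm
        rw [h1.1, D_nil, add_zero]
        exact se1_ok_ax le_rfl
      · simp
    · have h1 := Dom.dirac hx (L := L) []
      simpa using h1
  · -- a block or a unit step
    have hlog : Real.exp (Real.log ((L : ℝ) + 1)) = L + 1 := Real.exp_log (by positivity)
    by_cases hex : ∃ i, 1 ≤ i ∧ i ≤ I ∧ Free X n s (100 * m ^ i)
    · -- the largest scale
      obtain ⟨i, hi1, hiI, hif, hmax⟩ : ∃ i, 1 ≤ i ∧ i ≤ I ∧ Free X n s (100 * m ^ i) ∧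
          (i = I ∨ ¬ Free X n s (100 * m ^ (i + 1))) := by
        by_contra hcon
        push Not at hcon
        obtain ⟨i0, h1, h2, h3⟩ := hex
        have hall : ∀ d, i0 + d ≤ I → Free X n s (100 * m ^ (i0 + d)) := by
          intro d
          induction d with
          | zero => intro _; exact h3
          | succ d ihd =>
            intro hd
            have h4 := hcon (i0 + d) (by omega) (by omega) (ihd (by omega))
            exact h4.2
        have h5 := hcon (i0 + (I - i0)) (by omega) (by omega) (hall (I - i0) (by omega))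
        omega
      have hBi := hB i hi1 hiI
      have hm0 : 0 < m ^ i := Nat.pow_pos (by omega)
      have hlo := hBi.lo
      have hhi := hBi.hi
      have hf2 := hif.2.1
      have hhk : h i ≤ k := by omega
      have hnf : ∀ t ∈ Ico s (s + h i), i = I ∨ ¬ Free X n t (200 * m ^ (i + 1)) := by
        intro t ht
        rw [mem_Ico] at ht
        rcases hmax with h1 | h1
        · exact Or.inl h1
        · right
          intro h2
          apply h1
          have hpow : m ^ i ≤ m ^ (i + 1) := Nat.pow_le_pow_right (by omega) (by omega)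
          exact se1_free_shift ht.1 (by omega) h2
      obtain ⟨S', hS', hS'd⟩ := ih (k - h i) (by omega) (s + h i) (by omega)
      have hsplit : ∀ c : ℕ → ℝ, ∑ t ∈ Ico s n, se1_g X n m I c t
          = ∑ t ∈ Ico s (s + h i), se1_g X n m I c t
            + ∑ t ∈ Ico (s + h i) n, se1_g X n m I c t := by
        intro c
        exact (sum_Ico_consecutive _ (by omega) (by omega)).symm
      have hpay : ∀ c : ℕ → ℝ, (∀ i, 0 ≤ c i) → (m : ℝ) ^ i * c i
          ≤ ∑ t ∈ Ico s (s + h i), se1_g X n m I c t := by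
        intro c hc
        calc (m : ℝ) ^ i * c i ≤ (h i : ℝ) * c i := by
              refine mul_le_mul_of_nonneg_right ?_ (hc i)
              exact_mod_cast hlo
          _ = ∑ t ∈ Ico s (s + h i), c i := by
              rw [sum_const, Nat.card_Ico, nsmul_eq_mul]
              congr 2
              omega
          _ ≤ _ := sum_le_sum fun t ht => se1_le_g hc hiI (hnf t ht)
      refine ⟨(B i).conv S', ?_, ?_⟩
      · rintro ⟨u, v⟩
        obtain ⟨v1, v2, v3, v4⟩ := hS' v
        change Br ((B i).f u ++ S'.f v) ∧ D ((B i).f u ++ S'.f v) = _ ∧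
          (∀ p ∈ pts ((B i).f u ++ S'.f v), _) ∧ (((B i).f u ++ S'.f v).length : ℝ) ≤ _
        have hDu := hBi.disp u
        refine ⟨(hBi.br u).append v1, ?_, ?_, ?_⟩
        · rw [D_append, hDu, v2, se1_ax_add]
          congr 1
          omega
        · intro p hp
          rw [pts_append, mem_union, mem_tr, hDu] at hp
          rcases hp with hp | hp
          · refine se1_ok_block hif (fun j => ?_)
            have := hBi.box u p hp j
            exact this
          · have h1 := v3 _ hp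
            have e : ax 0 (((s + h i : ℕ) : ℕ) : ℤ) + (p - ax 0 (h i : ℤ)) = ax 0 (s : ℤ) + p := by
              rw [Nat.cast_add, ← se1_ax_add]
              abel
            rwa [e] at h1
        · rw [List.length_append, Nat.cast_add, hsplit]
          have h1 : (((B i).f u).length : ℝ) ≤ l i := by exact_mod_cast hBi.len u
          linarith [hb1 i hi1 hiI, hpay b hb]
      · have h1 := Dom.conv hx.le (Real.exp_pos _).le (Real.exp_pos _).le hBi.dom hS'd
        refine h1.mono hx.le ?_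
        rw [← hlog, ← Real.exp_add, ← Real.exp_add, hsplit]
        refine Real.exp_le_exp.2 ?_
        linarith [ha1 i hi1 hiI, hpay a ha]
    · -- a unit step
      have hnf : 0 = I ∨ ¬ Free X n s (200 * m ^ (0 + 1)) := by
        by_cases hI : 0 = I
        · exact Or.inl hI
        · right
          intro h1
          apply hex
          refine ⟨1, le_rfl, by omega, se1_free_mono ?_ h1⟩
          rw [zero_add]
          omega
      obtain ⟨S', hS', hS'd⟩ := ih (k - 1) (by omega) (s + 1) (by omega)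
      have hsplit : ∀ c : ℕ → ℝ, ∑ t ∈ Ico s n, se1_g X n m I c t
          = se1_g X n m I c s + ∑ t ∈ Ico (s + 1) n, se1_g X n m I c t := by
        intro c
        exact sum_eq_sum_Ico_succ_bot (by omega) _
      have hpay : ∀ c : ℕ → ℝ, (∀ i, 0 ≤ c i) → c 0 ≤ se1_g X n m I c s := by
        intro c hc
        exact se1_le_g hc (Nat.zero_le I) hnf
      have hD1 : D [((0 : Fin 3), true)] = ax 0 1 := by
        rw [D_singleton]
        simp [vec, ax]
      refine ⟨(Law.dirac [((0 : Fin 3), true)]).conv S', ?_, ?_⟩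
      · rintro ⟨u, v⟩
        obtain ⟨v1, v2, v3, v4⟩ := hS' v
        change Br ([((0 : Fin 3), true)] ++ S'.f v) ∧ D ([((0 : Fin 3), true)] ++ S'.f v) = _ ∧
          (∀ p ∈ pts ([((0 : Fin 3), true)] ++ S'.f v), _) ∧
          (([((0 : Fin 3), true)] ++ S'.f v).length : ℝ) ≤ _
        refine ⟨se1_Br_step.append v1, ?_, ?_, ?_⟩
        · rw [D_append, hD1, v2, se1_ax_add]
          congr 1
          omega
        · intro p hp
          rw [pts_append, mem_union, mem_tr, hD1] at hp
          rcases hp with hp | hp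
          · obtain ⟨a', b', hab, rfl⟩ := mem_pts.1 hp
            have h2 : D a' = ax 0 0 ∨ D a' = ax 0 1 := by
              have h1 := List.append_eq_cons_iff.1 hab.symm
              rcases h1 with ⟨h2, _⟩ | ⟨u', h2, h3⟩
              · left; rw [h2, D_nil, se1_ax_zero]
              · right
                have h4 := List.append_eq_nil_iff.1 h3.symm
                rw [h2, h4.1, hD1]
            rcases h2 with h2 | h2
            · rw [h2, se1_ax_add, add_zero]
              exact se1_ok_ax (by omega)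
            · rw [h2, se1_ax_add]
              have := se1_ok_ax (X := X) (n := n) (t := s + 1) (by omega)
              rw [Nat.cast_add, Nat.cast_one] at this
              exact this
          · have h1 := v3 _ hp
            have e : ax 0 (((s + 1 : ℕ) : ℕ) : ℤ) + (p - ax 0 1) = ax 0 (s : ℤ) + p := by
              rw [Nat.cast_add, Nat.cast_one, ← se1_ax_add]
              abel
            rwa [e] at h1
        · rw [List.length_append, Nat.cast_add, hsplit]
          have h1 : (([((0 : Fin 3), true)] : Word).length : ℝ) = 1 := by simp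
          rw [h1]
          linarith [hpay b hb]
      · have h0 := Dom.dirac hx (L := L) [((0 : Fin 3), true)]
        have h1 := Dom.conv hx.le (by positivity) (Real.exp_pos _).le h0 hS'd
        refine h1.mono hx.le ?_
        have hxe : x⁻¹ ^ ([((0 : Fin 3), true)] : Word).length = Real.exp (Real.log x⁻¹) := by
          rw [Real.exp_log (by positivity)]
          simp
        rw [hxe, ← hlog, ← Real.exp_add, ← Real.exp_add, hsplit]
        refine Real.exp_le_exp.2 ?_
        linarith [hpay a ha]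

/-- **Segment lemma.** By strong induction on `n - s`: a law on the words from the position `s` to
the position `n`. At the position `s < n` use the block of the largest `i ∈ [1, I]` with
`Free X n s (100 * m ^ i)`, and one unit step if there is none. A block used at `s` costs
`J i + log (L + 1) ≤ m ^ i * a i ≤ h i * a i`, to be paid by the positions
`s, …, s + h i - 1`: if `i < I` they are not free at scale `200 * m ^ (i + 1)` (otherwise `s` would
be free at scale `100 * m ^ (i + 1)`, as `h i ≤ 4 * m ^ i`). A unit step costs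
`log x⁻¹ + log (L + 1) ≤ a 0`; if `0 < I` the position is not free at scale `100 * m`.
`Dom.conv`, `Br.append`, `pts_append`. The block at `s` stays within `8 * m ^ i` of the position
`s`, and `12 * 8 ≤ 100`. -/
theorem segment {x : ℝ} (hx : 0 < x) (hx1 : x ≤ 1) {L m I : ℕ} (hm : 2 ≤ m) {h l : ℕ → ℕ}
    {J : ℕ → ℝ} {B : ℕ → Law}
    (hB : ∀ i, 1 ≤ i → i ≤ I → Blk x L (m ^ i) (h i) (l i) (J i) (B i)) {a b : ℕ → ℝ}
    (ha : ∀ i, 0 ≤ a i) (hb : ∀ i, 0 ≤ b i) (ha0 : Real.log x⁻¹ + Real.log (L + 1) ≤ a 0)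
    (ha1 : ∀ i, 1 ≤ i → i ≤ I → J i + Real.log (L + 1) ≤ (m : ℝ) ^ i * a i) (hb0 : 1 ≤ b 0)
    (hb1 : ∀ i, 1 ≤ i → i ≤ I → (l i : ℝ) ≤ (m : ℝ) ^ i * b i) : SegLaw x L m I a b := by
  intro X n
  obtain ⟨S, hS, hSd⟩ := se1_main hx hm hB ha hb ha0 ha1 hb0 hb1 X n n 0 (by omega)
  have hsc : ∀ c : ℕ → ℝ, ∑ t ∈ Ico 0 n, se1_g X n m I c t = sc X n m I c := by
    intro c
    rw [← range_eq_Ico]
    rfl
  refine ⟨S, fun i => ?_, fun i => ?_, ?_⟩
  · obtain ⟨h1, h2, h3, _⟩ := hS i
    have h0 : ∀ p ∈ pts (S.f i), se1_ok X n p := by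
      intro p hp
      have := h3 p hp
      rw [Nat.cast_zero, se1_ax_zero, zero_add] at this
      exact this
    exact ⟨h1, h2, fun p hp => (h0 p hp).1, fun p hp => (h0 p hp).2⟩
  · obtain ⟨_, _, _, h4⟩ := hS i
    rwa [hsc] at h4
  · rwa [hsc] at hSd
-- END se1

end Pool.Agent.MP_794e6e_ex
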