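import Pool.Agent.MP_794e6e_ex.Pieces
import Pool.Agent.MP_794e6e_ex.Blocks
import Pool.Agent.MP_794e6e_ex.Segment
import Pool.Agent.MP_794e6e_ex.Path
import Pool.Agent.MP_794e6e_ex.Avg

/-! ROW A8. Numerical estimates; choice of the blocks; most staircases are cheap. -/

namespace Pool.Agent.MP_794e6e_ex
set_option maxHeartbeats 400000

open Finset Filter
open scoped Classical
open Pool.Agent.MP_794e6e_pr

/-- the parameters: `m ^ d` is the length, `m ^ g` the cost -/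
structure Par (s : ℝ) (t d g : ℕ) : Prop where
  s1 : 1 / 3 < s
  s2 : s ≤ 1 / 2
  ht : 20 ≤ (3 * s - 1) * t
  h1 : d + t + 40 ≤ 3 * g
  h2 : 2 * g + 3 ≤ d
  h3 : s * d - 4 ≤ g
  h4 : (g : ℝ) + 2 ≤ s * d

/-- the scale `m ^ X0` of the end of the staircase: `2 d - g ≤ 3 X0` -/
def X0 (d g : ℕ) : ℕ := (2 * d - g + 2) / 3

/-- the number of segments -/
def KK (d g : ℕ) : ℕ := 3 * (X0 d g - g + 1)

theorem Par.arith {s : ℝ} {t d g : ℕ} (hp : Par s t d g) : 40 ≤ t ∧ 2 * d ≤ g + 3 * X0 d g ∧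
    g + 1 ≤ X0 d g ∧ X0 d g ≤ d - g ∧ X0 d g + (d - 2 * g + 2) ≤ d - 2 := by
  have h1 := hp.h1
  have h2 := hp.h2
  have ht : 40 ≤ t := by
    by_contra hcon
    push Not at hcon
    have h3 : (t : ℝ) ≤ 39 := by exact_mod_cast Nat.lt_succ_iff.1 hcon
    have h4 := hp.ht
    have h5 := hp.s2
    have h6 := hp.s1
    have h7 : (0 : ℝ) ≤ t := Nat.cast_nonneg t
    nlinarith
  unfold X0
  refine ⟨ht, ?_, ?_, ?_, ?_⟩ <;> omega

/-- logarithm of the number of lengths -/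
noncomputable def LL (m d : ℕ) : ℝ := Real.log (((m ^ d : ℕ) : ℝ) + 1)

/-- the bound for the mean number of positions near the obstacles, on a segment of scale `m ^ y` -/
noncomputable def cc (m y : ℕ) (V : ℝ) : ℝ :=
  min (2 * (m : ℝ) ^ y) (2 * (m : ℝ) ^ y * V / (m : ℝ) ^ (3 * (y - 1)))

-- BEGIN nu1
theorem nu1_mono {m : ℕ} (hm : 1 ≤ m) {a b : ℝ} (h : a ≤ b) : (m : ℝ) ^ a ≤ (m : ℝ) ^ b :=
  Real.rpow_le_rpow_of_exponent_le (by exact_mod_cast hm) h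

theorem nu1_cc0 {m y : ℕ} {V : ℝ} (hV : 0 ≤ V) : 0 ≤ cc m y V := by
  unfold cc
  refine le_min (by positivity) (by positivity)

theorem nu1_cc1 {m y : ℕ} {V : ℝ} : cc m y V ≤ 2 * (m : ℝ) ^ (y : ℝ) := by
  unfold cc
  rw [Real.rpow_natCast]
  exact min_le_left _ _

/-- the second bound for `cc` with real exponents -/
theorem nu1_cc2 {m y : ℕ} (hm : 1 ≤ m) (hy : 1 ≤ y) {V K e : ℝ} (h : V ≤ K * (m : ℝ) ^ e) :
    cc m y V ≤ 2 * K * (m : ℝ) ^ (e + 3 - 2 * (y : ℝ)) := by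
  have hm0 : (0 : ℝ) < m := by exact_mod_cast hm
  have e1 : (m : ℝ) ^ (3 * (y - 1)) = (m : ℝ) ^ (3 * ((y : ℝ) - 1)) := by
    rw [← Real.rpow_natCast]
    congr 1
    push_cast [Nat.cast_sub hy]
    ring
  have e2 : (m : ℝ) ^ y = (m : ℝ) ^ (y : ℝ) := (Real.rpow_natCast _ _).symm
  unfold cc
  refine (min_le_right _ _).trans ?_
  rw [e1, e2, div_le_iff₀ (by positivity)]
  have e3 : 2 * K * (m : ℝ) ^ (e + 3 - 2 * (y : ℝ)) * (m : ℝ) ^ (3 * ((y : ℝ) - 1))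
      = 2 * (m : ℝ) ^ (y : ℝ) * (K * (m : ℝ) ^ e) := by
    have : (m : ℝ) ^ (e + 3 - 2 * (y : ℝ)) * (m : ℝ) ^ (3 * ((y : ℝ) - 1))
        = (m : ℝ) ^ (y : ℝ) * (m : ℝ) ^ e := by
      rw [← Real.rpow_add hm0, ← Real.rpow_add hm0]
      congr 1
      ring
    calc 2 * K * (m : ℝ) ^ (e + 3 - 2 * (y : ℝ)) * (m : ℝ) ^ (3 * ((y : ℝ) - 1))
        = 2 * K * ((m : ℝ) ^ (e + 3 - 2 * (y : ℝ)) * (m : ℝ) ^ (3 * ((y : ℝ) - 1))) := by ring
      _ = _ := by rw [this]; ring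
  rw [e3]
  exact mul_le_mul_of_nonneg_left h (by positivity)

theorem nu1_vol {m i : ℕ} (hm : 1 ≤ m) :
    (2 * (200 * (m : ℝ) ^ (i + 1) + (m : ℝ) ^ i) + 1) ^ 3
      ≤ 403 ^ 3 * (m : ℝ) ^ (3 * (i : ℝ) + 3) := by
  have hm1 : (1 : ℝ) ≤ m := by exact_mod_cast hm
  have hm0 : (0 : ℝ) < m := by exact_mod_cast hm
  have h1 : (1 : ℝ) ≤ (m : ℝ) ^ i := one_le_pow₀ hm1
  have h2 : (m : ℝ) ^ i ≤ (m : ℝ) ^ (i + 1) := pow_le_pow_right₀ hm1 (by omega)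
  have h3 : 2 * (200 * (m : ℝ) ^ (i + 1) + (m : ℝ) ^ i) + 1 ≤ 403 * (m : ℝ) ^ (i + 1) := by
    linarith
  have h4 : (2 * (200 * (m : ℝ) ^ (i + 1) + (m : ℝ) ^ i) + 1) ^ 3
      ≤ (403 * (m : ℝ) ^ (i + 1)) ^ 3 := pow_le_pow_left₀ (by positivity) h3 3
  refine h4.trans (le_of_eq ?_)
  have h5 : (m : ℝ) ^ (3 * (i : ℝ) + 3) = ((m : ℝ) ^ (i + 1)) ^ 3 := by
    rw [← pow_mul, ← Real.rpow_natCast]
    congr 1
    push_cast
    ring
  rw [h5]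
  ring

theorem nu1_LL {m d : ℕ} (hm : 2 ≤ m) : 0 ≤ LL m d ∧ LL m d ≤ ((d : ℝ) + 1) * m := by
  unfold LL
  refine ⟨Real.log_nonneg ?_, log_succ_le hm⟩
  have : (0 : ℝ) ≤ ((m ^ d : ℕ) : ℝ) := Nat.cast_nonneg _
  linarith

/-- `cc m y V / m ^ i ≤ 2 m ^ (y - i)` -/
theorem nu1_q1 {m y i : ℕ} (hm : 1 ≤ m) {V : ℝ} :
    cc m y V / (m : ℝ) ^ i ≤ 2 * (m : ℝ) ^ ((y : ℝ) - i) := by
  have hm0 : (0 : ℝ) < m := by exact_mod_cast hm
  rw [div_le_iff₀ (by positivity), ← Real.rpow_natCast (m : ℝ) i, mul_assoc,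
    ← Real.rpow_add hm0, sub_add_cancel]
  exact nu1_cc1

theorem nu1_q2 {m y i : ℕ} (hm : 1 ≤ m) (hy : 1 ≤ y) {V K e : ℝ} (h : V ≤ K * (m : ℝ) ^ e) :
    cc m y V / (m : ℝ) ^ i ≤ 2 * K * (m : ℝ) ^ (e + 3 - 2 * (y : ℝ) - i) := by
  have hm0 : (0 : ℝ) < m := by exact_mod_cast hm
  rw [div_le_iff₀ (by positivity), ← Real.rpow_natCast (m : ℝ) i, mul_assoc,
    ← Real.rpow_add hm0, sub_add_cancel]
  exact nu1_cc2 hm hy h

/-- Zero blocks. `b = d - 2 g + 2`. First case: `cc ≤ 2 m ^ y`, cost `≤ C m ^ (b + 2 - i) m ^ y`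
and `b + 2 + t ≤ g`. Second case: `cc ≤ C m ^ (2 (y - i) + y + 3 (i + 1) - 3 (y - 1))`, so the cost
is `≤ C m ^ (b + 8)` (`LL ≤ (d + 1) m`, `log_succ_le`). Lengths: `X0 + b ≤ d - 2`. -/
theorem num_zero {s : ℝ} {t d g : ℕ} (hp : Par s t d g) {C₁ : ℝ} (hC₁ : 0 ≤ C₁) :
    ∃ C : ℝ, 0 < C ∧ ∀ᶠ m : ℕ in atTop, ∀ (y i : ℕ) (V : ℝ), g + 1 ≤ y → y ≤ X0 d g →
      1 ≤ i → i + 1 ≤ y → 0 ≤ V → (y ≤ i + t ∨
        V ≤ (m : ℝ) ^ (2 * (y - i)) * (2 * (200 * (m : ℝ) ^ (i + 1) + (m : ℝ) ^ i) + 1) ^ 3) →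
      (C₁ * (m : ℝ) ^ (d - 2 * g + 3) + LL m d) / (m : ℝ) ^ i *
        (400 * (m : ℝ) ^ (i + 1) + cc m y V) ≤ C * (m : ℝ) ^ g ∧
      4 * (m : ℝ) ^ (d - 2 * g + 2) * (400 * (m : ℝ) ^ (i + 1) + cc m y V)
        ≤ C * (m : ℝ) ^ (d - 2) := by
  obtain ⟨ht40, hX, hgX, hXd, hXb⟩ := hp.arith
  have h1 := hp.h1
  have h2 := hp.h2
  have h1R : (d : ℝ) + t + 40 ≤ 3 * g := by exact_mod_cast h1
  have t40R : (40 : ℝ) ≤ t := by exact_mod_cast ht40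
  set K : ℝ := 2 * 403 ^ 3 with hK
  have hK0 : 0 < K := by rw [hK]; norm_num
  set K₁ : ℝ := C₁ + (d + 1) with hK₁
  have hK₁0 : 0 < K₁ := by rw [hK₁]; positivity
  refine ⟨400 * K₁ + K₁ * (K + 2) + 1608, by positivity, ?_⟩
  filter_upwards [eventually_ge_atTop 2] with m hm2
  intro y i V hgy hyX hi hiy hV0 hV
  have hm1 : 1 ≤ m := by omega
  have hmR1 : (1 : ℝ) ≤ m := by exact_mod_cast hm1
  have hm0 : (0 : ℝ) < m := by linarith
  set q : ℝ := cc m y V / (m : ℝ) ^ i with hq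
  have hq0 : 0 ≤ q := div_nonneg (nu1_cc0 hV0) (by positivity)
  have hB : (m : ℝ) ^ (d - 2 * g + 3) = (m : ℝ) ^ ((d : ℝ) - 2 * g + 3) := by
    rw [← Real.rpow_natCast]
    congr 1
    push_cast [Nat.cast_sub (show 2 * g ≤ d by omega)]
    ring
  have hG : (m : ℝ) ^ g = (m : ℝ) ^ (g : ℝ) := (Real.rpow_natCast _ _).symm
  have hexp : ∀ z : ℝ, z / (m : ℝ) ^ i * (400 * (m : ℝ) ^ (i + 1) + cc m y V)
      = z * (400 * m + q) := by
    intro z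
    rw [hq]
    have : (m : ℝ) ^ i ≠ 0 := by positivity
    field_simp
    ring
  have hLL := nu1_LL (d := d) hm2
  have hgp : 0 < (m : ℝ) ^ (g : ℝ) := by positivity
  have hL : C₁ * (m : ℝ) ^ (d - 2 * g + 3) + LL m d ≤ K₁ * (m : ℝ) ^ ((d : ℝ) - 2 * g + 3) := by
    have h5 : (m : ℝ) ≤ (m : ℝ) ^ (d - 2 * g + 3) := by
      calc (m : ℝ) = (m : ℝ) ^ 1 := (pow_one _).symm
        _ ≤ _ := pow_le_pow_right₀ hmR1 (by omega)
    have h6 : ((d : ℝ) + 1) * m ≤ (d + 1) * (m : ℝ) ^ (d - 2 * g + 3) :=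
      mul_le_mul_of_nonneg_left h5 (by positivity)
    rw [← hB, hK₁]
    have h7 := hLL.2
    nlinarith
  have hL0 : 0 ≤ C₁ * (m : ℝ) ^ (d - 2 * g + 3) + LL m d :=
    add_nonneg (by positivity) hLL.1
  have T1 : (m : ℝ) ^ ((d : ℝ) - 2 * g + 3) * m ≤ (m : ℝ) ^ (g : ℝ) := by
    calc (m : ℝ) ^ ((d : ℝ) - 2 * g + 3) * m = (m : ℝ) ^ ((d : ℝ) - 2 * g + 3 + 1) := by
          rw [Real.rpow_add hm0 ((d : ℝ) - 2 * g + 3), Real.rpow_one]
      _ ≤ _ := nu1_mono hm1 (by linarith)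
  have T2 : (m : ℝ) ^ ((d : ℝ) - 2 * g + 3) * q ≤ (K + 2) * (m : ℝ) ^ (g : ℝ) := by
    rcases hV with hc | hV
    · have hcR : (y : ℝ) ≤ i + t := by exact_mod_cast hc
      calc (m : ℝ) ^ ((d : ℝ) - 2 * g + 3) * q
          ≤ (m : ℝ) ^ ((d : ℝ) - 2 * g + 3) * (2 * (m : ℝ) ^ ((y : ℝ) - i)) :=
            mul_le_mul_of_nonneg_left (nu1_q1 hm1) (by positivity)
        _ = 2 * (m : ℝ) ^ ((d : ℝ) - 2 * g + 3 + ((y : ℝ) - i)) := by
            rw [Real.rpow_add hm0 ((d : ℝ) - 2 * g + 3)]; ring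
        _ ≤ 2 * (m : ℝ) ^ (g : ℝ) :=
            mul_le_mul_of_nonneg_left (nu1_mono hm1 (by linarith)) (by norm_num)
        _ ≤ _ := mul_le_mul_of_nonneg_right (by linarith) hgp.le
    · have hV2 : V ≤ 403 ^ 3 * (m : ℝ) ^ (2 * ((y : ℝ) - i) + 3 * (i : ℝ) + 3) := by
        have h5 := nu1_vol (i := i) hm1
        have h6 : (m : ℝ) ^ (2 * (y - i)) = (m : ℝ) ^ (2 * ((y : ℝ) - i)) := by
          rw [← Real.rpow_natCast]
          congr 1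
          push_cast [Nat.cast_sub (show i ≤ y by omega)]
          ring
        calc V ≤ (m : ℝ) ^ (2 * (y - i)) *
              (2 * (200 * (m : ℝ) ^ (i + 1) + (m : ℝ) ^ i) + 1) ^ 3 := hV
          _ ≤ (m : ℝ) ^ (2 * (y - i)) * (403 ^ 3 * (m : ℝ) ^ (3 * (i : ℝ) + 3)) :=
              mul_le_mul_of_nonneg_left h5 (by positivity)
          _ = 403 ^ 3 * (m : ℝ) ^ (2 * ((y : ℝ) - i) + 3 * (i : ℝ) + 3) := by
              rw [h6, show 2 * ((y : ℝ) - i) + 3 * (i : ℝ) + 3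
                = 2 * ((y : ℝ) - i) + (3 * (i : ℝ) + 3) by ring,
                Real.rpow_add hm0 (2 * ((y : ℝ) - i)) (3 * (i : ℝ) + 3)]
              ring
      have h7 := nu1_q2 (i := i) hm1 (show 1 ≤ y by omega) hV2
      have h8 : 2 * ((y : ℝ) - i) + 3 * (i : ℝ) + 3 + 3 - 2 * (y : ℝ) - i = 6 := by ring
      rw [h8, ← hK] at h7
      calc (m : ℝ) ^ ((d : ℝ) - 2 * g + 3) * q
          ≤ (m : ℝ) ^ ((d : ℝ) - 2 * g + 3) * (K * (m : ℝ) ^ (6 : ℝ)) :=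
            mul_le_mul_of_nonneg_left h7 (by positivity)
        _ = K * (m : ℝ) ^ ((d : ℝ) - 2 * g + 3 + 6) := by
            rw [Real.rpow_add hm0 ((d : ℝ) - 2 * g + 3)]; ring
        _ ≤ K * (m : ℝ) ^ (g : ℝ) :=
            mul_le_mul_of_nonneg_left (nu1_mono hm1 (by linarith)) hK0.le
        _ ≤ _ := mul_le_mul_of_nonneg_right (by linarith) hgp.le
  constructor
  · rw [hexp, hG]
    calc (C₁ * (m : ℝ) ^ (d - 2 * g + 3) + LL m d) * (400 * m + q)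
        ≤ (K₁ * (m : ℝ) ^ ((d : ℝ) - 2 * g + 3)) * (400 * m + q) :=
          mul_le_mul_of_nonneg_right hL (by positivity)
      _ = 400 * K₁ * ((m : ℝ) ^ ((d : ℝ) - 2 * g + 3) * m) +
          K₁ * ((m : ℝ) ^ ((d : ℝ) - 2 * g + 3) * q) := by ring
      _ ≤ 400 * K₁ * (m : ℝ) ^ (g : ℝ) + K₁ * ((K + 2) * (m : ℝ) ^ (g : ℝ)) :=
          add_le_add (mul_le_mul_of_nonneg_left T1 (by positivity))
            (mul_le_mul_of_nonneg_left T2 hK₁0.le)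
      _ = (400 * K₁ + K₁ * (K + 2)) * (m : ℝ) ^ (g : ℝ) := by ring
      _ ≤ _ := mul_le_mul_of_nonneg_right (by linarith) hgp.le
  · have c1 : (m : ℝ) ^ (i + 1) ≤ (m : ℝ) ^ y := pow_le_pow_right₀ hmR1 hiy
    have c2 : cc m y V ≤ 2 * (m : ℝ) ^ y := min_le_left _ _
    have c3 : (m : ℝ) ^ (d - 2 * g + 2) * (m : ℝ) ^ y ≤ (m : ℝ) ^ (d - 2) := by
      rw [← pow_add]
      exact pow_le_pow_right₀ hmR1 (by omega)
    have c4 : 0 < (m : ℝ) ^ (d - 2) := by positivity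
    calc 4 * (m : ℝ) ^ (d - 2 * g + 2) * (400 * (m : ℝ) ^ (i + 1) + cc m y V)
        ≤ 4 * (m : ℝ) ^ (d - 2 * g + 2) * (402 * (m : ℝ) ^ y) :=
          mul_le_mul_of_nonneg_left (by linarith) (by positivity)
      _ = 1608 * ((m : ℝ) ^ (d - 2 * g + 2) * (m : ℝ) ^ y) := by ring
      _ ≤ 1608 * (m : ℝ) ^ (d - 2) := mul_le_mul_of_nonneg_left c3 (by norm_num)
      _ ≤ _ := by
          refine mul_le_mul_of_nonneg_right ?_ c4.le
          have : 0 ≤ 400 * K₁ + K₁ * (K + 2) := by positivity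
          linarith
-- END nu1

-- BEGIN nu2
theorem nu2_exp {s : ℝ} {t d g : ℕ} (hp : Par s t d g) {y i : ℕ} (hy : g + 1 ≤ y)
    (hit : i + t < y) {α : ℝ} (h1 : 2 * ((y : ℝ) - i) ≤ α) (h2 : α ≤ d - i) :
    s * (d - α) + 1 ≤ g ∧ (3 * ((y : ℝ) - i) ≤ α → s * (d - α) + y - i ≤ g) ∧
      (α ≤ 3 * ((y : ℝ) - i) → s * (d - α) + (α + 3 * i + 6 - 2 * y) - i ≤ g) ∧
      ((1 + (y : ℝ) - i ≤ g) ∨ (1 + (α + 3 * i + 6 - 2 * y) - i ≤ g)) ∧
      (d - α + 1 ≤ (d : ℝ) - 2) ∧ ((d - α) + (α + 3 * i + 6 - 2 * y) - i ≤ (d : ℝ) - 2) := by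
  have a1 := hp.s1
  have a2 := hp.s2
  have a3 := hp.ht
  have a4 : (d : ℝ) + t + 40 ≤ 3 * g := by exact_mod_cast hp.h1
  have a5 := hp.h3
  have a6 : ((i : ℝ) + t + 1) ≤ y := by exact_mod_cast hit
  have a7 : ((g : ℝ) + 1) ≤ y := by exact_mod_cast hy
  have a8 : (40 : ℝ) ≤ t := by exact_mod_cast hp.arith.1
  have hu : 20 ≤ (3 * s - 1) * ((y : ℝ) - i) := by nlinarith
  have hu2 : 27 ≤ 2 * s * ((y : ℝ) - i) := by nlinarith
  have hsα : s * (2 * ((y : ℝ) - i)) ≤ s * α := mul_le_mul_of_nonneg_left h1 (by linarith)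
  refine ⟨by nlinarith, ?_, ?_, ?_, by linarith, by linarith⟩
  · intro h3
    have h4 : s * (3 * ((y : ℝ) - i)) ≤ s * α := mul_le_mul_of_nonneg_left h3 (by linarith)
    nlinarith
  · intro h3
    have h4 : (1 - s) * α ≤ (1 - s) * (3 * ((y : ℝ) - i)) :=
      mul_le_mul_of_nonneg_left h3 (by linarith)
    nlinarith
  · by_contra hcon
    push Not at hcon
    obtain ⟨c1, c2⟩ := hcon
    linarith

/-- **The heart.** Recursion blocks, `u = y - i > t`, `ν ≥ m ^ (2 u)`, `ν m ^ i ≤ m ^ d`,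
`sl ≤ 3 m ^ d / ν`. Put `m ^ a ≤ ν < m ^ (a + 1)` (`a = Nat.log m ν`).
If `3 u ≤ a`: `cc ≤ 2 m ^ y`, the `F` part is `≤ C m ^ (u + s (d - a)) ≤ C m ^ (s d + u - 3 s u)`.
If `a < 3 u`: `cc ≤ C ν m ^ (3 i + 6 - 2 y)`, the `F` part is
`≤ C m ^ (2 i + 6 - 2 y + a + 1 + s (d - a)) ≤ C m ^ (s d + 7 - (3 s - 1) u)`.
Both are `≤ C m ^ g` as `(3 s - 1) u ≥ 20` and `g ≥ s d - 4`.
Logarithmic part: `min (u, d + i + 6 - 2 y - …)`, see the page; cone ends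
`400 m ^ (i + 1)`: `m (3 m ^ d / ν) ^ s ≤ m ^ (1 + s (d - 2 u))`. -/
theorem num_rec {s : ℝ} {t d g : ℕ} (hp : Par s t d g) {Bs : ℝ} (hBs : 0 ≤ Bs) :
    ∃ C : ℝ, 0 < C ∧ ∀ᶠ m : ℕ in atTop, ∀ (y i ν : ℕ) (V F : ℝ), g + 1 ≤ y → y ≤ X0 d g →
      1 ≤ i → i + t < y → m ^ (2 * (y - i)) ≤ ν → ν * m ^ i ≤ m ^ d → 0 ≤ V →
      V ≤ ((ν : ℝ) + 1) * (2 * (200 * (m : ℝ) ^ (i + 1) + (m : ℝ) ^ i) + 1) ^ 3 →
      0 ≤ F → F ≤ Bs * ((sl (m ^ d) ν : ℕ) : ℝ) ^ s →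
      (8 * F + 40 * Real.log (3 * ((m ^ d : ℕ) : ℝ) + 3) + LL m d) / (m : ℝ) ^ i *
        (400 * (m : ℝ) ^ (i + 1) + cc m y V) ≤ C * (m : ℝ) ^ g ∧
      ((2 * sl (m ^ d) ν : ℕ) : ℝ) / (m : ℝ) ^ i * (400 * (m : ℝ) ^ (i + 1) + cc m y V)
        ≤ C * (m : ℝ) ^ (d - 2) := by
  obtain ⟨c0, hc0⟩ : ∃ c0 : ℝ, c0 = 2 * 403 ^ 3 := ⟨_, rfl⟩
  have hc01 : 1 ≤ c0 := by rw [hc0]; norm_num
  refine ⟨24 * Bs * 400 + 24 * Bs * (2 * c0) + 41 * ((d : ℝ) + 3) * 400 +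
    41 * ((d : ℝ) + 3) * (2 * c0) + 6 * 400 + 6 * (2 * c0), by positivity, ?_⟩
  filter_upwards [eventually_ge_atTop 2] with m hm y i ν V F hy1 _ hi hit hν1 hν2 hV0 hV hF0 hF
  obtain ⟨M, hMm⟩ : ∃ M : ℝ, M = (m : ℝ) := ⟨_, rfl⟩
  have hM2 : (2 : ℝ) ≤ M := by rw [hMm]; exact_mod_cast hm
  have hM1 : (1 : ℝ) < M := by linarith
  have hM0 : (0 : ℝ) < M := by linarith
  have hν0 : 0 < ν := lt_of_lt_of_le (by positivity) hν1
  have hν1' : (1 : ℝ) ≤ ν := by exact_mod_cast hν0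
  obtain ⟨α, hα⟩ : ∃ α : ℝ, M ^ α = (ν : ℝ) :=
    ⟨Real.logb M ν, Real.rpow_logb hM0 hM1.ne' (by linarith)⟩
  have hP : ∀ n : ℕ, M ^ n = M ^ (n : ℝ) := fun n => (Real.rpow_natCast M n).symm
  have hmono : ∀ a b : ℝ, a ≤ b → M ^ a ≤ M ^ b := fun a b h =>
    Real.rpow_le_rpow_of_exponent_le hM1.le h
  have hyi : ((y - i : ℕ) : ℝ) = (y : ℝ) - i := Nat.cast_sub (by omega)
  have hα1 : 2 * ((y : ℝ) - i) ≤ α := by
    have h1 : M ^ (2 * (y - i)) ≤ (ν : ℝ) := by rw [hMm]; exact_mod_cast hν1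
    rw [hP, ← hα, Real.rpow_le_rpow_left_iff hM1] at h1
    push_cast [hyi] at h1
    exact h1
  have hα2 : α ≤ d - i := by
    have h1 : (ν : ℝ) * M ^ i ≤ M ^ d := by rw [hMm]; exact_mod_cast hν2
    rw [hP, hP, ← hα, ← Real.rpow_add hM0, Real.rpow_le_rpow_left_iff hM1] at h1
    linarith
  obtain ⟨e1, e2, e3, e4, e5, e6⟩ := nu2_exp hp hy1 hit hα1 hα2
  -- the bound for `V`
  have hV' : V ≤ c0 * M ^ (α + (3 * i + 3)) := by
    have b1 : (1 : ℝ) ≤ M ^ i := one_le_pow₀ hM1.le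
    have b2 : M ^ i ≤ M ^ (i + 1) := pow_le_pow_right₀ hM1.le (by omega)
    have b3 : 2 * (200 * M ^ (i + 1) + M ^ i) + 1 ≤ 403 * M ^ (i + 1) := by linarith
    have b4 : (2 * (200 * M ^ (i + 1) + M ^ i) + 1) ^ 3 ≤ (403 * M ^ (i + 1)) ^ 3 :=
      pow_le_pow_left₀ (by positivity) b3 3
    have b5 : M ^ (α + (3 * (i : ℝ) + 3)) = ν * (M ^ (i + 1)) ^ 3 := by
      rw [Real.rpow_add hM0, hα, ← pow_mul, hP]
      push_cast
      ring_nf
    rw [b5, hc0]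
    rw [← hMm] at hV
    calc V ≤ ((ν : ℝ) + 1) * (2 * (200 * M ^ (i + 1) + M ^ i) + 1) ^ 3 := hV
      _ ≤ (2 * ν) * (403 * M ^ (i + 1)) ^ 3 :=
          mul_le_mul (by linarith) b4 (by positivity) (by positivity)
      _ = 2 * 403 ^ 3 * (ν * (M ^ (i + 1)) ^ 3) := by ring
  have hcc0 : 0 ≤ cc m y V := by
    unfold cc
    exact le_min (by positivity) (by positivity)
  have hcc1 : cc m y V ≤ 2 * c0 * M ^ (y : ℝ) := by
    refine (min_le_left _ _).trans ?_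
    rw [← hMm, hP]
    have : 0 < M ^ (y : ℝ) := Real.rpow_pos_of_pos hM0 _
    nlinarith
  have hcc2 : cc m y V ≤ 2 * c0 * M ^ (α + 3 * i + 6 - 2 * y) := by
    refine (min_le_right _ _).trans ?_
    rw [← hMm]
    have c1 : 2 * M ^ y * V / M ^ (3 * (y - 1)) ≤
        2 * M ^ y * (c0 * M ^ (α + (3 * i + 3))) / M ^ (3 * (y - 1)) :=
      div_le_div_of_nonneg_right (mul_le_mul_of_nonneg_left hV' (by positivity)) (by positivity)
    refine c1.trans (le_of_eq ?_)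
    have hy' : ((3 * (y - 1) : ℕ) : ℝ) = 3 * ((y : ℝ) - 1) := by
      rw [Nat.cast_mul, Nat.cast_sub (by omega)]
      push_cast
      ring
    rw [hP, hP, hy']
    have c2 : M ^ (α + 3 * i + 6 - 2 * y) =
        M ^ (y : ℝ) * M ^ (α + (3 * i + 3)) / M ^ (3 * ((y : ℝ) - 1)) := by
      rw [← Real.rpow_add hM0, ← Real.rpow_sub hM0]
      congr 1
      ring
    rw [c2]
    ring
  -- the bound for the length of short pieces
  have hsl : ((sl (m ^ d) ν : ℕ) : ℝ) ≤ 3 * M ^ ((d : ℝ) - α) := by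
    have d1 : ((2 * m ^ d / ν : ℕ) : ℝ) ≤ (2 * m ^ d : ℕ) / (ν : ℝ) := Nat.cast_div_le
    have d2 : M ^ ((d : ℝ) - α) = M ^ d / ν := by rw [Real.rpow_sub hM0, hα, ← hP]
    have d3 : (ν : ℝ) ≤ M ^ d := by
      have : ν ≤ m ^ d := le_trans (Nat.le_mul_of_pos_right ν (by positivity)) hν2
      rw [hMm]
      exact_mod_cast this
    have d4 : 1 ≤ M ^ d / ν := by
      rw [le_div_iff₀ (by linarith)]
      linarith
    unfold sl
    rw [d2]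
    push_cast
    push_cast at d1
    rw [← hMm] at d1
    calc ((2 * m ^ d / ν : ℕ) : ℝ) + 1 ≤ 2 * M ^ d / ν + M ^ d / ν := by linarith
      _ = 3 * (M ^ d / ν) := by ring
  have hF' : 8 * F ≤ 24 * Bs * M ^ (s * (d - α)) := by
    have f1 : ((sl (m ^ d) ν : ℕ) : ℝ) ^ s ≤ (3 * M ^ ((d : ℝ) - α)) ^ s :=
      Real.rpow_le_rpow (Nat.cast_nonneg _) hsl (by linarith [hp.s1])
    have f2 : (3 * M ^ ((d : ℝ) - α)) ^ s = 3 ^ s * M ^ (s * (d - α)) := by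
      rw [Real.mul_rpow (by norm_num) (Real.rpow_nonneg hM0.le _), ← Real.rpow_mul hM0.le]
      congr 2
      ring
    have f3 : (3 : ℝ) ^ s ≤ 3 := by
      calc (3 : ℝ) ^ s ≤ 3 ^ (1 : ℝ) :=
            Real.rpow_le_rpow_of_exponent_le (by norm_num) (by linarith [hp.s2])
        _ = 3 := Real.rpow_one 3
    have f4 : 0 ≤ M ^ (s * (d - α)) := Real.rpow_nonneg hM0.le _
    have f5 : ((sl (m ^ d) ν : ℕ) : ℝ) ^ s ≤ 3 * M ^ (s * (d - α)) := by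
      rw [f2] at f1
      exact f1.trans (mul_le_mul_of_nonneg_right f3 f4)
    nlinarith [mul_le_mul_of_nonneg_left f5 hBs]
  -- the logarithm
  obtain ⟨Lg, hLg⟩ : ∃ Lg : ℝ, Lg = 40 * Real.log (3 * ((m ^ d : ℕ) : ℝ) + 3) + LL m d :=
    ⟨_, rfl⟩
  have hL0 : 0 ≤ Lg := by
    rw [hLg]
    unfold LL
    have g1 : (0 : ℝ) ≤ ((m ^ d : ℕ) : ℝ) := Nat.cast_nonneg _
    have g2 : 0 ≤ Real.log (3 * ((m ^ d : ℕ) : ℝ) + 3) := Real.log_nonneg (by linarith)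
    have g3 : 0 ≤ Real.log (((m ^ d : ℕ) : ℝ) + 1) := Real.log_nonneg (by linarith)
    linarith
  have hL : Lg ≤ 41 * ((d : ℝ) + 3) * M := by
    rw [hLg]
    unfold LL
    have g1 := log_succ_le (m := m) (d := d) hm
    rw [← hMm] at g1
    have g2 : Real.log (3 * ((m ^ d : ℕ) : ℝ) + 3) =
        Real.log 3 + Real.log (((m ^ d : ℕ) : ℝ) + 1) := by
      rw [← Real.log_mul (by norm_num) (by positivity)]
      congr 1
      ring
    have g3 : Real.log 3 ≤ 3 - 1 := Real.log_le_sub_one_of_pos (by norm_num)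
    rw [g2]
    have hd : (0 : ℝ) ≤ d := Nat.cast_nonneg d
    nlinarith
  have hgM : (0 : ℝ) < M ^ (g : ℝ) := Real.rpow_pos_of_pos hM0 _
  have hdM : (0 : ℝ) < M ^ ((d : ℝ) - 2) := Real.rpow_pos_of_pos hM0 _
  have hi0 : (0 : ℝ) < M ^ (i : ℝ) := Real.rpow_pos_of_pos hM0 _
  have hd0 : (0 : ℝ) ≤ d := Nat.cast_nonneg d
  have hg2 : (2 : ℝ) ≤ g := by
    have := hp.h1
    exact_mod_cast (by omega : 2 ≤ g)
  have hd2 : ((d - 2 : ℕ) : ℝ) = (d : ℝ) - 2 := by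
    have := hp.h2
    rw [Nat.cast_sub (by omega)]
    norm_num
  have hsplit : ∀ A : ℝ, A / M ^ i * (400 * M ^ (i + 1) + cc m y V) =
      A * (400 * M) + A * cc m y V / M ^ (i : ℝ) := by
    intro A
    rw [← hP, pow_succ]
    have : M ^ i ≠ 0 := by positivity
    field_simp
  -- general bound for `X cc / M ^ i`
  have hprod : ∀ A c e f b : ℝ, 0 ≤ c → A ≤ c * M ^ e → cc m y V ≤ 2 * c0 * M ^ f →
      e + f - i ≤ b → A * cc m y V / M ^ (i : ℝ) ≤ c * (2 * c0) * M ^ b := by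
    intro A c e f b hc hA hcc hb
    have p1 : A * cc m y V ≤ (c * M ^ e) * (2 * c0 * M ^ f) :=
      mul_le_mul hA hcc hcc0 (mul_nonneg hc (Real.rpow_nonneg hM0.le _))
    calc A * cc m y V / M ^ (i : ℝ) ≤ (c * M ^ e) * (2 * c0 * M ^ f) / M ^ (i : ℝ) :=
          div_le_div_of_nonneg_right p1 hi0.le
      _ = c * (2 * c0) * M ^ (e + f - i) := by
          rw [Real.rpow_sub hM0, Real.rpow_add hM0]
          ring
      _ ≤ c * (2 * c0) * M ^ b :=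
          mul_le_mul_of_nonneg_left (hmono _ _ hb) (by positivity)
  have hone : ∀ A c e b : ℝ, 0 ≤ c → A ≤ c * M ^ e → e + 1 ≤ b →
      A * (400 * M) ≤ c * 400 * M ^ b := by
    intro A c e b hc hA hb
    calc A * (400 * M) ≤ (c * M ^ e) * (400 * M) :=
          mul_le_mul_of_nonneg_right hA (by positivity)
      _ = c * 400 * M ^ (e + 1) := by rw [Real.rpow_add hM0, Real.rpow_one]; ring
      _ ≤ c * 400 * M ^ b := mul_le_mul_of_nonneg_left (hmono _ _ hb) (by positivity)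
  have hL' : Lg ≤ 41 * ((d : ℝ) + 3) * M ^ (1 : ℝ) := by rw [Real.rpow_one]; exact hL
  constructor
  · have t1 : 8 * F * (400 * M) ≤ 24 * Bs * 400 * M ^ (g : ℝ) :=
      hone _ _ _ _ (by positivity) hF' e1
    have t2 : Lg * (400 * M) ≤ 41 * ((d : ℝ) + 3) * 400 * M ^ (g : ℝ) :=
      hone _ _ _ _ (by positivity) hL' (by linarith)
    have t3 : 8 * F * cc m y V / M ^ (i : ℝ) ≤ 24 * Bs * (2 * c0) * M ^ (g : ℝ) := by
      rcases le_total (3 * ((y : ℝ) - i)) α with h | h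
      · exact hprod _ _ _ _ _ (by positivity) hF' hcc1 (by linarith [e2 h])
      · exact hprod _ _ _ _ _ (by positivity) hF' hcc2 (by linarith [e3 h])
    have t4 : Lg * cc m y V / M ^ (i : ℝ) ≤ 41 * ((d : ℝ) + 3) * (2 * c0) * M ^ (g : ℝ) := by
      rcases e4 with h | h
      · exact hprod _ _ _ _ _ (by positivity) hL' hcc1 (by linarith)
      · exact hprod _ _ _ _ _ (by positivity) hL' hcc2 (by linarith)
    have t5 : 8 * F + 40 * Real.log (3 * ((m ^ d : ℕ) : ℝ) + 3) + LL m d = 8 * F + Lg := by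
      rw [hLg]; ring
    rw [t5, ← hMm, hsplit, hP g]
    have t6 : (8 * F + Lg) * (400 * M) + (8 * F + Lg) * cc m y V / M ^ (i : ℝ) =
        8 * F * (400 * M) + Lg * (400 * M) + 8 * F * cc m y V / M ^ (i : ℝ) +
          Lg * cc m y V / M ^ (i : ℝ) := by ring
    have t7 : (24 * Bs * 400 + 24 * Bs * (2 * c0) + 41 * ((d : ℝ) + 3) * 400 +
        41 * ((d : ℝ) + 3) * (2 * c0) + 6 * 400 + 6 * (2 * c0)) * M ^ (g : ℝ) =
        24 * Bs * 400 * M ^ (g : ℝ) + 24 * Bs * (2 * c0) * M ^ (g : ℝ) +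
        41 * ((d : ℝ) + 3) * 400 * M ^ (g : ℝ) + 41 * ((d : ℝ) + 3) * (2 * c0) * M ^ (g : ℝ) +
        (6 * 400 + 6 * (2 * c0)) * M ^ (g : ℝ) := by ring
    have t8 : 0 ≤ (6 * 400 + 6 * (2 * c0)) * M ^ (g : ℝ) := by positivity
    rw [t6, t7]
    linarith
  · have u0 : ((2 * sl (m ^ d) ν : ℕ) : ℝ) ≤ 6 * M ^ ((d : ℝ) - α) := by
      push_cast
      linarith
    have u1 : ((2 * sl (m ^ d) ν : ℕ) : ℝ) * (400 * M) ≤ 6 * 400 * M ^ ((d : ℝ) - 2) :=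
      hone _ _ _ _ (by positivity) u0 e5
    have u2 : ((2 * sl (m ^ d) ν : ℕ) : ℝ) * cc m y V / M ^ (i : ℝ) ≤
        6 * (2 * c0) * M ^ ((d : ℝ) - 2) :=
      hprod _ _ _ _ _ (by positivity) u0 hcc2 e6
    rw [← hMm, hsplit, hP (d - 2), hd2]
    have u3 : 0 ≤ (24 * Bs * 400 + 24 * Bs * (2 * c0) + 41 * ((d : ℝ) + 3) * 400 +
        41 * ((d : ℝ) + 3) * (2 * c0)) * M ^ ((d : ℝ) - 2) := by positivity
    have u4 : (24 * Bs * 400 + 24 * Bs * (2 * c0) + 41 * ((d : ℝ) + 3) * 400 +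
        41 * ((d : ℝ) + 3) * (2 * c0) + 6 * 400 + 6 * (2 * c0)) * M ^ ((d : ℝ) - 2) =
        (24 * Bs * 400 + 24 * Bs * (2 * c0) + 41 * ((d : ℝ) + 3) * 400 +
        41 * ((d : ℝ) + 3) * (2 * c0)) * M ^ ((d : ℝ) - 2) + 6 * 400 * M ^ ((d : ℝ) - 2) +
        6 * (2 * c0) * M ^ ((d : ℝ) - 2) := by ring
    rw [u4]
    linarith
-- END nu2

-- BEGIN nu3
theorem nu3_cc {d g m y : ℕ} (hm : 1 ≤ m) (h1 : d + 40 ≤ 3 * g) (hy : g + 1 ≤ y) {V : ℝ}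
    (hV : V ≤ (((m ^ d : ℕ) : ℝ) + 1) * (2 * (200 * (m : ℝ) + 1) + 1) ^ 3) :
    cc m y V ≤ 4 * 403 ^ 3 * (m : ℝ) ^ (g - 1) := by
  have hm1 : (1 : ℝ) ≤ m := by exact_mod_cast hm
  have hm0 : (0 : ℝ) < m := by linarith
  have h2 : V ≤ 2 * (m : ℝ) ^ d * (403 * (m : ℝ)) ^ 3 := by
    refine hV.trans ?_
    have h3 : (((m ^ d : ℕ) : ℝ) + 1) ≤ 2 * (m : ℝ) ^ d := by
      push_cast
      have := one_le_pow₀ (n := d) hm1
      linarith
    have h4 : (2 * (200 * (m : ℝ) + 1) + 1) ^ 3 ≤ (403 * (m : ℝ)) ^ 3 :=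
      pow_le_pow_left₀ (by positivity) (by linarith) 3
    exact mul_le_mul h3 h4 (by positivity) (by positivity)
  unfold cc
  refine (min_le_right _ _).trans ?_
  rw [div_le_iff₀ (by positivity)]
  calc 2 * (m : ℝ) ^ y * V ≤ 2 * (m : ℝ) ^ y * (2 * (m : ℝ) ^ d * (403 * (m : ℝ)) ^ 3) :=
        mul_le_mul_of_nonneg_left h2 (by positivity)
    _ = 4 * 403 ^ 3 * (m : ℝ) ^ (y + d + 3) := by rw [pow_add, pow_add]; ring
    _ ≤ 4 * 403 ^ 3 * (m : ℝ) ^ (g - 1 + 3 * (y - 1)) :=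
        mul_le_mul_of_nonneg_left (pow_le_pow_right₀ hm1 (by omega)) (by norm_num)
    _ = _ := by rw [pow_add]; ring

/-- Unit steps: `cc ≤ C m ^ (d + 6 - 2 y)` and `3 g ≥ d + 5`. -/
theorem num_unit {s : ℝ} {t d g : ℕ} (hp : Par s t d g) {lμ : ℝ} (hlμ : 0 ≤ lμ) :
    ∃ C : ℝ, 0 < C ∧ ∀ᶠ m : ℕ in atTop, ∀ (y : ℕ) (V : ℝ), g + 1 ≤ y → y ≤ X0 d g → 0 ≤ V →
      V ≤ (((m ^ d : ℕ) : ℝ) + 1) * (2 * (200 * (m : ℝ) + 1) + 1) ^ 3 →
      (lμ + LL m d) * (400 * (m : ℝ) + cc m y V) ≤ C * (m : ℝ) ^ g ∧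
      400 * (m : ℝ) + cc m y V ≤ C * (m : ℝ) ^ (d - 2) := by
  have e1 := hp.h1
  have e2 := hp.h2
  have hc0 : (0 : ℝ) < 4 * 403 ^ 3 := by norm_num
  generalize hc : (4 * 403 ^ 3 : ℝ) = c0 at hc0
  have hd : (0 : ℝ) ≤ d := Nat.cast_nonneg d
  refine ⟨(lμ + d + 1) * (400 + c0) + (400 + c0), by positivity, ?_⟩
  filter_upwards [eventually_ge_atTop 2] with m hm y V hy hyX hV0 hV
  have hm2 : (2 : ℝ) ≤ m := by exact_mod_cast hm
  have hm1 : (1 : ℝ) ≤ m := by linarith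
  have hm0 : (0 : ℝ) < m := by linarith
  have h1 := nu3_cc (d := d) (g := g) (m := m) (y := y) (by omega) (by omega) hy hV
  rw [hc] at h1
  have h2 : (m : ℝ) ≤ (m : ℝ) ^ (g - 1) := le_self_pow₀ hm1 (by omega)
  have h3 : (m : ℝ) ^ (g - 1) ≤ (m : ℝ) ^ (d - 2) := pow_le_pow_right₀ hm1 (by omega)
  have h4 : 400 * (m : ℝ) + cc m y V ≤ (400 + c0) * (m : ℝ) ^ (g - 1) := by
    rw [add_mul]
    linarith
  have h5 : 0 ≤ cc m y V := by
    unfold cc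
    exact le_min (by positivity) (by positivity)
  have hL0 : 0 ≤ LL m d := by
    unfold LL
    exact Real.log_nonneg (by linarith [Nat.cast_nonneg (α := ℝ) (m ^ d)])
  have hL : LL m d ≤ (d + 1) * m := log_succ_le hm
  have h6 : lμ + LL m d ≤ (lμ + d + 1) * m := by
    have : lμ ≤ lμ * m := le_mul_of_one_le_right hlμ hm1
    linarith [this]
  constructor
  · calc (lμ + LL m d) * (400 * (m : ℝ) + cc m y V)
        ≤ ((lμ + d + 1) * m) * ((400 + c0) * (m : ℝ) ^ (g - 1)) :=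
        mul_le_mul h6 h4 (by positivity) (by positivity)
      _ = (lμ + d + 1) * (400 + c0) * ((m : ℝ) ^ (g - 1) * m) := by ring
      _ = (lμ + d + 1) * (400 + c0) * (m : ℝ) ^ g := by
        rw [← pow_succ, show g - 1 + 1 = g by omega]
      _ ≤ _ := by
        refine mul_le_mul_of_nonneg_right ?_ (by positivity)
        linarith
  · calc 400 * (m : ℝ) + cc m y V ≤ (400 + c0) * (m : ℝ) ^ (g - 1) := h4
      _ ≤ (400 + c0) * (m : ℝ) ^ (d - 2) := mul_le_mul_of_nonneg_left h3 (by positivity)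
      _ ≤ _ := by
        refine mul_le_mul_of_nonneg_right ?_ (by positivity)
        have : 0 ≤ (lμ + d + 1) * (400 + c0) := by positivity
        linarith
-- END nu3

-- BEGIN nu4
private theorem nu4_card_nb {m d : ℕ} {A : Word} (hA : A.length ≤ m ^ d) :
    (((nb (bk A) (200 * m ^ (0 + 1))).card : ℕ) : ℝ) ≤
      (((m ^ d : ℕ) : ℝ) + 1) * (2 * (200 * (m : ℝ) + 1) + 1) ^ 3 := by
  have h1 := card_nb_le (X := bk A) (Y := bk A) (r := 1)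
    (fun p hp => ⟨p, hp, fun k => by rw [sub_self, abs_zero]; norm_num⟩) (200 * m ^ (0 + 1))
  have h2 : (bk A).card ≤ m ^ d + 1 := (card_bk_le A).trans (by omega)
  have h3 := h1.trans (Nat.mul_le_mul_right _ h2)
  have h4 : (((nb (bk A) (200 * m ^ (0 + 1))).card : ℕ) : ℝ) ≤
      (((m ^ d + 1) * (2 * (200 * m ^ (0 + 1) + 1) + 1) ^ 3 : ℕ) : ℝ) := by exact_mod_cast h3
  refine h4.trans (le_of_eq ?_)
  push_cast
  ring

/-- **Choice of the blocks.** For `i = 0` the unit step (`num_unit`; `card_nb_le` with `Y = bk A`,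
`r = 1`, `card_bk_le`). For `1 ≤ i ≤ y - 1` let `ν` be given by `cover` for `r = m ^ i`. If
`y ≤ i + t` or `ν + 1 ≤ m ^ (2 (y - i))` the block of `blk_zero` (`num_zero`), otherwise the block
of `blk_rec` (`num_rec`, the hypothesis `Dc` comes from `cover` and `Gd`); `a i`, `b i` are the
costs in `num_zero`, `num_rec`; then `segment`. -/
theorem seg_data {μ : ℝ} (hμ : 1 ≤ μ) (hb : ∀ n, ((brs n).card : ℝ) ≤ μ ^ n) {s : ℝ}
    {t d g : ℕ} (hp : Par s t d g) {Bs : ℝ} (hBs : 0 ≤ Bs)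
    (H : ∀ k : ℕ, 1 ≤ k → FF μ k ≤ Bs * (k : ℝ) ^ s) :
    ∃ C : ℝ, 0 < C ∧ ∀ᶠ m : ℕ in atTop, Bad μ d g m → ∀ A : Word, A.length ≤ m ^ d →
      Gd μ (m ^ d) ((range (d + 1)).image fun i => m ^ i) A → ∀ y, g + 1 ≤ y → y ≤ X0 d g →
      ∃ a b : ℕ → ℝ, (∀ i, 0 ≤ a i) ∧ (∀ i, 0 ≤ b i) ∧ SegLaw μ⁻¹ (m ^ d) m (y - 1) a b ∧
        (∀ i < y, a i * (400 * (m : ℝ) ^ (i + 1) +
          cc m y ((nb (bk A) (200 * m ^ (i + 1))).card)) ≤ C * (m : ℝ) ^ g) ∧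
        (∀ i < y, b i * (400 * (m : ℝ) ^ (i + 1) +
          cc m y ((nb (bk A) (200 * m ^ (i + 1))).card)) ≤ C * (m : ℝ) ^ (d - 2)) := by
  obtain ⟨ht40, har1, har2, har3, har4⟩ := hp.arith
  have hg1 : 1 ≤ g := by have := hp.h1; omega
  have hgd : 2 * g ≤ d := by have := hp.h2; omega
  obtain ⟨C₁, hC₁, hzero⟩ := blk_zero hμ hb hg1 hgd
  obtain ⟨Cz, hCz, hnz⟩ := num_zero hp hC₁.le
  obtain ⟨Cr, hCr, hnr⟩ := num_rec hp hBs
  obtain ⟨Cu, hCu, hnu⟩ := num_unit hp (Real.log_nonneg hμ)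
  refine ⟨Cz + Cr + Cu, by positivity, ?_⟩
  filter_upwards [hzero, hnz, hnr, hnu, eventually_ge_atTop 2] with m hzero hnz hnr hnu hm2
  intro hbad A hA hG y hy1 hy2
  have hm0 : (0 : ℝ) < m := by exact_mod_cast (by omega : 0 < m)
  have hLL : 0 ≤ LL m d := Real.log_nonneg (by
    have : (0 : ℝ) ≤ ((m ^ d : ℕ) : ℝ) := Nat.cast_nonneg _
    linarith)
  have hmono : ∀ {c x : ℝ} (e : ℕ), (c = Cz ∨ c = Cr ∨ c = Cu) → x ≤ c * (m : ℝ) ^ e →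
      x ≤ (Cz + Cr + Cu) * (m : ℝ) ^ e := by
    intro c x e hc hx
    refine hx.trans (mul_le_mul_of_nonneg_right ?_ (by positivity))
    rcases hc with rfl | rfl | rfl <;> linarith
  have key : ∀ i : ℕ, ∃ (h l : ℕ) (J : ℝ) (B : Law) (a b : ℝ), 0 ≤ a ∧ 0 ≤ b ∧
      (1 ≤ i → i ≤ y - 1 → Blk μ⁻¹ (m ^ d) (m ^ i) h l J B ∧
        J + Real.log (((m ^ d : ℕ) : ℝ) + 1) ≤ (m : ℝ) ^ i * a ∧ (l : ℝ) ≤ (m : ℝ) ^ i * b) ∧
      (i = 0 → Real.log μ⁻¹⁻¹ + Real.log (((m ^ d : ℕ) : ℝ) + 1) ≤ a ∧ 1 ≤ b) ∧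
      (i < y → a * (400 * (m : ℝ) ^ (i + 1) +
          cc m y ((nb (bk A) (200 * m ^ (i + 1))).card)) ≤ (Cz + Cr + Cu) * (m : ℝ) ^ g ∧
        b * (400 * (m : ℝ) ^ (i + 1) +
          cc m y ((nb (bk A) (200 * m ^ (i + 1))).card)) ≤ (Cz + Cr + Cu) * (m : ℝ) ^ (d - 2)) := by
    intro i
    rcases Nat.eq_zero_or_pos i with rfl | hi0
    · -- the unit step
      refine ⟨0, 0, 0, Law.dirac [], Real.log μ + LL m d, 1, ?_, zero_le_one,
        fun h => absurd h (by omega), fun _ => ⟨?_, le_rfl⟩, fun _ => ?_⟩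
      · have := Real.log_nonneg hμ
        linarith
      · rw [inv_inv]
        exact le_rfl
      · have h1 := hnu y ((nb (bk A) (200 * m ^ (0 + 1))).card : ℝ) hy1 hy2 (Nat.cast_nonneg _)
          (nu4_card_nb hA)
        have h2 : (m : ℝ) ^ (0 + 1) = m := by rw [zero_add, pow_one]
        rw [h2, one_mul]
        exact ⟨hmono g (Or.inr (Or.inr rfl)) h1.1, hmono (d - 2) (Or.inr (Or.inr rfl)) h1.2⟩
    · rcases Nat.lt_or_ge i y with hiy | hiy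
      swap
      · exact ⟨0, 0, 0, Law.dirac [], 0, 0, le_rfl, le_rfl, fun _ h => absurd h (by omega),
          fun h => absurd h (by omega), fun h => absurd h (by omega)⟩
      have hmi : 1 ≤ m ^ i := Nat.one_le_pow _ _ (by omega)
      have hmi0 : (0 : ℝ) < (m : ℝ) ^ i := by positivity
      obtain ⟨ν, hν1, hν2, hν3⟩ := cover hmi A
      have hV : (((nb (bk A) (200 * m ^ (i + 1))).card : ℕ) : ℝ) ≤
          ((ν : ℝ) + 1) * (2 * (200 * (m : ℝ) ^ (i + 1) + (m : ℝ) ^ i) + 1) ^ 3 := by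
        exact_mod_cast hν1 (200 * m ^ (i + 1))
      by_cases hcase : y ≤ i + t ∨ ν + 1 ≤ m ^ (2 * (y - i))
      · -- zero blocks
        obtain ⟨h, l, J, B, hB1, hB2, hB3⟩ := hzero hbad i (by omega)
        have h1 := hnz y i ((nb (bk A) (200 * m ^ (i + 1))).card : ℝ) hy1 hy2 hi0 (by omega)
          (Nat.cast_nonneg _) (by
            rcases hcase with h | h
            · exact Or.inl h
            · right
              refine hV.trans (mul_le_mul_of_nonneg_right ?_ (by positivity))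
              exact_mod_cast h)
        refine ⟨h, l, J, B, (C₁ * (m : ℝ) ^ (d - 2 * g + 3) + LL m d) / (m : ℝ) ^ i,
          4 * (m : ℝ) ^ (d - 2 * g + 2), by positivity, by positivity,
          fun _ _ => ⟨hB1, ?_, ?_⟩, fun h => absurd h (by omega), fun _ =>
          ⟨hmono g (Or.inl rfl) h1.1, hmono (d - 2) (Or.inl rfl) h1.2⟩⟩
        · rw [mul_div_cancel₀ _ hmi0.ne']
          unfold LL
          linarith
        · have h2 : (l : ℝ) ≤ ((4 * m ^ (i + (d - 2 * g + 2)) : ℕ) : ℝ) := by exact_mod_cast hB3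
          refine h2.trans (le_of_eq ?_)
          push_cast
          rw [pow_add]
          ring
      · -- recursion blocks
        push Not at hcase
        obtain ⟨hc1, hc2⟩ := hcase
        have hc3 : m ^ (2 * (y - i)) ≤ ν := by omega
        have hν : 1 ≤ ν := (Nat.one_le_pow _ _ (by omega)).trans hc3
        have hN1 : 1 ≤ m ^ d := Nat.one_le_pow _ _ (by omega)
        have hνN : ν * m ^ i ≤ m ^ d := hν2.trans hA
        have hνN' : ν ≤ m ^ d := (Nat.le_mul_of_pos_right ν (by omega)).trans hνN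
        have hDc : Dc μ (m ^ d) (m ^ i) ν := hG (m ^ i)
          (mem_image.2 ⟨i, mem_range.2 (by omega), rfl⟩) ν hν hνN' (hν3 (m ^ d) hA hν)
        obtain ⟨h, B, hB⟩ := blk_rec hμ hmi hν hN1 hDc
        have hsl : 1 ≤ sl (m ^ d) ν := Nat.le_add_left 1 _
        have h1 := hnr y i ν ((nb (bk A) (200 * m ^ (i + 1))).card : ℝ) (FF μ (sl (m ^ d) ν))
          hy1 hy2 hi0 hc1 hc3 hνN (Nat.cast_nonneg _) hV (FF_nonneg _) (H _ hsl)
        have hlog : 0 ≤ Real.log (3 * ((m ^ d : ℕ) : ℝ) + 3) := Real.log_nonneg (by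
          have : (0 : ℝ) ≤ ((m ^ d : ℕ) : ℝ) := Nat.cast_nonneg _
          linarith)
        have hF0 : 0 ≤ FF μ (sl (m ^ d) ν) := FF_nonneg _
        refine ⟨h, 2 * sl (m ^ d) ν, _, B, (8 * FF μ (sl (m ^ d) ν) +
          40 * Real.log (3 * ((m ^ d : ℕ) : ℝ) + 3) + LL m d) / (m : ℝ) ^ i,
          ((2 * sl (m ^ d) ν : ℕ) : ℝ) / (m : ℝ) ^ i, by positivity, by positivity,
          fun _ _ => ⟨hB, ?_, ?_⟩, fun h => absurd h (by omega), fun _ =>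
          ⟨hmono g (Or.inr (Or.inl rfl)) h1.1, hmono (d - 2) (Or.inr (Or.inl rfl)) h1.2⟩⟩
        · rw [mul_div_cancel₀ _ hmi0.ne']
          unfold LL
          exact le_rfl
        · rw [mul_div_cancel₀ _ hmi0.ne']
  choose h l J B a b h1 h2 h3 h4 h5 using key
  refine ⟨a, b, h1, h2, ?_, fun i hi => (h5 i hi).1, fun i hi => (h5 i hi).2⟩
  refine segment (h := h) (l := l) (J := J) (B := B) (inv_pos.2 (by linarith))
    (inv_le_one_of_one_le₀ hμ) hm2 (fun i hi hi' => (h3 i hi hi').1) h1 h2 (h4 0 rfl).1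
    (fun i hi hi' => (h3 i hi hi').2.1) (h4 0 rfl).2 (fun i hi hi' => (h3 i hi hi').2.2)
-- END nu4

-- BEGIN nu5
theorem nu5_cnt {m g K j : ℕ} (hm : 1 ≤ m) (h3 : 3 ≤ j) (hj : j < K) (X : Finset Pt) (ρ : ℕ) :
    ∑ ω ∈ Om K (fun j => m ^ (g + j / 3)), (cnt X ω j ρ : ℝ) ≤
      ((Om K (fun j => m ^ (g + j / 3))).card : ℝ) * cc m (g + j / 3) ((nb X ρ).card) := by
  have hR : ∀ j : ℕ, 1 ≤ (fun j => m ^ (g + j / 3)) j := fun j => Nat.one_le_pow _ _ hm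
  have hm1 : (1 : ℝ) ≤ m := by exact_mod_cast hm
  have hm0 : (0 : ℝ) < m := by linarith
  unfold cc
  rw [mul_min_of_nonneg _ _ (Nat.cast_nonneg _)]
  refine le_min ?_ ?_
  · have h1 : ∀ ω ∈ Om K (fun j => m ^ (g + j / 3)), (cnt X ω j ρ : ℝ) ≤ 2 * (m : ℝ) ^ (g + j / 3) := by
      intro ω hω
      have h2 := (mem_Om hω hj).2
      have h4 : cnt X ω j ρ ≤ 2 * m ^ (g + j / 3) := (cnt_le X ω j ρ).trans h2.le
      exact_mod_cast h4
    have h5 := sum_le_sum h1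
    rw [sum_const, nsmul_eq_mul] at h5
    exact h5
  · have h1 := avg_cnt hR h3 hj X ρ
    have h2 : (m : ℝ) ^ (3 * (g + j / 3 - 1)) ≤ (((fun j => m ^ (g + j / 3)) (j - 1) : ℕ) : ℝ) *
        ((((fun j => m ^ (g + j / 3)) (j - 2) : ℕ) : ℝ) *
          (((fun j => m ^ (g + j / 3)) (j - 3) : ℕ) : ℝ)) := by
      push_cast
      rw [← pow_add, ← pow_add]
      exact pow_le_pow_right₀ hm1 (by omega)
    have h4 : (0 : ℝ) < (m : ℝ) ^ (3 * (g + j / 3 - 1)) := by positivity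
    have h5 : (0 : ℝ) ≤ ∑ ω ∈ Om K (fun j => m ^ (g + j / 3)), (cnt X ω j ρ : ℝ) :=
      sum_nonneg fun _ _ => Nat.cast_nonneg _
    have h6 := (mul_le_mul_of_nonneg_left h2 h5).trans h1
    rw [← mul_div_assoc, le_div_iff₀ h4]
    refine h6.trans (le_of_eq ?_)
    push_cast
    ring

theorem nu5_cc (m y : ℕ) {V : ℝ} (hV : 0 ≤ V) : 0 ≤ cc m y V := by
  unfold cc
  exact le_min (by positivity) (by positivity)

/-- The mean cost of the segment `j ≥ 3`: `sc_le`, `avg_cnt`, `cnt_le`, `mem_Om`;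
`R (j - 1)`, `R (j - 2)`, `R (j - 3)` are at least `m ^ (y - 1)`, `y = g + j / 3`. -/
theorem avg_sc {m g K j : ℕ} (hm : 1 ≤ m) (h3 : 3 ≤ j) (hj : j < K) (X : Finset Pt) {a : ℕ → ℝ}
    (ha : ∀ i, 0 ≤ a i) : ∑ ω ∈ Om K (fun j => m ^ (g + j / 3)),
      sc (obs X ω j) (ω j) m (g + j / 3 - 1) a ≤ ((Om K (fun j => m ^ (g + j / 3))).card : ℝ) *
        ∑ i ∈ range (g + j / 3), a i * (400 * (m : ℝ) ^ (i + 1) +
          cc m (g + j / 3) ((nb X (200 * m ^ (i + 1))).card)) := by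
  have hm1 : (1 : ℝ) ≤ m := by exact_mod_cast hm
  have hm0 : (0 : ℝ) < m := by linarith
  obtain ⟨I, hI⟩ : ∃ I, g + j / 3 = I + 1 := ⟨g + j / 3 - 1, by omega⟩
  have hI' : g + j / 3 - 1 = I := by omega
  have h1 : ∀ ω ∈ Om K (fun j => m ^ (g + j / 3)),
      sc (obs X ω j) (ω j) m (g + j / 3 - 1) a ≤ 2 * (m : ℝ) ^ (I + 1) * a I + ∑ i ∈ range I,
      a i * (400 * (m : ℝ) ^ (i + 1) + cnt X ω j (200 * m ^ (i + 1))) := by
    intro ω hω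
    rw [hI']
    refine sc_le ha |>.trans (add_le_add_left ?_ _)
    have h2 := (mem_Om hω hj).2
    have h4 : ω j ≤ 2 * m ^ (I + 1) := by
      have h5 := h2.le
      simp only [hI] at h5
      exact h5
    have h6 : (ω j : ℝ) ≤ 2 * (m : ℝ) ^ (I + 1) := by exact_mod_cast h4
    exact mul_le_mul_of_nonneg_right h6 (ha I)
  refine (sum_le_sum h1).trans ?_
  rw [sum_add_distrib, sum_const, nsmul_eq_mul, sum_comm, hI, sum_range_succ, mul_add, add_comm]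
  refine add_le_add ?_ ?_
  · rw [mul_sum]
    refine sum_le_sum fun i _ => ?_
    rw [← mul_sum, sum_add_distrib, sum_const, nsmul_eq_mul]
    have h7 := nu5_cnt (g := g) (K := K) hm h3 hj X (200 * m ^ (i + 1))
    rw [hI] at h7
    have h8 : (∑ ω ∈ Om K (fun j => m ^ (g + j / 3)), (cnt X ω j (200 * m ^ (i + 1)) : ℝ)) ≤
        ((Om K (fun j => m ^ (g + j / 3))).card : ℝ) * cc m (I + 1)
          ((nb X (200 * m ^ (i + 1))).card) := h7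
    calc a i * (((Om K (fun j => m ^ (g + j / 3))).card : ℝ) * (400 * (m : ℝ) ^ (i + 1)) +
          ∑ ω ∈ Om K (fun j => m ^ (g + j / 3)), (cnt X ω j (200 * m ^ (i + 1)) : ℝ))
        ≤ a i * (((Om K (fun j => m ^ (g + j / 3))).card : ℝ) * (400 * (m : ℝ) ^ (i + 1)) +
          ((Om K (fun j => m ^ (g + j / 3))).card : ℝ) * cc m (I + 1)
          ((nb X (200 * m ^ (i + 1))).card)) :=
        mul_le_mul_of_nonneg_left (by linarith) (ha i)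
      _ = _ := by ring
  · refine mul_le_mul_of_nonneg_left ?_ (Nat.cast_nonneg _)
    have h9 : 0 ≤ cc m (I + 1) ((nb X (200 * m ^ (I + 1))).card) := nu5_cc _ _ (Nat.cast_nonneg _)
    generalize cc m (I + 1) ((nb X (200 * m ^ (I + 1))).card) = c at h9 ⊢
    have h10 : 0 ≤ a I * ((m : ℝ) ^ (I + 1)) := mul_nonneg (ha I) (by positivity)
    have h11 := mul_nonneg (ha I) h9
    rw [mul_add]
    linarith
-- END nu5

-- BEGIN nu6
theorem nu6_one {α : Type*} (S : Finset α) {f : α → ℝ} {c : ℝ} (p : ∀ x ∈ S, 0 ≤ f x)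
    (h : ∑ x ∈ S, f x ≤ S.card * c) : 4 * (S.filter fun x => 4 * c < f x).card ≤ S.card := by
  rcases S.eq_empty_or_nonempty with h0 | h0
  · simp [h0]
  have hS : (0 : ℝ) < S.card := by exact_mod_cast h0.card_pos
  have hs : 0 ≤ ∑ x ∈ S, f x := sum_nonneg p
  have hc : 0 ≤ c := by
    by_contra hc
    push Not at hc
    nlinarith
  rcases hc.eq_or_lt with h1 | h1
  · have h2 : ∑ x ∈ S, f x = 0 := le_antisymm (by rw [← h1, mul_zero] at h; exact h) hs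
    have h3 := (sum_eq_zero_iff_of_nonneg p).1 h2
    have h4 : (S.filter fun x => 4 * c < f x) = ∅ := by
      refine filter_eq_empty_iff.2 fun x hx => ?_
      rw [h3 x hx, ← h1, mul_zero]
      exact lt_irrefl _
    rw [h4, card_empty, mul_zero]
    exact Nat.zero_le _
  · have h2 : ((S.filter fun x => 4 * c < f x).card : ℝ) * (4 * c) ≤ ∑ x ∈ S, f x := by
      rw [← nsmul_eq_mul, ← sum_const]
      refine (sum_le_sum fun x hx => (mem_filter.1 hx).2.le).trans ?_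
      exact sum_le_sum_of_subset_of_nonneg (filter_subset _ _) fun x hx _ => p x hx
    have h3 : 4 * ((S.filter fun x => 4 * c < f x).card : ℝ) ≤ S.card := by
      by_contra hcon
      push Not at hcon
      nlinarith
    exact_mod_cast h3

theorem markov3 {α : Type*} (S : Finset α) {f₁ f₂ f₃ : α → ℝ} {c₁ c₂ c₃ : ℝ}
    (p₁ : ∀ x ∈ S, 0 ≤ f₁ x) (p₂ : ∀ x ∈ S, 0 ≤ f₂ x) (p₃ : ∀ x ∈ S, 0 ≤ f₃ x)
    (h₁ : ∑ x ∈ S, f₁ x ≤ S.card * c₁) (h₂ : ∑ x ∈ S, f₂ x ≤ S.card * c₂)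
    (h₃ : ∑ x ∈ S, f₃ x ≤ S.card * c₃) :
    ∃ G ⊆ S, S.card ≤ 4 * G.card ∧ ∀ x ∈ G, f₁ x ≤ 4 * c₁ ∧ f₂ x ≤ 4 * c₂ ∧ f₃ x ≤ 4 * c₃ := by
  have b₁ := nu6_one S p₁ h₁
  have b₂ := nu6_one S p₂ h₂
  have b₃ := nu6_one S p₃ h₃
  refine ⟨S.filter fun x => f₁ x ≤ 4 * c₁ ∧ f₂ x ≤ 4 * c₂ ∧ f₃ x ≤ 4 * c₃, filter_subset _ _, ?_,
    fun x hx => (mem_filter.1 hx).2⟩
  have h4 : S ⊆ (S.filter fun x => f₁ x ≤ 4 * c₁ ∧ f₂ x ≤ 4 * c₂ ∧ f₃ x ≤ 4 * c₃) ∪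
      ((S.filter fun x => 4 * c₁ < f₁ x) ∪ ((S.filter fun x => 4 * c₂ < f₂ x) ∪
        (S.filter fun x => 4 * c₃ < f₃ x))) := by
    intro x hx
    simp only [mem_union, mem_filter, hx, true_and]
    by_cases q₁ : f₁ x ≤ 4 * c₁
    · by_cases q₂ : f₂ x ≤ 4 * c₂
      · by_cases q₃ : f₃ x ≤ 4 * c₃
        · exact Or.inl ⟨q₁, q₂, q₃⟩
        · exact Or.inr (Or.inr (Or.inr (not_le.1 q₃)))
      · exact Or.inr (Or.inr (Or.inl (not_le.1 q₂)))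
    · exact Or.inr (Or.inl (not_le.1 q₁))
  have h5 := (card_le_card h4).trans ((card_union_le _ _).trans (Nat.add_le_add_left
    ((card_union_le _ _).trans (Nat.add_le_add_left (card_union_le _ _) _)) _))
  omega
-- END nu6

-- BEGIN nu7
/-- unit steps -/
theorem nu7_unit {x : ℝ} (hx : 0 < x) (hx1 : x ≤ 1) (L : ℕ) {m : ℕ} (hm : 2 ≤ m) :
    SegLaw x L m 0 (fun _ => Real.log x⁻¹ + Real.log ((L : ℝ) + 1)) (fun _ => 1) := by
  have h0 : 0 ≤ Real.log x⁻¹ := Real.log_nonneg ((one_le_inv₀ hx).2 hx1)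
  have h1 : 0 ≤ Real.log ((L : ℝ) + 1) := Real.log_nonneg (by
    have : (0 : ℝ) ≤ L := Nat.cast_nonneg L
    linarith)
  exact segment hx hx1 hm (h := fun _ => 0) (l := fun _ => 0) (J := fun _ => 0)
    (B := fun _ => Law.dirac []) (fun i h1 h2 => absurd h1 (by omega))
    (fun _ => add_nonneg h0 h1) (fun _ => zero_le_one) le_rfl
    (fun i h1 h2 => absurd h1 (by omega)) le_rfl (fun i h1 h2 => absurd h1 (by omega))

theorem nu7_sc (X : Finset Pt) (n m : ℕ) (c : ℝ) : sc X n m 0 (fun _ => c) = n * c := by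
  simp [sc]

theorem nu7_avg_cnt {m d g K j : ℕ} (hm : 1 ≤ m) (hg : d + 1 ≤ 3 * g) (h3 : 3 ≤ j) (hj : j < K)
    (A : Word) (hA : A.length ≤ m ^ d) :
    ∑ ω ∈ Om K (fun j => m ^ (g + j / 3)), (cnt (bk A) ω j 1 : ℝ) ≤
      ((Om K (fun j => m ^ (g + j / 3))).card : ℝ) * (500 * (m : ℝ) ^ g) := by
  have hm1 : (1 : ℝ) ≤ m := by exact_mod_cast hm
  have hm0 : (0 : ℝ) < m := by linarith
  have h := avg_cnt (K := K) (R := fun j => m ^ (g + j / 3)) (fun j => Nat.one_le_pow _ _ hm)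
    h3 hj (bk A) 1
  set S : ℝ := ∑ ω ∈ Om K (fun j => m ^ (g + j / 3)), (cnt (bk A) ω j 1 : ℝ) with hS
  set c : ℝ := ((Om K (fun j => m ^ (g + j / 3))).card : ℝ) with hc
  have hc0 : 0 ≤ c := Nat.cast_nonneg _
  have hS0 : 0 ≤ S := sum_nonneg fun _ _ => Nat.cast_nonneg _
  have h4 : ((nb (bk A) 1).card : ℝ) ≤ 250 * (m : ℝ) ^ d := by
    have e1 := card_nb_le (X := bk A) (Y := bk A) (r := 1)
      (fun p hp => ⟨p, hp, fun k => by simp⟩) 1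
    have e2 := card_bk_le A
    have e3 : 1 ≤ m ^ d := Nat.one_le_pow _ _ hm
    have e4 : (nb (bk A) 1).card ≤ 250 * m ^ d := by
      calc (nb (bk A) 1).card ≤ (bk A).card * (2 * (1 + 1) + 1) ^ 3 := e1
        _ = 125 * (bk A).card := by ring
        _ ≤ 125 * (m ^ d + m ^ d) := Nat.mul_le_mul_left _ (by omega)
        _ = 250 * m ^ d := by ring
    exact_mod_cast e4
  have h5 : (m : ℝ) ^ (3 * (g + j / 3 - 1)) ≤ (m : ℝ) ^ (g + (j - 1) / 3) *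
      ((m : ℝ) ^ (g + (j - 2) / 3) * (m : ℝ) ^ (g + (j - 3) / 3)) := by
    rw [← pow_add, ← pow_add]
    exact pow_le_pow_right₀ hm1 (by omega)
  have h6 : S * (m : ℝ) ^ (3 * (g + j / 3 - 1)) ≤
      c * (500 * (m : ℝ) ^ g) * (m : ℝ) ^ (3 * (g + j / 3 - 1)) := by
    push_cast at h
    calc S * (m : ℝ) ^ (3 * (g + j / 3 - 1)) ≤ S * ((m : ℝ) ^ (g + (j - 1) / 3) *
          ((m : ℝ) ^ (g + (j - 2) / 3) * (m : ℝ) ^ (g + (j - 3) / 3))) :=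
          mul_le_mul_of_nonneg_left h5 hS0
      _ ≤ c * (2 * (m : ℝ) ^ (g + j / 3) * ((nb (bk A) 1).card : ℝ)) := h
      _ ≤ c * (2 * (m : ℝ) ^ (g + j / 3) * (250 * (m : ℝ) ^ d)) :=
          mul_le_mul_of_nonneg_left (mul_le_mul_of_nonneg_left h4 (by positivity)) hc0
      _ = c * (500 * ((m : ℝ) ^ (g + j / 3 + d))) := by rw [pow_add]; ring
      _ ≤ c * (500 * ((m : ℝ) ^ (g + 3 * (g + j / 3 - 1)))) :=
          mul_le_mul_of_nonneg_left (mul_le_mul_of_nonneg_left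
            (pow_le_pow_right₀ hm1 (by omega)) (by norm_num)) hc0
      _ = _ := by rw [pow_add]; ring
  exact le_of_mul_le_mul_right h6 (by positivity)

theorem nu7_sum_le {K g x : ℕ} {f : ℕ → ℕ → ℝ} {c : ℝ} (hc : 0 ≤ c)
    (hx : ∀ j, 3 ≤ j → j < K → g + j / 3 ≤ x)
    (h : ∀ j, 3 ≤ j → j < K → ∀ i < g + j / 3, f j i ≤ c) :
    ∑ j ∈ Ico 3 K, ∑ i ∈ range (g + j / 3), f j i ≤ K * (x * c) := by
  calc ∑ j ∈ Ico 3 K, ∑ i ∈ range (g + j / 3), f j i ≤ ∑ j ∈ Ico 3 K, (x : ℝ) * c := by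
        refine sum_le_sum fun j hj => ?_
        obtain ⟨h3, hK⟩ := mem_Ico.1 hj
        calc ∑ i ∈ range (g + j / 3), f j i ≤ ∑ i ∈ range (g + j / 3), c :=
              sum_le_sum fun i hi => h j h3 hK i (mem_range.1 hi)
          _ = ((g + j / 3 : ℕ) : ℝ) * c := by rw [sum_const, card_range, nsmul_eq_mul]
          _ ≤ (x : ℝ) * c := mul_le_mul_of_nonneg_right (by exact_mod_cast hx j h3 hK) hc
    _ = ((K - 3 : ℕ) : ℝ) * ((x : ℝ) * c) := by rw [sum_const, Nat.card_Ico, nsmul_eq_mul]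
    _ ≤ (K : ℝ) * (x * c) := mul_le_mul_of_nonneg_right
        (by exact_mod_cast Nat.sub_le K 3) (by positivity)

theorem nu7_split {K : ℕ} (hK : 3 ≤ K) (f : ℕ → ℝ) :
    ∑ j ∈ range K, f j = f 0 + f 1 + f 2 + ∑ j ∈ Ico 3 K, f j := by
  rw [range_eq_Ico, ← sum_Ico_consecutive f (Nat.zero_le 3) hK, ← range_eq_Ico,
    sum_range_succ, sum_range_succ, sum_range_succ, sum_range_zero, zero_add]

theorem nu7_core {μ : ℝ} (hμ : 1 ≤ μ) {d g m : ℕ} (hm : 2 ≤ m) (hg3 : d + 1 ≤ 3 * g)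
    (hX : g + 1 ≤ X0 d g) (h2 : 2 * g + 3 ≤ d) {C : ℝ} (hC : 0 < C)
    (hml : 4 * (6 + 4 * (KK d g * (X0 d g * C))) ≤ (m : ℝ))
    (A : Word) (hA : A.length ≤ m ^ d)
    (hD : ∀ y, g + 1 ≤ y → y ≤ X0 d g →
      ∃ a b : ℕ → ℝ, (∀ i, 0 ≤ a i) ∧ (∀ i, 0 ≤ b i) ∧ SegLaw μ⁻¹ (m ^ d) m (y - 1) a b ∧
        (∀ i < y, a i * (400 * (m : ℝ) ^ (i + 1) +
          cc m y ((nb (bk A) (200 * m ^ (i + 1))).card)) ≤ C * (m : ℝ) ^ g) ∧
        (∀ i < y, b i * (400 * (m : ℝ) ^ (i + 1) +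
          cc m y ((nb (bk A) (200 * m ^ (i + 1))).card)) ≤ C * (m : ℝ) ^ (d - 2))) :
    ∃ G ⊆ Om (KK d g) (fun j => m ^ (g + j / 3)),
        (Om (KK d g) (fun j => m ^ (g + j / 3))).card ≤ 4 * G.card ∧
        ∀ ω ∈ G, ∃ Z : Law, (∀ i, Gw (bk A) ω (KK d g) (Z.f i)) ∧
          (∀ i, (Z.f i).length ≤ m ^ d / 4) ∧
          (∀ i, ((pts (Z.f i) ∩ bk A).card : ℝ) ≤
            (6 * (Real.log μ + (d + 1)) + 4 * (KK d g * (X0 d g * C)) + KK d g * (d + 1) +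
              2001 * KK d g + 6) * (m : ℝ) ^ g) ∧
          Dom μ⁻¹ (m ^ d) Z (Real.exp
            ((6 * (Real.log μ + (d + 1)) + 4 * (KK d g * (X0 d g * C)) + KK d g * (d + 1) +
              2001 * KK d g + 6) * (m : ℝ) ^ (g + 1))) := by
  have hμ0 : 0 < μ := by linarith
  have hm1 : (1 : ℝ) ≤ m := by exact_mod_cast (by omega : 1 ≤ m)
  have hm0 : (0 : ℝ) < m := by linarith
  have hlμ : 0 ≤ Real.log μ := Real.log_nonneg hμ
  set K := KK d g with hKdef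
  have hK : 3 ≤ K := by
    rw [hKdef]
    unfold KK
    omega
  have hjy : ∀ j, 3 ≤ j → j < K → g + 1 ≤ g + j / 3 ∧ g + j / 3 ≤ X0 d g := by
    intro j h3 hj
    rw [hKdef] at hj
    unfold KK at hj
    constructor <;> omega
  have hLL := log_succ_le (m := m) (d := d) hm
  have hLL0 : 0 ≤ Real.log (((m ^ d : ℕ) : ℝ) + 1) := Real.log_nonneg (by
    have : (0 : ℝ) ≤ ((m ^ d : ℕ) : ℝ) := Nat.cast_nonneg _
    linarith)
  set ℓ := Real.log (((m ^ d : ℕ) : ℝ) + 1) with hℓ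
  -- the data
  have hu := nu7_unit (x := μ⁻¹) (inv_pos.2 hμ0) (inv_le_one_of_one_le₀ hμ) (m ^ d) hm
  rw [inv_inv] at hu
  have hdat : ∀ j : ℕ, ∃ (I : ℕ) (a b : ℕ → ℝ), (∀ i, 0 ≤ a i) ∧ (∀ i, 0 ≤ b i) ∧
      SegLaw μ⁻¹ (m ^ d) m I a b ∧
      (j < 3 → I = 0 ∧ a = (fun _ => Real.log μ + ℓ) ∧ b = fun _ => 1) ∧
      (3 ≤ j → j < K → I = g + j / 3 - 1 ∧
        (∀ i < g + j / 3, a i * (400 * (m : ℝ) ^ (i + 1) +
          cc m (g + j / 3) ((nb (bk A) (200 * m ^ (i + 1))).card)) ≤ C * (m : ℝ) ^ g) ∧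
        (∀ i < g + j / 3, b i * (400 * (m : ℝ) ^ (i + 1) +
          cc m (g + j / 3) ((nb (bk A) (200 * m ^ (i + 1))).card)) ≤
            C * (m : ℝ) ^ (d - 2))) := by
    intro j
    by_cases hj : 3 ≤ j ∧ j < K
    · obtain ⟨a, b, ha, hb, hS, h1, h2⟩ := hD (g + j / 3) (hjy j hj.1 hj.2).1 (hjy j hj.1 hj.2).2
      exact ⟨g + j / 3 - 1, a, b, ha, hb, hS, fun h => absurd h (by omega),
        fun _ _ => ⟨rfl, h1, h2⟩⟩
    · exact ⟨0, fun _ => Real.log μ + ℓ, fun _ => 1, fun _ => add_nonneg hlμ hLL0,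
        fun _ => zero_le_one, hu, fun _ => ⟨rfl, rfl, rfl⟩, fun h3 hK => absurd ⟨h3, hK⟩ hj⟩
  choose I a b ha hb hS hlow hhigh using hdat
  set R : ℕ → ℕ := fun j => m ^ (g + j / 3) with hR
  have h1 : ∑ ω ∈ Om K R, ∑ j ∈ Ico 3 K, sc (obs (bk A) ω j) (ω j) m (I j) (a j)
      ≤ (Om K R).card * (K * (X0 d g * (C * (m : ℝ) ^ g))) := by
    rw [sum_comm]
    calc ∑ j ∈ Ico 3 K, ∑ ω ∈ Om K R, sc (obs (bk A) ω j) (ω j) m (I j) (a j)
        ≤ ∑ j ∈ Ico 3 K, ((Om K R).card : ℝ) * ∑ i ∈ range (g + j / 3),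
          a j i * (400 * (m : ℝ) ^ (i + 1) +
            cc m (g + j / 3) ((nb (bk A) (200 * m ^ (i + 1))).card)) := by
          refine sum_le_sum fun j hj => ?_
          obtain ⟨h3, hjK⟩ := mem_Ico.1 hj
          rw [(hhigh j h3 hjK).1]
          exact avg_sc (by omega) h3 hjK (bk A) (ha j)
      _ = ((Om K R).card : ℝ) * ∑ j ∈ Ico 3 K, ∑ i ∈ range (g + j / 3),
          a j i * (400 * (m : ℝ) ^ (i + 1) +
            cc m (g + j / 3) ((nb (bk A) (200 * m ^ (i + 1))).card)) := by rw [mul_sum]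
      _ ≤ _ := mul_le_mul_of_nonneg_left (nu7_sum_le (by positivity)
          (fun j h3 hjK => (hjy j h3 hjK).2) fun j h3 hjK => (hhigh j h3 hjK).2.1)
          (Nat.cast_nonneg _)
  have h2' : ∑ ω ∈ Om K R, ∑ j ∈ Ico 3 K, sc (obs (bk A) ω j) (ω j) m (I j) (b j)
      ≤ (Om K R).card * (K * (X0 d g * (C * (m : ℝ) ^ (d - 2)))) := by
    rw [sum_comm]
    calc ∑ j ∈ Ico 3 K, ∑ ω ∈ Om K R, sc (obs (bk A) ω j) (ω j) m (I j) (b j)
        ≤ ∑ j ∈ Ico 3 K, ((Om K R).card : ℝ) * ∑ i ∈ range (g + j / 3),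
          b j i * (400 * (m : ℝ) ^ (i + 1) +
            cc m (g + j / 3) ((nb (bk A) (200 * m ^ (i + 1))).card)) := by
          refine sum_le_sum fun j hj => ?_
          obtain ⟨h3, hjK⟩ := mem_Ico.1 hj
          rw [(hhigh j h3 hjK).1]
          exact avg_sc (by omega) h3 hjK (bk A) (hb j)
      _ = ((Om K R).card : ℝ) * ∑ j ∈ Ico 3 K, ∑ i ∈ range (g + j / 3),
          b j i * (400 * (m : ℝ) ^ (i + 1) +
            cc m (g + j / 3) ((nb (bk A) (200 * m ^ (i + 1))).card)) := by rw [mul_sum]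
      _ ≤ _ := mul_le_mul_of_nonneg_left (nu7_sum_le (by positivity)
          (fun j h3 hjK => (hjy j h3 hjK).2) fun j h3 hjK => (hhigh j h3 hjK).2.2)
          (Nat.cast_nonneg _)
  have h3' : ∑ ω ∈ Om K R, ∑ j ∈ Ico 3 K, (cnt (bk A) ω j 1 : ℝ)
      ≤ (Om K R).card * (K * (500 * (m : ℝ) ^ g)) := by
    rw [sum_comm]
    calc ∑ j ∈ Ico 3 K, ∑ ω ∈ Om K R, (cnt (bk A) ω j 1 : ℝ)
        ≤ ∑ j ∈ Ico 3 K, ((Om K R).card : ℝ) * (500 * (m : ℝ) ^ g) := by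
          refine sum_le_sum fun j hj => ?_
          obtain ⟨h3, hjK⟩ := mem_Ico.1 hj
          exact nu7_avg_cnt (by omega) hg3 h3 hjK A hA
      _ = ((K - 3 : ℕ) : ℝ) * (((Om K R).card : ℝ) * (500 * (m : ℝ) ^ g)) := by
          rw [sum_const, Nat.card_Ico, nsmul_eq_mul]
      _ ≤ (K : ℝ) * (((Om K R).card : ℝ) * (500 * (m : ℝ) ^ g)) :=
          mul_le_mul_of_nonneg_right (by exact_mod_cast Nat.sub_le K 3) (by positivity)
      _ = _ := by ring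
  have sc0 : ∀ (X : Finset Pt) (n I : ℕ) (a : ℕ → ℝ), (∀ i, 0 ≤ a i) → 0 ≤ sc X n m I a := by
    intro X n I a ha
    unfold sc
    refine sum_nonneg fun s _ => sum_nonneg fun i _ => ?_
    split_ifs
    · exact ha i
    · exact le_rfl
  obtain ⟨G, hG, hcard, hGb⟩ := markov3 (Om K R)
    (fun ω _ => sum_nonneg fun j _ => sc0 _ _ _ _ (ha j))
    (fun ω _ => sum_nonneg fun j _ => sc0 _ _ _ _ (hb j))
    (fun ω _ => sum_nonneg fun j _ => Nat.cast_nonneg _) h1 h2' h3'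
  refine ⟨G, hG, hcard, fun ω hω => ?_⟩
  obtain ⟨b1, b2, b3⟩ := hGb ω hω
  obtain ⟨Z, z1, z2, z3⟩ := exit_path (inv_pos.2 hμ0) hS (bk A) ω K (by omega)
  have hmg : (1 : ℝ) ≤ (m : ℝ) ^ g := one_le_pow₀ hm1
  have hωj : ∀ j, j < 3 → (ω j : ℝ) ≤ 2 * (m : ℝ) ^ g := by
    intro j hj
    have e1 := (mem_Om (hG hω) (j := j) (by omega)).2
    have e2 : j / 3 = 0 := by omega
    have e3 : ω j ≤ 2 * m ^ g := by
      simp only [hR, e2, Nat.add_zero] at e1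
      exact e1.le
    exact_mod_cast e3
  have hK0 : (0 : ℝ) ≤ K := Nat.cast_nonneg _
  have hd0 : (0 : ℝ) ≤ d := Nat.cast_nonneg _
  have hx0 : (0 : ℝ) ≤ X0 d g := Nat.cast_nonneg _
  have hKXC : 0 ≤ (K : ℝ) * (X0 d g * C) := by positivity
  refine ⟨Z, z1, fun i => ?_, fun i => ?_, ?_⟩
  · -- lengths
    have e1 := z2 i
    rw [nu7_split hK] at e1
    have f0 : ∀ j, j < 3 → sc (obs (bk A) ω j) (ω j) m (I j) (b j) ≤ 2 * (m : ℝ) ^ g := by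
      intro j hj
      obtain ⟨i1, i2, i3⟩ := hlow j hj
      rw [i1, i3, nu7_sc, mul_one]
      exact hωj j hj
    have e2 := f0 0 (by norm_num)
    have e3 := f0 1 (by norm_num)
    have e4 := f0 2 (by norm_num)
    have e5 : (m : ℝ) ^ g ≤ (m : ℝ) ^ (d - 2) := pow_le_pow_right₀ hm1 (by omega)
    have e6 : ((Z.f i).length : ℝ) ≤ (6 + 4 * (K * (X0 d g * C))) * (m : ℝ) ^ (d - 2) := by
      have : 4 * (K * (X0 d g * (C * (m : ℝ) ^ (d - 2))))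
          = 4 * (K * (X0 d g * C)) * (m : ℝ) ^ (d - 2) := by ring
      linarith
    have e7 : 4 * ((6 + 4 * (K * (X0 d g * C))) * (m : ℝ) ^ (d - 2)) ≤ (m : ℝ) ^ d := by
      calc 4 * ((6 + 4 * (K * (X0 d g * C))) * (m : ℝ) ^ (d - 2))
          = 4 * (6 + 4 * (K * (X0 d g * C))) * (m : ℝ) ^ (d - 2) := by ring
        _ ≤ m * (m : ℝ) ^ (d - 2) := mul_le_mul_of_nonneg_right hml (by positivity)
        _ = (m : ℝ) ^ (d - 2 + 1) := by rw [pow_succ]; ring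
        _ ≤ (m : ℝ) ^ d := pow_le_pow_right₀ hm1 (by omega)
    rw [Nat.le_div_iff_mul_le (by norm_num)]
    have e8 : (((Z.f i).length * 4 : ℕ) : ℝ) ≤ ((m ^ d : ℕ) : ℝ) := by
      push_cast
      linarith
    exact_mod_cast e8
  · -- obstacles
    have e1 := card_hit_le (z1 i)
    have e2 : ((pts (Z.f i) ∩ bk A).card : ℝ) ≤ ∑ j ∈ range K, (1 + (cnt (bk A) ω j 1 : ℝ)) := by
      have : ((pts (Z.f i) ∩ bk A).card : ℝ)
          ≤ ((∑ j ∈ range K, (1 + cnt (bk A) ω j 1) : ℕ) : ℝ) := by exact_mod_cast e1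
      push_cast at this
      exact this
    rw [sum_add_distrib, sum_const, card_range, nsmul_eq_mul, mul_one, nu7_split hK] at e2
    have f0 : ∀ j, j < 3 → (cnt (bk A) ω j 1 : ℝ) ≤ 2 * (m : ℝ) ^ g := by
      intro j hj
      exact (by exact_mod_cast cnt_le (bk A) ω j 1 : (cnt (bk A) ω j 1 : ℝ) ≤ ω j).trans
        (hωj j hj)
    have e3 := f0 0 (by norm_num)
    have e4 := f0 1 (by norm_num)
    have e5 := f0 2 (by norm_num)
    have e6 : (K : ℝ) ≤ K * (m : ℝ) ^ g := le_mul_of_one_le_right hK0 hmg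
    have e7 : ((pts (Z.f i) ∩ bk A).card : ℝ) ≤ (2001 * K + 6) * (m : ℝ) ^ g := by
      have : (2001 * K + 6) * (m : ℝ) ^ g = K * (m : ℝ) ^ g + 4 * (K * (500 * (m : ℝ) ^ g))
        + 6 * (m : ℝ) ^ g := by ring
      linarith
    refine e7.trans (mul_le_mul_of_nonneg_right ?_ (by positivity))
    have : 0 ≤ (K : ℝ) * (d + 1) := by positivity
    linarith
  · -- domination
    refine z3.mono (inv_pos.2 hμ0).le (Real.exp_le_exp.2 ?_)
    rw [sum_add_distrib, sum_const, card_range, nsmul_eq_mul, nu7_split hK]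
    have hmm : (m : ℝ) ^ (g + 1) = (m : ℝ) ^ g * m := pow_succ _ _
    have hmg1 : (m : ℝ) ^ g ≤ (m : ℝ) ^ (g + 1) := pow_le_pow_right₀ hm1 (by omega)
    have hmg2 : (m : ℝ) ≤ (m : ℝ) ^ (g + 1) := by
      rw [hmm]
      nlinarith
    have f0 : ∀ j, j < 3 → sc (obs (bk A) ω j) (ω j) m (I j) (a j)
        ≤ 2 * (Real.log μ + (d + 1)) * (m : ℝ) ^ (g + 1) := by
      intro j hj
      obtain ⟨i1, i2, i3⟩ := hlow j hj
      rw [i1, i2, nu7_sc]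
      have k1 : Real.log μ + ℓ ≤ (Real.log μ + (d + 1)) * m := by
        have : Real.log μ ≤ Real.log μ * m := le_mul_of_one_le_right hlμ hm1
        linarith
      calc (ω j : ℝ) * (Real.log μ + ℓ) ≤ (2 * (m : ℝ) ^ g) * ((Real.log μ + (d + 1)) * m) :=
            mul_le_mul (hωj j hj) k1 (by positivity) (by positivity)
        _ = _ := by rw [hmm]; ring
    have e3 := f0 0 (by norm_num)
    have e4 := f0 1 (by norm_num)
    have e5 := f0 2 (by norm_num)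
    have e6 : (K : ℝ) * Real.log (((m ^ d : ℕ) : ℝ) + 1) ≤ K * (d + 1) * (m : ℝ) ^ (g + 1) := by
      calc (K : ℝ) * Real.log (((m ^ d : ℕ) : ℝ) + 1) ≤ K * ((d + 1) * m) :=
            mul_le_mul_of_nonneg_left hLL hK0
        _ ≤ K * ((d + 1) * (m : ℝ) ^ (g + 1)) := mul_le_mul_of_nonneg_left
            (mul_le_mul_of_nonneg_left hmg2 (by positivity)) hK0
        _ = _ := by ring
    have e7 : 4 * (K * (X0 d g * (C * (m : ℝ) ^ g))) ≤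
        4 * (K * (X0 d g * C)) * (m : ℝ) ^ (g + 1) := by
      calc 4 * (K * (X0 d g * (C * (m : ℝ) ^ g))) = 4 * (K * (X0 d g * C)) * (m : ℝ) ^ g := by
            ring
        _ ≤ _ := mul_le_mul_of_nonneg_left hmg1 (by positivity)
    have e8 : 0 ≤ (2001 * (K : ℝ) + 6) * (m : ℝ) ^ (g + 1) := by positivity
    linarith

/-- **Most staircases are cheap.** `K = KK d g`, `R j = m ^ (g + j / 3)`. For `j < 3` use
`segment` with `I = 0` (unit steps), for `3 ≤ j < K` the data of `seg_data` with `y = g + j / 3`;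
`exit_path`, `card_hit_le`, `avg_sc`, `avg_cnt` (for `cnt X ω j 1`, with `num_unit`), `markov3`
for the three sums: logarithm of the domination, length, number of obstacles. -/
theorem good_exits {μ : ℝ} (hμ : 1 ≤ μ) (hb : ∀ n, ((brs n).card : ℝ) ≤ μ ^ n) {s : ℝ}
    {t d g : ℕ} (hp : Par s t d g) {Bs : ℝ} (hBs : 0 ≤ Bs)
    (H : ∀ k : ℕ, 1 ≤ k → FF μ k ≤ Bs * (k : ℝ) ^ s) :
    ∃ C : ℝ, 0 < C ∧ ∀ᶠ m : ℕ in atTop, Bad μ d g m → ∀ A : Word, A.length ≤ m ^ d →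
      Gd μ (m ^ d) ((range (d + 1)).image fun i => m ^ i) A →
      ∃ G ⊆ Om (KK d g) (fun j => m ^ (g + j / 3)),
        (Om (KK d g) (fun j => m ^ (g + j / 3))).card ≤ 4 * G.card ∧
        ∀ ω ∈ G, ∃ Z : Law, (∀ i, Gw (bk A) ω (KK d g) (Z.f i)) ∧
          (∀ i, (Z.f i).length ≤ m ^ d / 4) ∧
          (∀ i, ((pts (Z.f i) ∩ bk A).card : ℝ) ≤ C * (m : ℝ) ^ g) ∧
          Dom μ⁻¹ (m ^ d) Z (Real.exp (C * (m : ℝ) ^ (g + 1))) := by
  obtain ⟨C, hC, hev⟩ := seg_data hμ hb hp hBs H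
  obtain ⟨-, -, hX, -, -⟩ := hp.arith
  have h1 := hp.h1
  have h2 := hp.h2
  have hlμ : 0 ≤ Real.log μ := Real.log_nonneg hμ
  refine ⟨6 * (Real.log μ + (d + 1)) + 4 * (KK d g * (X0 d g * C)) + KK d g * (d + 1) +
    2001 * KK d g + 6, by positivity, ?_⟩
  have hlarge : ∀ᶠ m : ℕ in atTop, 4 * (6 + 4 * (KK d g * (X0 d g * C))) ≤ (m : ℝ) :=
    tendsto_natCast_atTop_atTop.eventually_ge_atTop _
  filter_upwards [hev, hlarge, eventually_ge_atTop 2] with m hm1 hm2 hm3 hBad A hA hGd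
  exact nu7_core hμ hm3 (by omega) hX h2 hC hm2 A hA (hm1 hBad A hA hGd)
-- END nu7

end Pool.Agent.MP_794e6e_ex
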