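import Pool.Agent.MP_794e6e_ex.Basic

/-! ROW A2. Pieces: decomposition, cover, and the weight of words with many short pieces. -/

namespace Pool.Agent.MP_794e6e_ex
set_option maxHeartbeats 400000

open Finset Filter
open scoped Classical
open Pool.Agent.MP_794e6e_pr

-- BEGIN pi1
/-- greedy decomposition, by strong induction on the length -/
theorem exists_pieces {r : ℕ} (hr : 1 ≤ r) (A : Word) : ∃ (P : List Word) (c : Word),
    A = P.flatten ++ c ∧ (∀ s ∈ P, FE r s) ∧ NE r c := by
  induction hn : A.length using Nat.strong_induction_on generalizing A with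
  | _ n ih =>
    by_cases hA : NE r A
    · exact ⟨[], A, by simp, by simp, hA⟩
    · have hex : ∃ m : ℕ, ∃ k, (r : ℤ) ≤ |D (A.take m) k| := by
        unfold NE at hA
        push Not at hA
        obtain ⟨a, b, hab, k, hk⟩ := hA
        refine ⟨a.length, k, ?_⟩
        rw [hab, List.take_left]
        exact hk
      obtain ⟨m, hm, hmin⟩ : ∃ m : ℕ, (∃ k, (r : ℤ) ≤ |D (A.take m) k|) ∧
          ∀ m' < m, ∀ k, |D (A.take m') k| < (r : ℤ) := by
        refine ⟨Nat.find hex, Nat.find_spec hex, fun m' hm' k => ?_⟩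
        have h1 := Nat.find_min hex hm'
        push Not at h1
        exact h1 k
      have hm0 : 0 < m := by
        rcases Nat.eq_zero_or_pos m with h0 | h0
        · exfalso
          obtain ⟨k, hk⟩ := hm
          rw [h0, List.take_zero] at hk
          have h2 : D ([] : Word) k = 0 := by simp
          rw [h2, abs_zero] at hk
          omega
        · exact h0
      have hA0 : 0 < A.length := by
        rcases Nat.eq_zero_or_pos A.length with h0 | h0
        · exfalso
          obtain ⟨k, hk⟩ := hm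
          have h3 : A = [] := List.length_eq_zero_iff.mp h0
          rw [h3, List.take_nil] at hk
          have h2 : D ([] : Word) k = 0 := by simp
          rw [h2, abs_zero] at hk
          omega
        · exact h0
      obtain ⟨P, c, h4, h5, h6⟩ := ih (A.drop m).length (by
        rw [List.length_drop]
        omega) (A.drop m) rfl
      refine ⟨A.take m :: P, c, ?_, ?_, h6⟩
      · rw [List.flatten_cons, List.append_assoc, ← h4, List.take_append_drop]
      · intro s hs
        rcases List.mem_cons.mp hs with rfl | hs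
        · refine ⟨hm, fun a b hab hb k => ?_⟩
          have h7 : a = A.take a.length := by
            have h8 : a <+: A := by
              refine List.IsPrefix.trans ⟨b, hab.symm⟩ (List.take_prefix m A)
            exact (List.prefix_iff_eq_take.mp h8)
          have h9 : a.length < m := by
            have h10 := congrArg List.length hab
            rw [List.length_append, List.length_take] at h10
            have h11 : 0 < b.length := List.length_pos_iff.mpr hb
            omega
          rw [h7]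
          exact hmin _ h9 k
        · exact h5 s hs
-- END pi1

-- BEGIN pi2
/-- a first exit has length at least `r` (`abs_D_le`) -/
theorem FE.le_length {r : ℕ} {s : Word} (h : FE r s) : r ≤ s.length := by
  obtain ⟨⟨k, hk⟩, _⟩ := h
  have h1 := abs_D_le s k
  exact_mod_cast hk.trans h1

/-- `SP` may be prolonged in front -/
theorem SP.prepend {r l j : ℕ} {b : Word} (a : Word) (h : SP r l j b) : SP r l j (a ++ b) := by
  cases j with
  | zero => trivial
  | succ j =>
    obtain ⟨g, s, b', hb, h1, h2, h3⟩ := h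
    exact ⟨a ++ g, s, b', by rw [hb, List.append_assoc], h1, h2, h3⟩

theorem SP.mono {r l : ℕ} {j j' : ℕ} (hj : j' ≤ j) {A : Word} (h : SP r l j A) :
    SP r l j' A := by
  induction j' generalizing j A with
  | zero => trivial
  | succ j' ih =>
    obtain ⟨j0, rfl⟩ : ∃ j0, j = j0 + 1 := ⟨j - 1, by omega⟩
    obtain ⟨g, s, b', hb, h1, h2, h3⟩ := h
    exact ⟨g, s, b', hb, h1, h2, ih (by omega) h3⟩

/-- the short pieces of a list of pieces -/
theorem SP_of_list {r l : ℕ} {P : List Word} (hP : ∀ s ∈ P, FE r s) (c : Word) :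
    SP r l (P.countP fun s => s.length ≤ l) (P.flatten ++ c) := by
  induction P with
  | nil => trivial
  | cons s P ih =>
    have ih' := ih fun t ht => hP t (List.mem_cons_of_mem s ht)
    have h1 : (s :: P).flatten ++ c = s ++ (P.flatten ++ c) := by
      rw [List.flatten_cons, List.append_assoc]
    rw [h1, List.countP_cons]
    by_cases hs : s.length ≤ l
    · have h2 : (if (decide (s.length ≤ l)) = true then 1 else 0) = 1 := by
        rw [if_pos (decide_eq_true hs)]
      rw [h2]
      exact ⟨[], s, P.flatten ++ c, rfl, hP s List.mem_cons_self, hs, ih'⟩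
    · have h2 : (if (decide (s.length ≤ l)) = true then 1 else 0) = 0 := by
        rw [if_neg (by simp [hs])]
      rw [h2, add_zero]
      exact ih'.prepend s
-- END pi2

-- BEGIN pi3
/-- the starts of the pieces -/
theorem pi3_starts {r : ℕ} {c : Word} (hc : NE r c) :
    ∀ P : List Word, (∀ s ∈ P, FE r s) → ∃ Y : Finset Pt, Y.card ≤ P.length + 1 ∧
      ∀ p ∈ pts (P.flatten ++ c), ∃ q ∈ Y, ∀ k, |q k - p k| < (r : ℤ) := by
  intro P
  induction P with
  | nil =>
    intro _
    refine ⟨{0}, by simp, fun p hp => ⟨0, mem_singleton_self _, fun k => ?_⟩⟩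
    obtain ⟨a, b, hab, rfl⟩ := mem_pts.1 hp
    have h1 := hc a b (by simpa using hab) k
    simpa using h1
  | cons s P ih =>
    intro hP
    obtain ⟨Y, hY, hY'⟩ := ih fun x hx => hP x (List.mem_cons_of_mem _ hx)
    have hs := hP s List.mem_cons_self
    refine ⟨insert 0 (tr (D s) Y), ?_, fun p hp => ?_⟩
    · refine (card_insert_le _ _).trans ?_
      rw [card_tr, List.length_cons]
      omega
    · rw [List.flatten_cons, List.append_assoc, pts_append, mem_union] at hp
      have h2 : p ∈ tr (D s) (pts (P.flatten ++ c)) → ∃ q ∈ insert 0 (tr (D s) Y),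
          ∀ k, |q k - p k| < (r : ℤ) := by
        intro hp
        obtain ⟨q, hq, hk⟩ := hY' _ (mem_tr.1 hp)
        refine ⟨D s + q, mem_insert_of_mem (mem_image_of_mem _ hq), fun k => ?_⟩
        have h3 := hk k
        have h4 : (D s + q) k - p k = q k - (p - D s) k := by
          rw [Pi.add_apply, Pi.sub_apply]; ring
        rw [h4]
        exact h3
      rcases hp with hp | hp
      · obtain ⟨a, b, hab, rfl⟩ := mem_pts.1 hp
        by_cases hb : b = []
        · subst hb
          rw [List.append_nil] at hab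
          subst hab
          exact h2 (mem_tr.2 (by rw [sub_self]; exact zero_mem_pts _))
        · refine ⟨0, mem_insert_self _ _, fun k => ?_⟩
          have h5 := hs.2 a b hab hb k
          simpa using h5
      · exact h2 hp

theorem pi3_len {r : ℕ} : ∀ P : List Word, (∀ s ∈ P, r ≤ s.length) →
    P.length * r ≤ P.flatten.length := by
  intro P
  induction P with
  | nil => intro _; simp
  | cons s P ih =>
    intro h
    have h1 := ih fun x hx => h x (List.mem_cons_of_mem _ hx)
    have h2 := h s List.mem_cons_self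
    rw [List.flatten_cons, List.length_append, List.length_cons]
    nlinarith

theorem pi3_long {l : ℕ} : ∀ P : List Word,
    (P.length - P.countP fun s => s.length ≤ l) * (l + 1) ≤ P.flatten.length := by
  intro P
  induction P with
  | nil => simp
  | cons s P ih =>
    rw [List.flatten_cons, List.length_append, List.length_cons, List.countP_cons]
    have hc : (P.countP fun s => s.length ≤ l) ≤ P.length := List.countP_le_length
    by_cases hs : s.length ≤ l
    · simp only [hs, decide_true, if_true]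
      have h1 : P.length + 1 - ((P.countP fun s => decide (s.length ≤ l)) + 1) =
          P.length - (P.countP fun s => decide (s.length ≤ l)) := by omega
      rw [h1]
      omega
    · simp only [hs, decide_false, Bool.false_eq_true, if_false]
      push Not at hs
      have h1 : P.length + 1 - ((P.countP fun s => decide (s.length ≤ l)) + 0) =
          P.length - (P.countP fun s => decide (s.length ≤ l)) + 1 := by omega
      rw [h1, add_mul, one_mul]
      omega

/-- **Cover.** `ν` = number of pieces. (a) every point of `A` is at distance less than `r` from the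
start of a piece (or of the rest): `ν + 1` starts; (b) each piece has length at least `r`;
(c) if more than `ν / 2` pieces were longer than `sl N ν ≥ 2 N / ν`, the length would exceed `N` -/
theorem cover {r : ℕ} (hr : 1 ≤ r) (A : Word) : ∃ ν : ℕ,
    (∀ ρ : ℕ, (nb (bk A) ρ).card ≤ (ν + 1) * (2 * (ρ + r) + 1) ^ 3) ∧ ν * r ≤ A.length ∧
    ∀ N : ℕ, A.length ≤ N → 1 ≤ ν → SP r (sl N ν) ((ν + 1) / 2) A := by
  obtain ⟨P, c, hA, hP, hc⟩ := exists_pieces hr A
  refine ⟨P.length, fun ρ => ?_, ?_, fun N hN hν => ?_⟩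
  · obtain ⟨Y, hY, hY'⟩ := pi3_starts hc P hP
    have h1 : ∀ p ∈ bk A, ∃ q ∈ tr (- D A) Y, ∀ k, |q k - p k| < (r : ℤ) := by
      intro p hp
      have h2 := mem_tr.1 hp
      rw [sub_neg_eq_add, hA] at h2
      obtain ⟨q, hq, hk⟩ := hY' _ h2
      refine ⟨- D A + q, mem_image_of_mem _ hq, fun k => ?_⟩
      have h3 := hk k
      rw [← hA] at h3
      have h4 : (- D A + q) k - p k = q k - (p + D A) k := by
        rw [Pi.add_apply, Pi.add_apply, Pi.neg_apply]; ring
      rw [h4]
      exact h3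
    refine (card_nb_le h1 ρ).trans ?_
    rw [card_tr]
    exact Nat.mul_le_mul_right _ hY
  · rw [hA, List.length_append]
    exact (pi3_len P fun s hs => (hP s hs).le_length).trans (Nat.le_add_right _ _)
  · have h1 : (P.length + 1) / 2 ≤ P.countP fun s => s.length ≤ sl N P.length := by
      by_contra hcon
      push Not at hcon
      have h2 := pi3_long (l := sl N P.length) P
      have h3 : P.flatten.length ≤ N := by
        have h4 : A.length = P.flatten.length + c.length := by rw [hA, List.length_append]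
        omega
      have h5 : P.length / 2 + 1 ≤
          P.length - P.countP fun s => decide (s.length ≤ sl N P.length) := by omega
      have h6 : (P.length / 2 + 1) * (sl N P.length + 1) ≤ N :=
        (Nat.mul_le_mul_right _ h5).trans (h2.trans h3)
      have h7 : 2 * N < P.length * sl N P.length := by
        unfold sl
        exact Nat.lt_mul_div_succ _ (by omega)
      have h8 : P.length ≤ 2 * (P.length / 2 + 1) := by omega
      have h9 : P.length * sl N P.length ≤ 2 * (P.length / 2 + 1) * (sl N P.length + 1) :=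
        Nat.mul_le_mul h8 (Nat.le_succ _)
      have h10 : 2 * (P.length / 2 + 1) * (sl N P.length + 1) =
        2 * ((P.length / 2 + 1) * (sl N P.length + 1)) := by ring
      omega
    have h2 := (SP_of_list (l := sl N P.length) hP c).mono h1
    rw [hA]
    exact h2
-- END pi3

-- BEGIN pi4
theorem pi4_walks {μ : ℝ} (hμ : 1 ≤ μ) {l : ℕ} (hl : 1 ≤ l) (a : ℕ) :
    ((walks a).card : ℝ) * μ⁻¹ ^ a ≤ Real.exp (((a / l + 1 : ℕ) : ℝ) * FF μ l) := by
  rw [← Real.log_le_iff_le_exp (term_pos hμ a)]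
  exact (le_FF μ (le_refl a)).trans (FF_div hμ hl a)

theorem pi4_MM_nonneg {μ : ℝ} (hμ : 1 ≤ μ) (r l : ℕ) : 0 ≤ MM μ⁻¹ r l :=
  sum_nonneg fun _ _ => pow_nonneg (inv_nonneg.2 (by linarith)) _

theorem pi4_card {r l n j : ℕ} : ((walks n).filter (SP r l (j + 1))).card ≤
    ∑ a ∈ range (n + 1), ∑ s ∈ ((wle l).filter (fun w => saw w ∧ FE r w)).filter
      (fun s => a + s.length ≤ n),
      (walks a).card * ((walks (n - a - s.length)).filter (SP r l j)).card := by
  have hsub : (walks n).filter (SP r l (j + 1)) ⊆ (range (n + 1)).biUnion fun a =>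
      (((wle l).filter (fun w => saw w ∧ FE r w)).filter (fun s => a + s.length ≤ n)).biUnion
        fun s => (walks a ×ˢ (walks (n - a - s.length)).filter (SP r l j)).image
          fun p => p.1 ++ (s ++ p.2) := by
    intro A hA
    rw [mem_filter, mem_walks] at hA
    obtain ⟨⟨hn, hs⟩, g, s, b, rfl, hF, hsl, hb⟩ := hA
    rw [List.length_append, List.length_append] at hn
    rw [mem_biUnion]
    refine ⟨g.length, mem_range.2 (by omega), ?_⟩
    rw [mem_biUnion]
    refine ⟨s, ?_, ?_⟩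
    · rw [mem_filter, mem_filter, mem_wle]
      exact ⟨⟨hsl, hs.right.left, hF⟩, by omega⟩
    · rw [mem_image]
      refine ⟨(g, b), ?_, rfl⟩
      rw [mem_product, mem_walks, mem_filter, mem_walks]
      exact ⟨⟨rfl, hs.left⟩, ⟨by show b.length = _; omega, hs.right.right⟩, hb⟩
  refine (card_le_card hsub).trans (card_biUnion_le.trans ?_)
  refine sum_le_sum fun a _ => card_biUnion_le.trans (sum_le_sum fun s _ => ?_)
  exact card_image_le.trans (card_product _ _).le

/-- **Weight of the walks with `j` short pieces.** By induction on `j`: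
`A = g ++ (s ++ b)` is determined by `|g|`, `s`, `g`, `b`; the weight of all `g` of length `a` is
at most `exp (FF a) ≤ exp ((a / l + 1) FF l)` (`FF_div`). -/
theorem SP_mass {μ : ℝ} (hμ : 1 ≤ μ) {r l N : ℕ} (hr : 1 ≤ r) (hl : 1 ≤ l) (j : ℕ) :
    ∀ n ≤ N, (((walks n).filter (SP r l j)).card : ℝ) * μ⁻¹ ^ n ≤
      (((N : ℝ) + 1) * MM μ⁻¹ r l) ^ j * Real.exp (((n / l + j + 1 : ℕ) : ℝ) * FF μ l) := by
  have hx0 : 0 < μ⁻¹ := inv_pos.2 (by linarith)
  have hF0 : 0 ≤ FF μ l := FF_nonneg l
  have hM0 := pi4_MM_nonneg hμ r l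
  induction j with
  | zero =>
    intro n _
    rw [pow_zero, one_mul, Nat.add_zero]
    refine le_trans ?_ (pi4_walks hμ hl n)
    gcongr
    exact filter_subset _ _
  | succ j ih =>
    intro n hn
    set S := (wle l).filter (fun w => saw w ∧ FE r w) with hS
    have h1 : (((walks n).filter (SP r l (j + 1))).card : ℝ) ≤
        ∑ a ∈ range (n + 1), ∑ s ∈ S.filter (fun s => a + s.length ≤ n),
          ((walks a).card : ℝ) * ((walks (n - a - s.length)).filter (SP r l j)).card := by
      exact_mod_cast pi4_card (r := r) (l := l) (n := n) (j := j)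
    have h2 : (((walks n).filter (SP r l (j + 1))).card : ℝ) * μ⁻¹ ^ n ≤
        ∑ a ∈ range (n + 1), ∑ s ∈ S.filter (fun s => a + s.length ≤ n),
          μ⁻¹ ^ s.length * ((((N : ℝ) + 1) * MM μ⁻¹ r l) ^ j *
            Real.exp (((n / l + (j + 1) + 1 : ℕ) : ℝ) * FF μ l)) := by
      refine (mul_le_mul_of_nonneg_right h1 (by positivity)).trans ?_
      rw [sum_mul]
      refine sum_le_sum fun a ha => ?_
      rw [sum_mul]
      refine sum_le_sum fun s hs => ?_
      have hsn : a + s.length ≤ n := (mem_filter.1 hs).2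
      have h3 : μ⁻¹ ^ n = μ⁻¹ ^ a * (μ⁻¹ ^ s.length * μ⁻¹ ^ (n - a - s.length)) := by
        rw [← pow_add, ← pow_add]
        congr 1
        omega
      have h4 := pi4_walks hμ hl a
      have h5 := ih (n - a - s.length) (by omega)
      have h6 : Real.exp (((a / l + 1 : ℕ) : ℝ) * FF μ l) *
          Real.exp ((((n - a - s.length) / l + j + 1 : ℕ) : ℝ) * FF μ l) ≤
          Real.exp (((n / l + (j + 1) + 1 : ℕ) : ℝ) * FF μ l) := by
        rw [← Real.exp_add, ← add_mul]
        refine Real.exp_le_exp.2 (mul_le_mul_of_nonneg_right ?_ hF0)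
        have h7 : a / l + (n - a - s.length) / l ≤ n / l :=
          Nat.div_add_div_le_add_div.trans (Nat.div_le_div_right (by omega))
        have h8 : (a / l + 1) + ((n - a - s.length) / l + j + 1) ≤ n / l + (j + 1) + 1 := by omega
        exact_mod_cast h8
      calc ((walks a).card : ℝ) * ((walks (n - a - s.length)).filter (SP r l j)).card * μ⁻¹ ^ n
          = μ⁻¹ ^ s.length * ((((walks a).card : ℝ) * μ⁻¹ ^ a) *
            ((((walks (n - a - s.length)).filter (SP r l j)).card : ℝ) *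
              μ⁻¹ ^ (n - a - s.length))) := by
            rw [h3]; ring
        _ ≤ μ⁻¹ ^ s.length * (Real.exp (((a / l + 1 : ℕ) : ℝ) * FF μ l) *
            ((((N : ℝ) + 1) * MM μ⁻¹ r l) ^ j *
              Real.exp ((((n - a - s.length) / l + j + 1 : ℕ) : ℝ) * FF μ l))) := by
            gcongr
        _ = μ⁻¹ ^ s.length * ((((N : ℝ) + 1) * MM μ⁻¹ r l) ^ j *
            (Real.exp (((a / l + 1 : ℕ) : ℝ) * FF μ l) *
              Real.exp ((((n - a - s.length) / l + j + 1 : ℕ) : ℝ) * FF μ l))) := by ring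
        _ ≤ _ := by
            gcongr
    refine h2.trans ?_
    set Y := (((N : ℝ) + 1) * MM μ⁻¹ r l) ^ j *
      Real.exp (((n / l + (j + 1) + 1 : ℕ) : ℝ) * FF μ l) with hY
    have hY0 : 0 ≤ Y := by positivity
    calc ∑ a ∈ range (n + 1), ∑ s ∈ S.filter (fun s => a + s.length ≤ n), μ⁻¹ ^ s.length * Y
        ≤ ∑ a ∈ range (n + 1), ∑ s ∈ S, μ⁻¹ ^ s.length * Y := by
          refine sum_le_sum fun a _ => sum_le_sum_of_subset_of_nonneg (filter_subset _ _) ?_
          intro s _ _
          positivity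
      _ = ((n : ℝ) + 1) * (MM μ⁻¹ r l * Y) := by
          rw [sum_const, card_range, nsmul_eq_mul, ← sum_mul]
          push_cast
          rfl
      _ ≤ ((N : ℝ) + 1) * (MM μ⁻¹ r l * Y) := by
          have : (n : ℝ) ≤ N := by exact_mod_cast hn
          gcongr
      _ = _ := by
          rw [hY, pow_succ]
          ring
-- END pi4

-- BEGIN pi5
theorem pi5_pair {μ : ℝ} (hμ : 1 ≤ μ) {N k r ν : ℕ} (hk : k ≤ N) (hr : 1 ≤ r) (hν : 1 ≤ ν)
    (hD : ¬ Dc μ N r ν) :
    (((walks k).filter (SP r (sl N ν) ((ν + 1) / 2))).card : ℝ) * μ⁻¹ ^ k ≤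
      (((N : ℝ) + 1) ^ 7)⁻¹ := by
  have hμ0 : 0 < μ := by linarith
  have hl : 1 ≤ sl N ν := Nat.le_add_left _ _
  have hj : 1 ≤ (ν + 1) / 2 := by omega
  have h1 := SP_mass hμ (N := N) hr hl ((ν + 1) / 2) k hk
  refine h1.trans ?_
  have hN1 : (1 : ℝ) ≤ (N : ℝ) + 1 := by
    have := Nat.cast_nonneg (α := ℝ) N; linarith
  have hM : 0 ≤ MM μ⁻¹ r (sl N ν) := sum_nonneg fun w _ => by positivity
  have hF : 0 ≤ FF μ (sl N ν) := FF_nonneg _
  have h2 : k / sl N ν ≤ (ν + 1) / 2 := by
    refine Nat.div_le_of_le_mul ?_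
    have h3 : 2 * N < ν * sl N ν := by
      unfold sl
      exact Nat.lt_mul_div_succ _ (by omega)
    have h4 : ν * sl N ν ≤ 2 * ((ν + 1) / 2) * sl N ν := Nat.mul_le_mul_right _ (by omega)
    have h5 : 2 * ((ν + 1) / 2) * sl N ν = 2 * (sl N ν * ((ν + 1) / 2)) := by ring
    omega
  have h6 : Real.exp (((k / sl N ν + (ν + 1) / 2 + 1 : ℕ) : ℝ) * FF μ (sl N ν)) ≤
      Real.exp (3 * FF μ (sl N ν)) ^ ((ν + 1) / 2) := by
    rw [← Real.exp_nat_mul]
    refine Real.exp_le_exp.2 ?_
    have h7 : ((k / sl N ν + (ν + 1) / 2 + 1 : ℕ) : ℝ) ≤ ((3 * ((ν + 1) / 2) : ℕ) : ℝ) :=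
      Nat.cast_le.2 (by omega)
    calc ((k / sl N ν + (ν + 1) / 2 + 1 : ℕ) : ℝ) * FF μ (sl N ν)
        ≤ ((3 * ((ν + 1) / 2) : ℕ) : ℝ) * FF μ (sl N ν) := mul_le_mul_of_nonneg_right h7 hF
      _ = (((ν + 1) / 2 : ℕ) : ℝ) * (3 * FF μ (sl N ν)) := by push_cast; ring
  have h8 : ((N : ℝ) + 1) * MM μ⁻¹ r (sl N ν) * Real.exp (3 * FF μ (sl N ν)) ≤
      (((N : ℝ) + 1) ^ 7)⁻¹ := by
    unfold Dc at hD
    push Not at hD
    rw [← one_div ((((N : ℝ) + 1) ^ 7)), le_div_iff₀ (by positivity)]
    have h9 : ((N : ℝ) + 1) * MM μ⁻¹ r (sl N ν) * Real.exp (3 * FF μ (sl N ν)) *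
        ((N : ℝ) + 1) ^ 7 = MM μ⁻¹ r (sl N ν) *
        (((N : ℝ) + 1) ^ 8 * Real.exp (3 * FF μ (sl N ν))) := by ring
    rw [h9]
    exact hD.le
  have h10 : 0 ≤ ((N : ℝ) + 1) * MM μ⁻¹ r (sl N ν) := by positivity
  calc (((N : ℝ) + 1) * MM μ⁻¹ r (sl N ν)) ^ ((ν + 1) / 2) *
        Real.exp (((k / sl N ν + (ν + 1) / 2 + 1 : ℕ) : ℝ) * FF μ (sl N ν))
      ≤ (((N : ℝ) + 1) * MM μ⁻¹ r (sl N ν)) ^ ((ν + 1) / 2) *
        Real.exp (3 * FF μ (sl N ν)) ^ ((ν + 1) / 2) :=
        mul_le_mul_of_nonneg_left h6 (pow_nonneg h10 _)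
    _ = (((N : ℝ) + 1) * MM μ⁻¹ r (sl N ν) * Real.exp (3 * FF μ (sl N ν))) ^ ((ν + 1) / 2) :=
        (mul_pow _ _ _).symm
    _ ≤ ((((N : ℝ) + 1) ^ 7)⁻¹) ^ ((ν + 1) / 2) :=
        pow_le_pow_left₀ (by positivity) h8 _
    _ ≤ (((N : ℝ) + 1) ^ 7)⁻¹ :=
        pow_le_of_le_one (by positivity) (inv_le_one_of_one_le₀ (one_le_pow₀ hN1)) (by omega)

/-- **Most walks are good.** For a pair `(r, ν)` violating `Dc`, `SP_mass` with `l = sl N ν`,
`j = (ν + 1) / 2` (so `k / l ≤ j`, `k / l + j + 1 ≤ 3 j`) gives weight at most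
`((N + 1) MM exp (3 FF)) ^ j < (N + 1) ^ (- 7 j)`; sum over at most `N * N` pairs. -/
theorem card_good {μ : ℝ} (hμ : 1 ≤ μ) (hc : ∀ n, μ ^ n ≤ (walks n).card) {N k : ℕ} (hN : 4 ≤ N)
    (hk : k ≤ N) {Rs : Finset ℕ} (hR : Rs.card ≤ N) (hR1 : ∀ r ∈ Rs, 1 ≤ r) :
    ((walks k).card : ℝ) ≤ 4 / 3 * ((walks k).filter (Gd μ N Rs)).card := by
  have hμ0 : 0 < μ := by linarith
  have hN0 : (0 : ℝ) ≤ N := Nat.cast_nonneg N
  have hx : 0 < μ⁻¹ ^ k := by positivity
  have hsub : (walks k).filter (fun A => ¬ Gd μ N Rs A) ⊆ Rs.biUnion fun r =>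
      ((Icc 1 N).filter fun ν => ¬ Dc μ N r ν).biUnion fun ν =>
        (walks k).filter (SP r (sl N ν) ((ν + 1) / 2)) := by
    intro A hA
    rw [mem_filter] at hA
    obtain ⟨hA1, hA2⟩ := hA
    unfold Gd at hA2
    push Not at hA2
    obtain ⟨r, hr, ν, h1, h2, h3, h4⟩ := hA2
    refine mem_biUnion.2 ⟨r, hr, mem_biUnion.2 ⟨ν, mem_filter.2 ⟨mem_Icc.2 ⟨h1, h2⟩, h4⟩, ?_⟩⟩
    exact mem_filter.2 ⟨hA1, h3⟩
  have hbad : (((walks k).filter (fun A => ¬ Gd μ N Rs A)).card : ℝ) * μ⁻¹ ^ k ≤ 1 / 4 := by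
    have h1 : (((walks k).filter (fun A => ¬ Gd μ N Rs A)).card : ℝ) ≤
        ∑ r ∈ Rs, ∑ ν ∈ (Icc 1 N).filter (fun ν => ¬ Dc μ N r ν),
          (((walks k).filter (SP r (sl N ν) ((ν + 1) / 2))).card : ℝ) := by
      have h2 : ((walks k).filter (fun A => ¬ Gd μ N Rs A)).card ≤
          ∑ r ∈ Rs, ∑ ν ∈ (Icc 1 N).filter (fun ν => ¬ Dc μ N r ν),
            ((walks k).filter (SP r (sl N ν) ((ν + 1) / 2))).card :=
        (card_le_card hsub).trans (card_biUnion_le.trans (sum_le_sum fun r _ => card_biUnion_le))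
      have h3 := (Nat.cast_le (α := ℝ)).2 h2
      push_cast at h3
      exact h3
    obtain ⟨c0, hc0⟩ : ∃ c0 : ℝ, c0 = (((N : ℝ) + 1) ^ 7)⁻¹ := ⟨_, rfl⟩
    have hc1 : 0 ≤ c0 := by rw [hc0]; positivity
    have h4 : (∑ r ∈ Rs, ∑ ν ∈ (Icc 1 N).filter (fun ν => ¬ Dc μ N r ν),
          (((walks k).filter (SP r (sl N ν) ((ν + 1) / 2))).card : ℝ)) * μ⁻¹ ^ k ≤
        ∑ r ∈ Rs, ∑ ν ∈ (Icc 1 N).filter (fun ν => ¬ Dc μ N r ν), c0 := by
      rw [sum_mul]
      refine sum_le_sum fun r hr => ?_
      rw [sum_mul]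
      refine sum_le_sum fun ν hν => ?_
      rw [mem_filter, mem_Icc] at hν
      rw [hc0]
      exact pi5_pair hμ hk (hR1 r hr) hν.1.1 hν.2
    have h5 : (∑ r ∈ Rs, ∑ ν ∈ (Icc 1 N).filter (fun ν => ¬ Dc μ N r ν), c0) ≤
        (N : ℝ) * ((N : ℝ) * c0) := by
      have h6 : ∀ r ∈ Rs, (∑ ν ∈ (Icc 1 N).filter (fun ν => ¬ Dc μ N r ν), c0) ≤
          (N : ℝ) * c0 := by
        intro r _
        rw [sum_const, nsmul_eq_mul]
        refine mul_le_mul_of_nonneg_right (Nat.cast_le.2 ?_) hc1
        exact (card_filter_le _ _).trans (by simp)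
      refine (sum_le_sum h6).trans ?_
      rw [sum_const, nsmul_eq_mul]
      exact mul_le_mul_of_nonneg_right (Nat.cast_le.2 hR) (by positivity)
    have h7 : (N : ℝ) * ((N : ℝ) * c0) ≤ 1 / 4 := by
      have h8 : (4 : ℝ) ≤ N := by exact_mod_cast hN
      have h9 : (N : ℝ) * N * 4 ≤ ((N : ℝ) + 1) ^ 7 := by
        have h10 : (N : ℝ) * N * 4 ≤ ((N : ℝ) + 1) ^ 3 := by nlinarith
        exact h10.trans (pow_le_pow_right₀ (by linarith) (by norm_num))
      rw [hc0, ← mul_assoc, ← div_eq_mul_inv, div_le_iff₀ (by positivity)]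
      linarith
    calc _ ≤ (∑ r ∈ Rs, ∑ ν ∈ (Icc 1 N).filter (fun ν => ¬ Dc μ N r ν),
          (((walks k).filter (SP r (sl N ν) ((ν + 1) / 2))).card : ℝ)) * μ⁻¹ ^ k :=
          mul_le_mul_of_nonneg_right h1 hx.le
      _ ≤ 1 / 4 := h4.trans (h5.trans h7)
  have hone : (1 : ℝ) ≤ ((walks k).card : ℝ) * μ⁻¹ ^ k := by
    have h1 := hc k
    rw [inv_pow, ← div_eq_mul_inv, le_div_iff₀ (by positivity), one_mul]
    exact h1
  have hsum : (((walks k).filter (Gd μ N Rs)).card : ℝ) +
      ((walks k).filter (fun A => ¬ Gd μ N Rs A)).card = (walks k).card := by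
    have h1 := card_filter_add_card_filter_not (s := walks k) (Gd μ N Rs)
    exact_mod_cast h1
  have hfin : (((walks k).filter (fun A => ¬ Gd μ N Rs A)).card : ℝ) ≤
      1 / 4 * (walks k).card := by
    refine le_of_mul_le_mul_right ?_ hx
    linarith
  linarith
-- END pi5

end Pool.Agent.MP_794e6e_ex
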